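import Pool.Agent.Lib.OneFac.Defs

set_option autoImplicit false
set_option linter.unusedVariables false
set_option linter.unusedSectionVars false

/-! # Module Kswap: exchanging two colours on a closed set

kswap μ i j C exchanges the colours i and j on C. If C is closed under μ i and μ j, the new family is
again a decomposition: every l is treated through the transposition (i j): on C the class l is
μ (swap i j l), outside C it is μ l.
PROOF. (closed) for l ∈ {i, j}: v ∉ C → μ l v ∉ C, since μ l (μ l v) = v. For l ∉ {i, j}: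
Equiv.swap i j l = l (Equiv.swap_apply_of_ne_of_ne) and the class does not change at all.
inv: cases l = i, l = j, other. adj: kswap l v is μ l' v for l' = swap i j l or l. cov: v adjacent to w:
μ l v = w for some l ∈ I; take l' = if v ∈ C then swap i j l else l (swap i j (swap i j l) = l).
dis: l ≠ l' and v ∈ C: apply h.dis to swap i j l ≠ swap i j l'.
kswap_fx: on the set S, the fixed points of the new class i are the fixed points of μ j in S ∩ C and
those of μ i in S \ C. -/

open Classical Finset

namespace Pool.Agent.OneFac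

variable {V : Type*} [Fintype V]

/-- exchange the colours `i` and `j` on `C` -/
noncomputable def kswap (μ : ℕ → V → V) (i j : ℕ) (C : Finset V) : ℕ → V → V := fun l v =>
  if v ∈ C then μ (Equiv.swap i j l) v else μ l v

private theorem ks_swap_mem {I : Finset ℕ} {i j : ℕ} (hi : i ∈ I) (hj : j ∈ I) {l : ℕ}
    (hl : l ∈ I) : Equiv.swap i j l ∈ I := by
  by_cases h1 : l = i
  · rw [h1, Equiv.swap_apply_left]
    exact hj
  · by_cases h2 : l = j
    · rw [h2, Equiv.swap_apply_right]
      exact hi
    · rw [Equiv.swap_apply_of_ne_of_ne h1 h2]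
      exact hl

private theorem ks_mem {μ : ℕ → V → V} {i j l : ℕ} {C : Finset V} {v : V} (hv : v ∈ C) :
    kswap μ i j C l v = μ (Equiv.swap i j l) v := by
  unfold kswap
  rw [if_pos hv]

private theorem ks_notMem {μ : ℕ → V → V} {i j l : ℕ} {C : Finset V} {v : V} (hv : v ∉ C) :
    kswap μ i j C l v = μ l v := by
  unfold kswap
  rw [if_neg hv]

private theorem ks_other {μ : ℕ → V → V} {i j l : ℕ} {C : Finset V} (hi : l ≠ i) (hj : l ≠ j)
    (v : V) : kswap μ i j C l v = μ l v := by
  by_cases hv : v ∈ C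
  · rw [ks_mem hv, Equiv.swap_apply_of_ne_of_ne hi hj]
  · exact ks_notMem hv

theorem kswap_dec {G : SimpleGraph V} {I : Finset ℕ} {μ : ℕ → V → V} (h : IsDec G I μ) {i j : ℕ}
    (hi : i ∈ I) (hj : j ∈ I) {C : Finset V} (hCi : ∀ v ∈ C, μ i v ∈ C) (hCj : ∀ v ∈ C, μ j v ∈ C) :
    IsDec G I (kswap μ i j C) := by
  have hCi' : ∀ v, v ∉ C → μ i v ∉ C := by
    intro v hv hv'
    apply hv
    rw [← h.inv i hi v]
    exact hCi _ hv'
  have hCj' : ∀ v, v ∉ C → μ j v ∉ C := by
    intro v hv hv'
    apply hv
    rw [← h.inv j hj v]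
    exact hCj _ hv'
  constructor
  · intro l hl v
    by_cases h1 : l = i
    · subst h1
      by_cases hv : v ∈ C
      · rw [ks_mem hv, Equiv.swap_apply_left, ks_mem (hCj v hv), Equiv.swap_apply_left,
          h.inv j hj]
      · rw [ks_notMem hv, ks_notMem (hCi' v hv), h.inv l hi]
    · by_cases h2 : l = j
      · subst h2
        by_cases hv : v ∈ C
        · rw [ks_mem hv, Equiv.swap_apply_right, ks_mem (hCi v hv), Equiv.swap_apply_right,
            h.inv i hi]
        · rw [ks_notMem hv, ks_notMem (hCj' v hv), h.inv l hj]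
      · rw [ks_other h1 h2, ks_other h1 h2, h.inv l hl]
  · intro l hl v hv
    by_cases hC : v ∈ C
    · rw [ks_mem hC] at hv ⊢
      exact h.adj _ (ks_swap_mem hi hj hl) v hv
    · rw [ks_notMem hC] at hv ⊢
      exact h.adj _ hl v hv
  · intro v w hvw
    obtain ⟨l, hl, hlw⟩ := h.cov v w hvw
    by_cases hC : v ∈ C
    · refine ⟨Equiv.swap i j l, ks_swap_mem hi hj hl, ?_⟩
      rw [ks_mem hC, Equiv.swap_apply_self]
      exact hlw
    · refine ⟨l, hl, ?_⟩
      rw [ks_notMem hC]
      exact hlw
  · intro l hl l' hl' hne v hv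
    by_cases hC : v ∈ C
    · rw [ks_mem hC] at hv ⊢
      rw [ks_mem hC] at hv
      exact h.dis _ (ks_swap_mem hi hj hl) _ (ks_swap_mem hi hj hl')
        (fun hh => hne ((Equiv.swap i j).injective hh)) v hv
    · rw [ks_notMem hC] at hv ⊢
      rw [ks_notMem hC] at hv
      exact h.dis _ hl _ hl' hne v hv

private theorem ks_split (S C : Finset V) (f : V → V) : fx S f = fx (S ∩ C) f + fx (S \ C) f := by
  unfold fx
  rw [← Finset.card_union_of_disjoint]
  · congr 1
    ext v
    simp only [mem_filter, mem_union, mem_inter, mem_sdiff]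
    tauto
  · rw [Finset.disjoint_left]
    intro v hv hv'
    simp only [mem_filter, mem_inter, mem_sdiff] at hv hv'
    exact hv'.1.2 hv.1.2

private theorem ks_congr {S : Finset V} {f g : V → V} (h : ∀ v ∈ S, f v = g v) :
    fx S f = fx S g := by
  unfold fx
  congr 1
  refine Finset.filter_congr fun v hv => ?_
  rw [h v hv]

theorem kswap_fx_left {μ : ℕ → V → V} {i j : ℕ} {C : Finset V} (S : Finset V) :
    fx S (kswap μ i j C i) + fx (S ∩ C) (μ i) = fx S (μ i) + fx (S ∩ C) (μ j) := by
  have h1 := ks_split S C (kswap μ i j C i)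
  have h2 := ks_split S C (μ i)
  have h3 : fx (S ∩ C) (kswap μ i j C i) = fx (S ∩ C) (μ j) := ks_congr fun v hv => by
    rw [ks_mem (mem_inter.1 hv).2, Equiv.swap_apply_left]
  have h4 : fx (S \ C) (kswap μ i j C i) = fx (S \ C) (μ i) := ks_congr fun v hv =>
    ks_notMem (mem_sdiff.1 hv).2
  omega

theorem kswap_fx_right {μ : ℕ → V → V} {i j : ℕ} {C : Finset V} (S : Finset V) :
    fx S (kswap μ i j C j) + fx (S ∩ C) (μ j) = fx S (μ j) + fx (S ∩ C) (μ i) := by
  have h1 := ks_split S C (kswap μ i j C j)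
  have h2 := ks_split S C (μ j)
  have h3 : fx (S ∩ C) (kswap μ i j C j) = fx (S ∩ C) (μ i) := ks_congr fun v hv => by
    rw [ks_mem (mem_inter.1 hv).2, Equiv.swap_apply_right]
  have h4 : fx (S \ C) (kswap μ i j C j) = fx (S \ C) (μ j) := ks_congr fun v hv =>
    ks_notMem (mem_sdiff.1 hv).2
  omega

theorem kswap_fx_other {μ : ℕ → V → V} {i j l : ℕ} {C : Finset V} (S : Finset V) (hi : l ≠ i)
    (hj : l ≠ j) : fx S (kswap μ i j C l) = fx S (μ l) :=
  ks_congr fun v _ => ks_other hi hj v

end Pool.Agent.OneFac
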