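import Pool.Agent.Lib.OneFac.Orbit
import Pool.Agent.Lib.OneFac.Kswap

set_option autoImplicit false
set_option linter.unusedVariables false
set_option linter.unusedSectionVars false

/-! # Module Equal: equalizing the colour classes (Kempe chains)

chain: α, β involutions of V with more fixed points of α than of β. Then some C closed under α and β has
fx C α = 2, fx C β = 0. PROOF: strong induction on |W| for closed W with fx W β < fx W α: take a fixed
point u ∈ W of α, C from orbit (C ⊆ W). If C is of type (2, 0) done. Otherwise fx C α = fx C β = 1,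
W \ C is closed (v ∈ W \ C: α v ∈ C would give v = α (α v) ∈ C), and
fx W α = fx C α + fx (W \ C) α, same for β; so fx (W \ C) β < fx (W \ C) α; induction.

equalize: choose, among the decompositions ν (start from μ), one with Σ_{i ∈ I} (fx univ (ν i))^2 minimal
(strong induction on this number). If fx univ (ν i) > fx univ (ν j) + 2 for some i, j ∈ I (so i ≠ j), take
C from chain (α = ν i, β = ν j); kswap ν i j C is a decomposition (kswap_dec) with class sizes
a - 2 and b + 2 instead of a and b (kswap_fx_left, right with S = univ, univ ∩ C = C), the others are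
unchanged (kswap_fx_other); (a - 2)^2 + (b + 2)^2 < a^2 + b^2 because a > b + 2: contradiction. -/

open Classical Finset

namespace Pool.Agent.OneFac

variable {V : Type*} [Fintype V]

private theorem eq_split (S C : Finset V) (f : V → V) : fx S f = fx (S ∩ C) f + fx (S \ C) f := by
  unfold fx
  rw [← Finset.card_union_of_disjoint]
  · congr 1
    ext v
    simp only [mem_filter, mem_union, mem_inter, mem_sdiff]
    tauto
  · rw [Finset.disjoint_left]
    intro v hv hv'
    simp only [mem_filter, mem_inter, mem_sdiff] at hv hv'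
    exact hv'.1.2 hv.1.2

private theorem chain_aux (α β : V → V) (hα : ∀ v, α (α v) = v) (hβ : ∀ v, β (β v) = v) (n : ℕ) :
    ∀ W : Finset V, W.card ≤ n → (∀ v ∈ W, α v ∈ W) → (∀ v ∈ W, β v ∈ W) → fx W β < fx W α →
    ∃ C : Finset V, (∀ v ∈ C, α v ∈ C) ∧ (∀ v ∈ C, β v ∈ C) ∧ fx C α = 2 ∧ fx C β = 0 := by
  induction n with
  | zero =>
    intro W hW _ _ h
    have hW0 : W = ∅ := Finset.card_eq_zero.1 (Nat.le_zero.1 hW)
    subst hW0
    exact absurd h (by simp [fx])
  | succ n ih =>
    intro W hW hWα hWβ h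
    have hpos : 0 < fx W α := by omega
    obtain ⟨u, hu⟩ := Finset.card_pos.1 hpos
    rw [mem_filter] at hu
    obtain ⟨C, huC, hCα, hCβ, hty, hmin⟩ := orbit α β hα hβ u hu.2
    have hCW : C ⊆ W := hmin W hu.1 hWα hWβ
    rcases hty with ⟨h1, h2⟩ | ⟨h1, h2⟩
    · refine ih (W \ C) ?_ ?_ ?_ ?_
      · have h3 := Finset.card_sdiff_add_card_eq_card hCW
        have h4 : 0 < C.card := Finset.card_pos.2 ⟨u, huC⟩
        omega
      · intro v hv
        rw [mem_sdiff] at hv ⊢
        refine ⟨hWα v hv.1, fun h3 => hv.2 ?_⟩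
        rw [← hα v]
        exact hCα _ h3
      · intro v hv
        rw [mem_sdiff] at hv ⊢
        refine ⟨hWβ v hv.1, fun h3 => hv.2 ?_⟩
        rw [← hβ v]
        exact hCβ _ h3
      · have e1 := eq_split W C α
        have e2 := eq_split W C β
        rw [Finset.inter_eq_right.2 hCW] at e1 e2
        omega
    · exact ⟨C, hCα, hCβ, h1, h2⟩

theorem chain (α β : V → V) (hα : ∀ v, α (α v) = v) (hβ : ∀ v, β (β v) = v)
    (h : fx univ β < fx univ α) :
    ∃ C : Finset V, (∀ v ∈ C, α v ∈ C) ∧ (∀ v ∈ C, β v ∈ C) ∧ fx C α = 2 ∧ fx C β = 0 :=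
  chain_aux α β hα hβ _ univ le_rfl (fun v _ => mem_univ _) (fun v _ => mem_univ _) h

private theorem equalize_aux {G : SimpleGraph V} {I : Finset ℕ} (n : ℕ) :
    ∀ μ : ℕ → V → V, IsDec G I μ → ∑ i ∈ I, (fx univ (μ i)) ^ 2 = n →
    ∃ ν : ℕ → V → V, IsDec G I ν ∧ ∀ i ∈ I, ∀ j ∈ I, fx univ (ν i) ≤ fx univ (ν j) + 2 := by
  induction n using Nat.strong_induction_on with
  | _ n ih =>
    intro μ hμ hs
    by_cases hgood : ∀ i ∈ I, ∀ j ∈ I, fx univ (μ i) ≤ fx univ (μ j) + 2
    · exact ⟨μ, hμ, hgood⟩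
    · push Not at hgood
      obtain ⟨i, hi, j, hj, hij⟩ := hgood
      have hne : i ≠ j := by
        rintro rfl
        omega
      obtain ⟨C, hCi, hCj, h2, h0⟩ := chain (μ i) (μ j) (hμ.inv i hi) (hμ.inv j hj) (by omega)
      have hd := kswap_dec hμ hi hj hCi hCj
      refine ih _ ?_ (kswap μ i j C) hd rfl
      rw [← hs]
      have hji : j ∈ I.erase i := mem_erase.2 ⟨hne.symm, hj⟩
      rw [← Finset.add_sum_erase I (fun l => (fx univ (μ l)) ^ 2) hi,
        ← Finset.add_sum_erase I (fun l => (fx univ (kswap μ i j C l)) ^ 2) hi,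
        ← Finset.add_sum_erase (I.erase i) (fun l => (fx univ (μ l)) ^ 2) hji,
        ← Finset.add_sum_erase (I.erase i) (fun l => (fx univ (kswap μ i j C l)) ^ 2) hji]
      have h3 : ∑ l ∈ (I.erase i).erase j, (fx univ (kswap μ i j C l)) ^ 2 =
          ∑ l ∈ (I.erase i).erase j, (fx univ (μ l)) ^ 2 := by
        refine Finset.sum_congr rfl fun l hl => ?_
        rw [mem_erase, mem_erase] at hl
        rw [kswap_fx_other univ hl.2.1 hl.1]
      have h4 := kswap_fx_left (μ := μ) (i := i) (j := j) (C := C) univ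
      have h5 := kswap_fx_right (μ := μ) (i := i) (j := j) (C := C) univ
      rw [Finset.univ_inter, h2, h0] at h4 h5
      simp only [h3]
      have h6 : fx univ (kswap μ i j C j) = fx univ (μ j) + 2 := by omega
      have h7 : fx univ (μ i) = fx univ (kswap μ i j C i) + 2 := by omega
      rw [h6, h7]
      have h8 : fx univ (μ j) < fx univ (kswap μ i j C i) := by omega
      nlinarith

theorem equalize {G : SimpleGraph V} {I : Finset ℕ} {μ : ℕ → V → V} (h : IsDec G I μ) :
    ∃ ν : ℕ → V → V, IsDec G I ν ∧ ∀ i ∈ I, ∀ j ∈ I, fx univ (ν i) ≤ fx univ (ν j) + 2 :=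
  equalize_aux _ μ h rfl

end Pool.Agent.OneFac
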