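import Mathlib

set_option autoImplicit false
set_option linter.unusedVariables false
set_option linter.unusedSectionVars false

/-! # Module Relabel: two equitable sequences with the same sum and parity are permutations of each other

PROOF. K = 0 trivial (π = id). Let m = min of a i (i < K), m' = min of b i. Every a i is m or m + 2 (same
parity, <= m + 2), every b i is m' or m' + 2. If m < m' then m + 2 <= m' (parity), so a i <= m + 2 <= m' <= b i
for all i and a i = m < b i for one i, contradiction to the equal sums; symmetric for m' < m. So m = m'.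
Σ a = K m + 2 #{a i = m + 2}, the same for b, so #{i < K : a i = m} = #{i < K : b i = m}. Take
a bijection between {i : Fin K // b i = m} and {i // a i = m}, extended to a permutation of Fin K
(Equiv.extendSubtype, needs Fintype; Equiv.extendSubtype_mem, Equiv.extendSubtype_not_mem), and
π i = if h : i < K then the value else i. -/

open Classical Finset

namespace Pool.Agent.OneFac

theorem relabel (K : ℕ) (a b : ℕ → ℕ) (ha : ∀ i < K, ∀ j < K, a i ≤ a j + 2)
    (hb : ∀ i < K, ∀ j < K, b i ≤ b j + 2) (hpar : ∀ i < K, ∀ j < K, a i % 2 = b j % 2)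
    (hsum : ∑ i ∈ range K, a i = ∑ i ∈ range K, b i) :
    ∃ π : ℕ → ℕ, (∀ i < K, π i < K) ∧ (∀ i < K, ∀ j < K, π i = π j → i = j) ∧
      (∀ j < K, ∃ i, i < K ∧ π i = j) ∧ ∀ i < K, a (π i) = b i := by
  rcases Nat.eq_zero_or_pos K with hK | hK
  · subst hK
    exact ⟨id, fun i hi => absurd hi (Nat.not_lt_zero i), fun i hi => absurd hi (Nat.not_lt_zero i),
      fun i hi => absurd hi (Nat.not_lt_zero i), fun i hi => absurd hi (Nat.not_lt_zero i)⟩
  obtain ⟨i0, hi0, hmin⟩ := Finset.exists_min_image (range K) a ⟨0, mem_range.2 hK⟩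
  obtain ⟨j0, hj0, hmin'⟩ := Finset.exists_min_image (range K) b ⟨0, mem_range.2 hK⟩
  rw [mem_range] at hi0 hj0
  have hA : ∀ i < K, a i = a i0 ∨ a i = a i0 + 2 := by
    intro i hi
    have h1 := hmin i (mem_range.2 hi)
    have h2 := ha i hi i0 hi0
    have h3 := hpar i hi j0 hj0
    have h4 := hpar i0 hi0 j0 hj0
    omega
  have hB : ∀ i < K, b i = b j0 ∨ b i = b j0 + 2 := by
    intro i hi
    have h1 := hmin' i (mem_range.2 hi)
    have h2 := hb i hi j0 hj0
    have h3 := hpar i0 hi0 i hi
    have h4 := hpar i0 hi0 j0 hj0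
    omega
  have hm : a i0 = b j0 := by
    have h4 := hpar i0 hi0 j0 hj0
    rcases lt_trichotomy (a i0) (b j0) with h | h | h
    · exfalso
      have h5 : ∑ i ∈ range K, a i < ∑ i ∈ range K, b i := by
        refine Finset.sum_lt_sum ?_ ⟨i0, mem_range.2 hi0, ?_⟩
        · intro i hi
          rw [mem_range] at hi
          rcases hA i hi with h6 | h6 <;> rcases hB i hi with h7 | h7 <;> omega
        · rcases hB i0 hi0 with h7 | h7 <;> omega
      omega
    · exact h
    · exfalso
      have h5 : ∑ i ∈ range K, b i < ∑ i ∈ range K, a i := by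
        refine Finset.sum_lt_sum ?_ ⟨j0, mem_range.2 hj0, ?_⟩
        · intro i hi
          rw [mem_range] at hi
          rcases hA i hi with h6 | h6 <;> rcases hB i hi with h7 | h7 <;> omega
        · rcases hA j0 hj0 with h7 | h7 <;> omega
      omega
  have hcount : ∀ c : ℕ → ℕ, (∀ i < K, c i = a i0 ∨ c i = a i0 + 2) →
      ∑ i ∈ range K, c i + 2 * (univ.filter fun i : Fin K => c i = a i0).card =
        K * (a i0 + 2) := by
    intro c hc
    rw [Finset.card_filter, Finset.mul_sum, ← Fin.sum_univ_eq_sum_range c K,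
      ← Finset.sum_add_distrib]
    rw [Finset.sum_congr rfl (g := fun _ => a i0 + 2)]
    · rw [Finset.sum_const, Finset.card_univ, Fintype.card_fin, smul_eq_mul]
    · intro i _
      rcases hc i i.2 with h | h
      · rw [if_pos h, h, Nat.mul_one]
      · rw [if_neg (by omega), h, Nat.mul_zero, Nat.add_zero]
  have hc1 := hcount a hA
  have hc2 := hcount b (by rw [hm]; exact hB)
  have hcard : Fintype.card {i : Fin K // b i = a i0} = Fintype.card {i : Fin K // a i = a i0} := by
    rw [Fintype.card_subtype, Fintype.card_subtype]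
    omega
  obtain ⟨e⟩ := Fintype.card_eq.1 hcard
  have hval : ∀ i : Fin K, a (e.extendSubtype i) = b i := by
    intro i
    by_cases h : b i = a i0
    · rw [e.extendSubtype_mem i h, h]
    · have h1 := e.extendSubtype_not_mem i h
      have h2 := hA (e.extendSubtype i) (e.extendSubtype i).2
      have h3 := hB i i.2
      omega
  refine ⟨fun i => if h : i < K then (e.extendSubtype ⟨i, h⟩ : Fin K) else i, ?_, ?_, ?_, ?_⟩
  · intro i hi
    simp only [hi, dif_pos]
    exact (e.extendSubtype ⟨i, hi⟩).2
  · intro i hi j hj hij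
    simp only [hi, hj, dif_pos] at hij
    have h1 := e.extendSubtype.injective (Fin.ext hij)
    exact congrArg Fin.val h1
  · intro j hj
    refine ⟨(e.extendSubtype.symm ⟨j, hj⟩ : Fin K), (e.extendSubtype.symm ⟨j, hj⟩).2, ?_⟩
    simp
  · intro i hi
    simp only [hi, dif_pos]
    exact hval ⟨i, hi⟩

end Pool.Agent.OneFac
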