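import Pool.Agent.Lib.OneFac.Vizing
import Pool.Agent.Lib.OneFac.Equal
import Pool.Agent.Lib.OneFac.Relabel

set_option autoImplicit false
set_option linter.unusedVariables false
set_option linter.unusedSectionVars false

/-! # Module Bal: a graph with all edges inside A or inside Aᶜ, |A| = |Aᶜ| = N, equal numbers of edges inside
A and Aᶜ, max degree < K: K matchings, each with the same number of uncovered vertices in A and in Aᶜ.

PROOF. Let F1 = edges of F inside A, F2 = edges of F inside Aᶜ (as graphs on V). vizing and equalize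
(I = range K) give decompositions μ1 of F1 and μ2 of F2 with fx univ (μ1 i) <= fx univ (μ1 j) + 2, same
for μ2. μ1 i fixes every v ∉ A (an edge of F1 lies in A), so fx univ (μ1 i) = fx A (μ1 i) + N; similarly
fx univ (μ2 i) = fx Aᶜ (μ2 i) + N. Let a i = fx A (μ1 i), b i = fx Aᶜ (μ2 i). Sums: by IsDec.sum_fx with S = A:
Σ a i + Σ_{v ∈ A} nb F1 univ v = N K and nb F1 univ v = nb F univ v for v ∈ A (all neighbours of v ∈ A are in A);
same for b; so Σ a = Σ b by hsum. Parity: fx_parity (μ1 i preserves A) gives a i ≡ N ≡ b i mod 2. relabel gives π.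
ν i v = if v ∈ A then μ1 (π i) v else μ2 i v. It is a decomposition of F: inv (μ1 preserves A, μ2 preserves Aᶜ),
adj, cov (v ∈ A, w neighbour: w ∈ A, μ1 j v = w for some j < K, j = π i), dis (π injective).
fx A (ν i) = a (π i) = b i = fx Aᶜ (ν i). Last claim: for all j: a (π i) >= a j - 2, so
K (fx A (ν i) + 2) >= Σ a j = N K - Σ_{v ∈ A} nb F univ v >= N K - S. -/

open Classical Finset

namespace Pool.Agent.OneFac

variable {V : Type*} [Fintype V]

/-- the edges of `F` inside `S` -/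
def balHalf (F : SimpleGraph V) (S : Finset V) : SimpleGraph V where
  Adj v w := F.Adj v w ∧ v ∈ S ∧ w ∈ S
  symm := ⟨fun v w h => ⟨h.1.symm, h.2.2, h.2.1⟩⟩
  loopless := ⟨fun v h => F.loopless.irrefl v h.1⟩

theorem balHalf_adj {F : SimpleGraph V} {S : Finset V} {v w : V} :
    (balHalf F S).Adj v w ↔ F.Adj v w ∧ v ∈ S ∧ w ∈ S := Iff.rfl

theorem balHalf_dec (F : SimpleGraph V) (S : Finset V) (K : ℕ)
    (hF : ∀ v w, F.Adj v w → (v ∈ S ↔ w ∈ S)) (hK : ∀ v, nb F univ v < K) :
    ∃ μ : ℕ → V → V, IsDec (balHalf F S) (range K) μ ∧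
      (∀ i < K, ∀ j < K, fx S (μ i) ≤ fx S (μ j) + 2) ∧
      (∑ i ∈ range K, fx S (μ i) + ∑ v ∈ S, nb F univ v = S.card * K) ∧
      (∀ i < K, fx S (μ i) % 2 = S.card % 2) ∧ (∀ i < K, ∀ v ∈ S, μ i v ∈ S) := by
  have h1 : ∀ v, nb (balHalf F S) univ v < (range K).card := by
    intro v
    rw [card_range]
    refine lt_of_le_of_lt ?_ (hK v)
    unfold nb
    refine Finset.card_le_card ?_
    intro w hw
    rw [mem_filter] at hw ⊢
    exact ⟨hw.1, hw.2.1⟩
  obtain ⟨μ0, hμ0⟩ := vizing (balHalf F S) (range K) h1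
  obtain ⟨μ, hμ, heq⟩ := equalize hμ0
  have hfix : ∀ i < K, ∀ v, v ∉ S → μ i v = v := by
    intro i hi v hv
    by_contra hne
    exact hv (hμ.adj i (mem_range.2 hi) v hne).2.1
  have hmem : ∀ i < K, ∀ v ∈ S, μ i v ∈ S := by
    intro i hi v hv
    by_cases hne : μ i v = v
    · rw [hne]; exact hv
    · exact (hμ.adj i (mem_range.2 hi) v hne).2.2
  have huniv : ∀ i < K, fx univ (μ i) = fx S (μ i) + Sᶜ.card := by
    intro i hi
    unfold fx
    rw [← Finset.card_union_of_disjoint]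
    · congr 1
      ext v
      simp only [mem_filter, mem_univ, true_and, mem_union, mem_compl]
      constructor
      · intro h
        by_cases hv : v ∈ S
        · exact Or.inl ⟨hv, h⟩
        · exact Or.inr hv
      · rintro (h | h)
        · exact h.2
        · exact hfix i hi v h
    · rw [Finset.disjoint_left]
      intro v hv hv'
      rw [mem_filter] at hv
      rw [mem_compl] at hv'
      exact hv' hv.1
  refine ⟨μ, hμ, ?_, ?_, ?_, hmem⟩
  · intro i hi j hj
    have := heq i (mem_range.2 hi) j (mem_range.2 hj)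
    rw [huniv i hi, huniv j hj] at this
    omega
  · have h2 := hμ.sum_fx S
    rw [card_range] at h2
    rw [← h2]
    congr 1
    refine Finset.sum_congr rfl ?_
    intro v hv
    unfold nb
    congr 1
    ext w
    simp only [mem_filter, mem_univ, true_and, balHalf_adj]
    constructor
    · intro h
      exact ⟨h, hv, (hF v w h).1 hv⟩
    · intro h
      exact h.1
  · intro i hi
    exact fx_parity S (μ i) (hμ.inv i (mem_range.2 hi)) (hmem i hi)

theorem balanced (F : SimpleGraph V) (A : Finset V) (N K S : ℕ) (hA : A.card = N)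
    (hB : Aᶜ.card = N) (hF : ∀ v w, F.Adj v w → (v ∈ A ↔ w ∈ A)) (hK : ∀ v, nb F univ v < K)
    (hsum : ∑ v ∈ A, nb F univ v = ∑ v ∈ Aᶜ, nb F univ v) (hS : ∑ v ∈ A, nb F univ v ≤ S) :
    ∃ ν : ℕ → V → V, IsDec F (range K) ν ∧ (∀ i < K, fx A (ν i) = fx Aᶜ (ν i)) ∧
      ∀ i < K, K * N ≤ K * fx A (ν i) + S + 2 * K := by
  obtain ⟨μ1, hμ1, he1, hs1, hp1, hm1⟩ := balHalf_dec F A K hF hK
  obtain ⟨μ2, hμ2, he2, hs2, hp2, hm2⟩ := balHalf_dec F Aᶜ K
    (fun v w h => by rw [mem_compl, mem_compl, hF v w h]) hK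
  rw [hA] at hs1
  rw [hB] at hs2
  obtain ⟨π, hπ, hinj, hsurj, hab⟩ := relabel K (fun i => fx A (μ1 i)) (fun i => fx Aᶜ (μ2 i)) he1 he2
    (fun i hi j hj => by
      have h1 := hp1 i hi
      have h2 := hp2 j hj
      rw [hA] at h1
      rw [hB] at h2
      show fx A (μ1 i) % 2 = fx Aᶜ (μ2 j) % 2
      rw [h1, h2])
    (by
      show ∑ i ∈ range K, fx A (μ1 i) = ∑ i ∈ range K, fx Aᶜ (μ2 i)
      omega)
  have hab' : ∀ i < K, fx A (μ1 (π i)) = fx Aᶜ (μ2 i) := hab
  set ν : ℕ → V → V := fun i v => if v ∈ A then μ1 (π i) v else μ2 i v with hν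
  have hνA : ∀ i v, v ∈ A → ν i v = μ1 (π i) v := by
    intro i v hv
    simp only [hν, if_pos hv]
  have hνB : ∀ i v, v ∉ A → ν i v = μ2 i v := by
    intro i v hv
    simp only [hν, if_neg hv]
  have hfA : ∀ i < K, fx A (ν i) = fx A (μ1 (π i)) := by
    intro i hi
    unfold fx
    congr 1
    refine Finset.filter_congr ?_
    intro v hv
    rw [hνA i v hv]
  have hfB : ∀ i < K, fx Aᶜ (ν i) = fx Aᶜ (μ2 i) := by
    intro i hi
    unfold fx
    congr 1
    refine Finset.filter_congr ?_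
    intro v hv
    rw [mem_compl] at hv
    rw [hνB i v hv]
  refine ⟨ν, ?_, ?_, ?_⟩
  · constructor
    · intro i hi v
      rw [mem_range] at hi
      by_cases hv : v ∈ A
      · rw [hνA i v hv, hνA i _ (hm1 _ (hπ i hi) v hv)]
        exact hμ1.inv _ (mem_range.2 (hπ i hi)) v
      · have h2 := hm2 i hi v (mem_compl.2 hv)
        rw [mem_compl] at h2
        rw [hνB i v hv, hνB i _ h2]
        exact hμ2.inv _ (mem_range.2 hi) v
    · intro i hi v hne
      rw [mem_range] at hi
      by_cases hv : v ∈ A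
      · rw [hνA i v hv] at hne ⊢
        exact (hμ1.adj _ (mem_range.2 (hπ i hi)) v hne).1
      · rw [hνB i v hv] at hne ⊢
        exact (hμ2.adj _ (mem_range.2 hi) v hne).1
    · intro v w hvw
      by_cases hv : v ∈ A
      · obtain ⟨j, hj, hjw⟩ := hμ1.cov v w ⟨hvw, hv, (hF v w hvw).1 hv⟩
        obtain ⟨i, hi, hij⟩ := hsurj j (mem_range.1 hj)
        refine ⟨i, mem_range.2 hi, ?_⟩
        rw [hνA i v hv, hij, hjw]
      · have hw : w ∉ A := fun h => hv ((hF v w hvw).2 h)
        obtain ⟨j, hj, hjw⟩ := hμ2.cov v w ⟨hvw, mem_compl.2 hv, mem_compl.2 hw⟩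
        refine ⟨j, hj, ?_⟩
        rw [hνB j v hv, hjw]
    · intro i hi j hj hij v hv'
      rw [mem_range] at hi hj
      by_cases hv : v ∈ A
      · rw [hνA i v hv, hνA j v hv] at hv'
        rw [hνA i v hv]
        exact hμ1.dis _ (mem_range.2 (hπ i hi)) _ (mem_range.2 (hπ j hj))
          (fun h => hij (hinj i hi j hj h)) v hv'
      · rw [hνB i v hv, hνB j v hv] at hv'
        rw [hνB i v hv]
        exact hμ2.dis _ (mem_range.2 hi) _ (mem_range.2 hj) hij v hv'
  · intro i hi
    rw [hfA i hi, hfB i hi, hab' i hi]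
  · intro i hi
    rw [hfA i hi]
    have h1 : ∑ j ∈ range K, fx A (μ1 j) ≤ ∑ j ∈ range K, (fx A (μ1 (π i)) + 2) := by
      refine Finset.sum_le_sum ?_
      intro j hj
      exact he1 j (mem_range.1 hj) (π i) (hπ i hi)
    rw [Finset.sum_const, card_range, smul_eq_mul] at h1
    have h2 : K * (fx A (μ1 (π i)) + 2) = K * fx A (μ1 (π i)) + 2 * K := by ring
    have h3 : K * N = N * K := by ring
    omega

end Pool.Agent.OneFac
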