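import Pool.Agent.Lib.OneFac.Defs

set_option autoImplicit false
set_option linter.unusedVariables false
set_option linter.unusedSectionVars false

/-! # Module Compl: completing a matching μ (inside A and inside Aᶜ) to a perfect matching by cross edges

H: edges between A and B := Aᶜ only. Q: forbidden vertices. Let a, b be the numbers of fixed points of μ in A, B.
PROOF. State: σ : V → V with (I1) σ involution; (I2) every v: σ v = μ v or H.Adj v (σ v); (I3) σ v = v implies
μ v = v; (I4) μ v ≠ v and σ v ≠ μ v imply v ∉ Q; (I5) with R = {v : μ v ≠ v ∧ σ v ≠ μ v} (dropped):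
|R ∩ B| + fx A σ <= a + 1 and |R ∩ A| + fx B σ <= b + 1 — more precisely |R ∩ B| + fx A σ <= a and
|R ∩ A| + fx B σ <= b as long as no odd step was made (the odd step is the last one); (I6) fx A σ ≡ fx B σ mod 2.
Start: σ = μ (|A| = |B| = N, fx_parity twice for (I6)). Induction on fx A σ + fx B σ. One step
lemma (A-fix): two fixed points a1 ≠ a2 of σ in A. P = {v ∈ B : μ v ≠ v ∧ σ v = μ v}; P is closed under μ
and |B \ P| <= b + |R ∩ B|. S1 = {v ∈ P : H.Adj a1 v}, S2 = {v ∈ P : H.Adj a2 (μ v)}: all H-neighbours of a1, a2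
are in B, so |S1| >= nb H a1 - |B \ P|, |S2| = |{w ∈ P : H.Adj a2 w}| >= nb H a2 - |B \ P| (v ↦ μ v is a bijection of P).
|S1 ∩ S2| >= |S1| + |S2| - |P| >= nb H a1 + nb H a2 - N - |B \ P| > 2 q by hdeg
(2 nb H > N + a + b + 2 q at both, |B \ P| <= b + a). At most 2 q of the v ∈ B have v ∈ Q or μ v ∈ Q, so
there is v ∈ S1 ∩ S2 with v, μ v ∉ Q. New σ': a1 ↔ v, a2 ↔ μ v, σ elsewhere (a1, v, a2, μ v distinct; v, μ v were matched
to each other by σ). fx A drops by 2, R gains v, μ v ∈ B. The same with A and B exchanged (B-fix; prove the step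
once for a general pair (A, B) with B = Aᶜ, i.e. apply it to Aᶜ). Last step (odd): fx A σ = fx B σ = 1, a1 ∈ A, b1 ∈ B
fixed. Choose b' ∈ P_B, H.Adj a1 b', b', μ b' ∉ Q (|N(a1) ∩ P_B| >= nb H a1 - |B \ P_B| > 2 q since
2 nb H a1 > N + a + b + 2 q and |B \ P| <= a + b, nb H a1 <= N). Put b'' = μ b'. Then a' ∈ P_A with H.Adj b'' a',
H.Adj b1 (μ a'), a', μ a' ∉ Q by the same pigeonhole (all vertices satisfy hdeg). New σ':
a1 ↔ b', b'' ↔ a', μ a' ↔ b1 (six distinct vertices). End: fx A σ = fx B σ = 0. -/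

open Classical Finset

namespace Pool.Agent.OneFac

variable {V : Type*} [Fintype V]

private structure Ctx (S T : Finset V) (H : SimpleGraph V) (μ : V → V) (Q : Finset V)
    (N q : ℕ) : Prop where
  st : ∀ v, v ∈ T ↔ v ∉ S
  cS : S.card = N
  cT : T.card = N
  mu : ∀ v, μ (μ v) = v
  muS : ∀ v, μ v ∈ S ↔ v ∈ S
  HH : ∀ v w, H.Adj v w → (v ∈ S ↔ w ∈ T)
  qS : (Q ∩ S).card ≤ q
  qT : (Q ∩ T).card ≤ q
  deg : ∀ v, N + (fx S μ + fx T μ) + 2 * q < 2 * nb H univ v

private structure Inv (S T : Finset V) (H : SimpleGraph V) (μ : V → V) (Q : Finset V)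
    (σ : V → V) : Prop where
  inv : ∀ v, σ (σ v) = v
  or : ∀ v, σ v = μ v ∨ H.Adj v (σ v)
  fix : ∀ v, σ v = v → μ v = v
  nq : ∀ v, μ v ≠ v → σ v ≠ μ v → v ∉ Q
  c1 : (T.filter fun v => μ v ≠ v ∧ σ v ≠ μ v).card + fx S σ ≤ fx S μ
  c2 : (S.filter fun v => μ v ≠ v ∧ σ v ≠ μ v).card + fx T σ ≤ fx T μ

private lemma Ctx.symm {S T : Finset V} {H : SimpleGraph V} {μ : V → V} {Q : Finset V}
    {N q : ℕ} (h : Ctx S T H μ Q N q) : Ctx T S H μ Q N q where
  st v := by have := h.st v; tauto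
  cS := h.cT
  cT := h.cS
  mu := h.mu
  muS v := by rw [h.st, h.st, h.muS]
  HH v w hvw := (h.HH w v hvw.symm).symm
  qS := h.qT
  qT := h.qS
  deg v := by have := h.deg v; omega

private lemma Inv.symm {S T : Finset V} {H : SimpleGraph V} {μ : V → V} {Q : Finset V}
    {σ : V → V} (h : Inv S T H μ Q σ) : Inv T S H μ Q σ where
  inv := h.inv
  or := h.or
  fix := h.fix
  nq := h.nq
  c1 := h.c2
  c2 := h.c1

/-- the pigeonhole argument -/
private lemma pig {S T : Finset V} {H : SimpleGraph V} {μ : V → V} {Q : Finset V}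
    {N q : ℕ} (h : Ctx S T H μ Q N q) {σ : V → V} (hs : Inv S T H μ Q σ) (x y : V)
    (hx : x ∈ S) (hy : y ∈ S) :
    ∃ v ∈ T, μ v ≠ v ∧ σ v = μ v ∧ H.Adj x v ∧ H.Adj y (μ v) ∧ v ∉ Q ∧ μ v ∉ Q := by
  by_contra hcon
  push Not at hcon
  have muT : ∀ v, μ v ∈ T ↔ v ∈ T := h.symm.muS
  obtain ⟨P, hP⟩ : ∃ P : Finset V, P = T.filter fun v => μ v ≠ v ∧ σ v = μ v := ⟨_, rfl⟩
  have hPT : P ⊆ T := by rw [hP]; exact filter_subset _ _
  have hPmu : ∀ v ∈ P, μ v ∈ P := by
    intro v hv
    rw [hP, mem_filter] at hv ⊢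
    refine ⟨(muT v).2 hv.1, ?_, ?_⟩
    · rw [h.mu]; exact hv.2.1.symm
    · rw [← hv.2.2, hs.inv, hv.2.2, h.mu]
  have e1 : P.card + (T \ P).card = N := by
    rw [← h.cT, Finset.card_sdiff_of_subset hPT]
    have := Finset.card_le_card hPT
    omega
  have f1 : (T \ P).card ≤ fx T μ + fx S μ := by
    have hsub : T \ P ⊆ (T.filter fun v => μ v = v) ∪
        (T.filter fun v => μ v ≠ v ∧ σ v ≠ μ v) := by
      intro v hv
      rw [mem_sdiff, hP, mem_filter] at hv
      rw [mem_union, mem_filter, mem_filter]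
      by_cases h1 : μ v = v
      · exact Or.inl ⟨hv.1, h1⟩
      · refine Or.inr ⟨hv.1, h1, fun h2 => hv.2 ⟨hv.1, h1, h2⟩⟩
    have h1 := (Finset.card_le_card hsub).trans (Finset.card_union_le _ _)
    have h2 := hs.c1
    have h3 : (T.filter fun v => μ v = v).card = fx T μ := rfl
    omega
  have nbT : ∀ z ∈ S, ∀ w, H.Adj z w → w ∈ T := fun z hz w hw => (h.HH z w hw).1 hz
  have a1 : nb H univ x ≤ (T \ P).card + (P.filter fun v => H.Adj x v).card := by
    have hsub : (univ.filter fun w => H.Adj x w) ⊆ (T \ P) ∪ (P.filter fun v => H.Adj x v) := by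
      intro w hw
      rw [mem_filter] at hw
      rw [mem_union, mem_sdiff, mem_filter]
      have := nbT x hx w hw.2
      tauto
    exact (Finset.card_le_card hsub).trans (Finset.card_union_le _ _)
  have b1 : nb H univ y ≤ (T \ P).card + (P.filter fun v => H.Adj y (μ v)).card := by
    have hsub : (univ.filter fun w => H.Adj y w) ⊆ (T \ P) ∪ (P.filter fun v => H.Adj y v) := by
      intro w hw
      rw [mem_filter] at hw
      rw [mem_union, mem_sdiff, mem_filter]
      have := nbT y hy w hw.2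
      tauto
    have h1 := (Finset.card_le_card hsub).trans (Finset.card_union_le _ _)
    have h2 : (P.filter fun v => H.Adj y v).card ≤ (P.filter fun v => H.Adj y (μ v)).card := by
      refine Finset.card_le_card_of_injOn μ ?_ ?_
      · intro v hv
        rw [mem_coe, mem_filter] at hv
        rw [mem_coe, mem_filter, h.mu]
        exact ⟨hPmu v hv.1, hv.2⟩
      · intro v _ w _ hvw
        have := congrArg μ hvw
        rwa [h.mu, h.mu] at this
    unfold nb
    omega
  have c1 : (P.filter fun v => H.Adj x v).card + (P.filter fun v => H.Adj y (μ v)).card ≤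
      P.card + ((P.filter fun v => H.Adj x v) ∩ (P.filter fun v => H.Adj y (μ v))).card := by
    have h1 := Finset.card_union_add_card_inter (P.filter fun v => H.Adj x v)
      (P.filter fun v => H.Adj y (μ v))
    have h2 : ((P.filter fun v => H.Adj x v) ∪ (P.filter fun v => H.Adj y (μ v))).card ≤ P.card :=
      Finset.card_le_card (union_subset (filter_subset _ _) (filter_subset _ _))
    omega
  have d1 : ((P.filter fun v => H.Adj x v) ∩ (P.filter fun v => H.Adj y (μ v))).card ≤ 2 * q := by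
    have hsub : (P.filter fun v => H.Adj x v) ∩ (P.filter fun v => H.Adj y (μ v)) ⊆
        (Q ∩ T) ∪ (Q ∩ T).image μ := by
      intro v hv
      rw [mem_inter, mem_filter, mem_filter] at hv
      obtain ⟨⟨hvP, hv1⟩, _, hv2⟩ := hv
      have hvP' := hvP
      rw [hP, mem_filter] at hvP'
      rw [mem_union, mem_inter, mem_image]
      by_cases hvQ : v ∈ Q
      · exact Or.inl ⟨hvQ, hvP'.1⟩
      · right
        have := hcon v hvP'.1 hvP'.2.1 hvP'.2.2 hv1 hv2 hvQ
        refine ⟨μ v, ?_, h.mu v⟩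
        rw [mem_inter]
        exact ⟨this, (muT v).2 hvP'.1⟩
    have h1 := (Finset.card_le_card hsub).trans (Finset.card_union_le _ _)
    have h2 : ((Q ∩ T).image μ).card ≤ (Q ∩ T).card := Finset.card_image_le
    have h3 := h.qT
    omega
  have dx := h.deg x
  have dy := h.deg y
  omega

private noncomputable def sw2 (σ : V → V) (a b c d : V) : V → V := fun z =>
  if z = a then b else if z = b then a else if z = c then d else if z = d then c else σ z

private noncomputable def sw3 (σ : V → V) (a b c d e f : V) : V → V := fun z =>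
  if z = a then b else if z = b then a else if z = c then d else if z = d then c else
    if z = e then f else if z = f then e else σ z

/-- the even step -/
private lemma step {S T : Finset V} {H : SimpleGraph V} {μ : V → V} {Q : Finset V}
    {N q : ℕ} (h : Ctx S T H μ Q N q) {σ : V → V} (hs : Inv S T H μ Q σ)
    (h2 : 1 < fx S σ) :
    ∃ τ, Inv S T H μ Q τ ∧ fx S τ + 2 ≤ fx S σ ∧ fx T τ ≤ fx T σ := by
  unfold fx at h2
  obtain ⟨a1, ha1, a2, ha2, ha⟩ := Finset.one_lt_card.1 h2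
  rw [mem_filter] at ha1 ha2
  obtain ⟨v, hvT, hv1, hv2, hv3, hv4, hv5, hv6⟩ := pig h hs a1 a2 ha1.1 ha2.1
  have muT : ∀ v, μ v ∈ T ↔ v ∈ T := h.symm.muS
  have hwT : μ v ∈ T := (muT v).2 hvT
  have hST : ∀ x ∈ S, ∀ y ∈ T, x ≠ y := by
    rintro x hx y hy rfl
    exact (h.st x).1 hy hx
  have n1 : a1 ≠ v := hST a1 ha1.1 v hvT
  have n2 : a1 ≠ μ v := hST a1 ha1.1 _ hwT
  have n3 : a2 ≠ v := hST a2 ha2.1 v hvT
  have n4 : a2 ≠ μ v := hST a2 ha2.1 _ hwT
  have hw : σ (μ v) = v := by rw [← hv2, hs.inv]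
  have m1 : μ a1 = a1 := hs.fix a1 ha1.2
  have m2 : μ a2 = a2 := hs.fix a2 ha2.2
  set τ : V → V := sw2 σ a1 v a2 (μ v) with hτ
  have t1 : τ a1 = v := by simp [hτ, sw2]
  have t2 : τ v = a1 := by simp [hτ, sw2, n1.symm]
  have t3 : τ a2 = μ v := by simp [hτ, sw2, ha.symm, n3]
  have t4 : τ (μ v) = a2 := by simp [hτ, sw2, n2.symm, n4.symm, hv1]
  have t5 : ∀ z, z ≠ a1 → z ≠ v → z ≠ a2 → z ≠ μ v → τ z = σ z := by
    intro z z1 z2 z3 z4
    simp [hτ, sw2, z1, z2, z3, z4]
  have hcases : ∀ z, z = a1 ∨ z = v ∨ z = a2 ∨ z = μ v ∨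
      (z ≠ a1 ∧ z ≠ v ∧ z ≠ a2 ∧ z ≠ μ v) := by
    intro z; tauto
  refine ⟨τ, ⟨?_, ?_, ?_, ?_, ?_, ?_⟩, ?_, ?_⟩
  · intro z
    rcases hcases z with rfl | rfl | rfl | rfl | ⟨z1, z2, z3, z4⟩
    · rw [t1, t2]
    · rw [t2, t1]
    · rw [t3, t4]
    · rw [t4, t3]
    · rw [t5 z z1 z2 z3 z4, t5 (σ z), hs.inv]
      · intro hz; apply z1; rw [← hs.inv z, hz, ha1.2]
      · intro hz; apply z4; rw [← hs.inv z, hz, hv2]
      · intro hz; apply z3; rw [← hs.inv z, hz, ha2.2]
      · intro hz; apply z2; rw [← hs.inv z, hz, hw]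
  · intro z
    rcases hcases z with rfl | rfl | rfl | rfl | ⟨z1, z2, z3, z4⟩
    · rw [t1]; exact Or.inr hv3
    · rw [t2]; exact Or.inr hv3.symm
    · rw [t3]; exact Or.inr hv4
    · rw [t4]; exact Or.inr hv4.symm
    · rw [t5 z z1 z2 z3 z4]; exact hs.or z
  · intro z hz
    rcases hcases z with rfl | rfl | rfl | rfl | ⟨z1, z2, z3, z4⟩
    · rw [t1] at hz; exact absurd hz.symm n1
    · rw [t2] at hz; exact absurd hz n1
    · rw [t3] at hz; exact absurd hz.symm n4
    · rw [t4] at hz; exact absurd hz n4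
    · rw [t5 z z1 z2 z3 z4] at hz; exact hs.fix z hz
  · intro z hz hz'
    rcases hcases z with rfl | rfl | rfl | rfl | ⟨z1, z2, z3, z4⟩
    · exact absurd m1 hz
    · exact hv5
    · exact absurd m2 hz
    · exact hv6
    · rw [t5 z z1 z2 z3 z4] at hz'; exact hs.nq z hz hz'
  · have s1 : (T.filter fun z => μ z ≠ z ∧ τ z ≠ μ z) ⊆
        (T.filter fun z => μ z ≠ z ∧ σ z ≠ μ z) ∪ {v, μ v} := by
      intro z hz
      rw [mem_filter] at hz
      rw [mem_union, mem_filter, mem_insert, mem_singleton]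
      rcases hcases z with rfl | rfl | rfl | rfl | ⟨z1, z2, z3, z4⟩
      · exact absurd m1 hz.2.1
      · tauto
      · exact absurd m2 hz.2.1
      · tauto
      · rw [t5 z z1 z2 z3 z4] at hz; tauto
    have s2 := (Finset.card_le_card s1).trans (Finset.card_union_le _ _)
    have s3 : ({v, μ v} : Finset V).card ≤ 2 := Finset.card_le_two
    have s4 : (S.filter fun z => τ z = z) ∪ {a1, a2} ⊆ S.filter fun z => σ z = z := by
      intro z hz
      rw [mem_union, mem_filter, mem_insert, mem_singleton] at hz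
      rw [mem_filter]
      rcases hz with ⟨hz1, hz2⟩ | rfl | rfl
      · refine ⟨hz1, ?_⟩
        rcases hcases z with rfl | rfl | rfl | rfl | ⟨z1, z2, z3, z4⟩
        · exact ha1.2
        · rw [t2] at hz2; exact absurd hz2 n1
        · exact ha2.2
        · rw [t4] at hz2; exact absurd hz2 n4
        · rw [t5 z z1 z2 z3 z4] at hz2; exact hz2
      · exact ha1
      · exact ha2
    have s5 : ((S.filter fun z => τ z = z) ∪ {a1, a2}).card = fx S τ + 2 := by
      rw [Finset.card_union_of_disjoint, Finset.card_pair ha]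
      · rfl
      · rw [Finset.disjoint_right]
        intro z hz
        rw [mem_insert, mem_singleton] at hz
        rw [mem_filter]
        rcases hz with rfl | rfl
        · rw [t1]; exact fun h => n1 h.2.symm
        · rw [t3]; exact fun h => n4 h.2.symm
    have s6 := Finset.card_le_card s4
    rw [s5] at s6
    have s7 : (S.filter fun z => σ z = z).card = fx S σ := rfl
    have s8 := hs.c1
    omega
  · have s1 : (S.filter fun z => μ z ≠ z ∧ τ z ≠ μ z) ⊆
        (S.filter fun z => μ z ≠ z ∧ σ z ≠ μ z) := by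
      intro z hz
      rw [mem_filter] at hz
      rw [mem_filter]
      rcases hcases z with rfl | rfl | rfl | rfl | ⟨z1, z2, z3, z4⟩
      · exact absurd m1 hz.2.1
      · exact absurd rfl (hST z hz.1 z hvT)
      · exact absurd m2 hz.2.1
      · exact absurd rfl (hST _ hz.1 _ hwT)
      · rw [t5 z z1 z2 z3 z4] at hz; exact hz
    have s2 := Finset.card_le_card s1
    have s4 : (T.filter fun z => τ z = z) ⊆ T.filter fun z => σ z = z := by
      intro z hz
      rw [mem_filter] at hz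
      rw [mem_filter]
      obtain ⟨hz1, hz2⟩ := hz
      refine ⟨hz1, ?_⟩
      rcases hcases z with rfl | rfl | rfl | rfl | ⟨z1, z2, z3, z4⟩
      · exact ha1.2
      · rw [t2] at hz2; exact absurd hz2 n1
      · exact ha2.2
      · rw [t4] at hz2; exact absurd hz2 n4
      · rw [t5 z z1 z2 z3 z4] at hz2; exact hz2
    have s6 : fx T τ ≤ fx T σ := Finset.card_le_card s4
    have s8 := hs.c2
    omega
  · have s4 : (S.filter fun z => τ z = z) ∪ {a1, a2} ⊆ S.filter fun z => σ z = z := by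
      intro z hz
      rw [mem_union, mem_filter, mem_insert, mem_singleton] at hz
      rw [mem_filter]
      rcases hz with ⟨hz1, hz2⟩ | rfl | rfl
      · refine ⟨hz1, ?_⟩
        rcases hcases z with rfl | rfl | rfl | rfl | ⟨z1, z2, z3, z4⟩
        · exact ha1.2
        · rw [t2] at hz2; exact absurd hz2 n1
        · exact ha2.2
        · rw [t4] at hz2; exact absurd hz2 n4
        · rw [t5 z z1 z2 z3 z4] at hz2; exact hz2
      · exact ha1
      · exact ha2
    have s5 : ((S.filter fun z => τ z = z) ∪ {a1, a2}).card = fx S τ + 2 := by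
      rw [Finset.card_union_of_disjoint, Finset.card_pair ha]
      · rfl
      · rw [Finset.disjoint_right]
        intro z hz
        rw [mem_insert, mem_singleton] at hz
        rw [mem_filter]
        rcases hz with rfl | rfl
        · rw [t1]; exact fun h => n1 h.2.symm
        · rw [t3]; exact fun h => n4 h.2.symm
    have s6 := Finset.card_le_card s4
    rw [s5] at s6
    exact s6
  · have s4 : (T.filter fun z => τ z = z) ⊆ T.filter fun z => σ z = z := by
      intro z hz
      rw [mem_filter] at hz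
      rw [mem_filter]
      obtain ⟨hz1, hz2⟩ := hz
      refine ⟨hz1, ?_⟩
      rcases hcases z with rfl | rfl | rfl | rfl | ⟨z1, z2, z3, z4⟩
      · exact ha1.2
      · rw [t2] at hz2; exact absurd hz2 n1
      · exact ha2.2
      · rw [t4] at hz2; exact absurd hz2 n4
      · rw [t5 z z1 z2 z3 z4] at hz2; exact hz2
    exact Finset.card_le_card s4

/-- the conclusion -/
private def Goal (S T : Finset V) (H : SimpleGraph V) (μ : V → V) (Q : Finset V)
    (σ : V → V) : Prop :=
  (∀ v, σ (σ v) = v) ∧ (∀ v, σ v ≠ v) ∧ (∀ v, σ v = μ v ∨ H.Adj v (σ v)) ∧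
      (∀ v, μ v ≠ v → σ v ≠ μ v → v ∉ Q) ∧
      (S.filter fun v => μ v ≠ v ∧ σ v ≠ μ v).card ≤ fx T μ + 1 ∧
      (T.filter fun v => μ v ≠ v ∧ σ v ≠ μ v).card ≤ fx S μ + 1

/-- the odd step -/
private lemma odd {S T : Finset V} {H : SimpleGraph V} {μ : V → V} {Q : Finset V}
    {N q : ℕ} (h : Ctx S T H μ Q N q) {σ : V → V} (hs : Inv S T H μ Q σ)
    (h1 : fx S σ = 1) (h2 : fx T σ = 1) : ∃ τ, Goal S T H μ Q τ := by
  have g1 := h1
  have g2 := h2
  unfold fx at h1 h2
  obtain ⟨a1, ha1⟩ := Finset.card_eq_one.1 h1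
  obtain ⟨b1, hb1⟩ := Finset.card_eq_one.1 h2
  have ha : a1 ∈ S ∧ σ a1 = a1 := by
    have : a1 ∈ S.filter fun v => σ v = v := by rw [ha1]; exact mem_singleton_self _
    rwa [mem_filter] at this
  have hb : b1 ∈ T ∧ σ b1 = b1 := by
    have : b1 ∈ T.filter fun v => σ v = v := by rw [hb1]; exact mem_singleton_self _
    rwa [mem_filter] at this
  have ha' : ∀ z ∈ S, σ z = z → z = a1 := by
    intro z hz hz'
    have : z ∈ S.filter fun v => σ v = v := mem_filter.2 ⟨hz, hz'⟩
    rw [ha1] at this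
    exact mem_singleton.1 this
  have hb' : ∀ z ∈ T, σ z = z → z = b1 := by
    intro z hz hz'
    have : z ∈ T.filter fun v => σ v = v := mem_filter.2 ⟨hz, hz'⟩
    rw [hb1] at this
    exact mem_singleton.1 this
  have muT : ∀ v, μ v ∈ T ↔ v ∈ T := h.symm.muS
  obtain ⟨v, hvT, hv1, hv2, hv3, hv4, hv5, hv6⟩ := pig h hs a1 a1 ha.1 ha.1
  have hwT : μ v ∈ T := (muT v).2 hvT
  obtain ⟨u, huS, hu1, hu2, hu3, hu4, hu5, hu6⟩ := pig h.symm hs.symm (μ v) b1 hwT hb.1
  have hxS : μ u ∈ S := (h.muS u).2 huS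
  have hST : ∀ x ∈ S, ∀ y ∈ T, x ≠ y := by
    rintro x hx y hy rfl
    exact (h.st x).1 hy hx
  have hTS : ∀ x ∈ T, ∀ y ∈ S, x ≠ y := fun x hx y hy => (hST y hy x hx).symm
  have hw : σ (μ v) = v := by rw [← hv2, hs.inv]
  have hx : σ (μ u) = u := by rw [← hu2, hs.inv]
  have m1 : μ a1 = a1 := hs.fix a1 ha.2
  have m2 : μ b1 = b1 := hs.fix b1 hb.2
  -- distinctness inside S : a1, u, μ u; inside T : v, μ v, b1
  have d1 : a1 ≠ u := by rintro rfl; exact hu1 m1
  have d2 : a1 ≠ μ u := by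
    intro hh
    apply hu1
    have := h.mu u
    rw [← hh, m1] at this
    rw [← this]; exact m1
  have d3 : μ u ≠ u := hu1
  have d4 : b1 ≠ v := by rintro rfl; exact hv1 m2
  have d5 : b1 ≠ μ v := by
    intro hh
    apply hv1
    have := h.mu v
    rw [← hh, m2] at this
    rw [← this]; exact m2
  have d6 : μ v ≠ v := hv1
  set τ : V → V := sw3 σ a1 v (μ v) u (μ u) b1 with hτ
  have t1 : τ a1 = v := by simp [hτ, sw3]
  have t2 : τ v = a1 := by simp [hτ, sw3, hTS v hvT a1 ha.1]
  have t3 : τ (μ v) = u := by simp [hτ, sw3, hTS _ hwT a1 ha.1, d6]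
  have t4 : τ u = μ v := by simp [hτ, sw3, d1.symm, hST u huS v hvT, hST u huS _ hwT]
  have t5 : τ (μ u) = b1 := by
    simp [hτ, sw3, d2.symm, hST _ hxS v hvT, hST _ hxS _ hwT, d3]
  have t6 : τ b1 = μ u := by
    simp [hτ, sw3, hTS b1 hb.1 a1 ha.1, d4, d5, hTS b1 hb.1 u huS, hTS b1 hb.1 _ hxS]
  have t7 : ∀ z, z ≠ a1 → z ≠ v → z ≠ μ v → z ≠ u → z ≠ μ u → z ≠ b1 → τ z = σ z := by
    intro z z1 z2 z3 z4 z5 z6
    simp [hτ, sw3, z1, z2, z3, z4, z5, z6]
  have hcases : ∀ z, z = a1 ∨ z = v ∨ z = μ v ∨ z = u ∨ z = μ u ∨ z = b1 ∨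
      (z ≠ a1 ∧ z ≠ v ∧ z ≠ μ v ∧ z ≠ u ∧ z ≠ μ u ∧ z ≠ b1) := by
    intro z; tauto
  refine ⟨τ, ?_, ?_, ?_, ?_, ?_, ?_⟩
  · intro z
    rcases hcases z with rfl | rfl | rfl | rfl | rfl | rfl | ⟨z1, z2, z3, z4, z5, z6⟩
    · rw [t1, t2]
    · rw [t2, t1]
    · rw [t3, t4]
    · rw [t4, t3]
    · rw [t5, t6]
    · rw [t6, t5]
    · rw [t7 z z1 z2 z3 z4 z5 z6, t7 (σ z), hs.inv]
      · intro hz; apply z1; rw [← hs.inv z, hz, ha.2]
      · intro hz; apply z3; rw [← hs.inv z, hz, hv2]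
      · intro hz; apply z2; rw [← hs.inv z, hz, hw]
      · intro hz; apply z5; rw [← hs.inv z, hz, hu2]
      · intro hz; apply z4; rw [← hs.inv z, hz, hx]
      · intro hz; apply z6; rw [← hs.inv z, hz, hb.2]
  · intro z hz
    rcases hcases z with rfl | rfl | rfl | rfl | rfl | rfl | ⟨z1, z2, z3, z4, z5, z6⟩
    · rw [t1] at hz; exact hTS v hvT _ ha.1 hz
    · rw [t2] at hz; exact hST _ ha.1 _ hvT hz
    · rw [t3] at hz; exact hST _ huS _ hwT hz
    · rw [t4] at hz; exact hTS _ hwT _ huS hz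
    · rw [t5] at hz; exact hTS _ hb.1 _ hxS hz
    · rw [t6] at hz; exact hST _ hxS _ hb.1 hz
    · rw [t7 z z1 z2 z3 z4 z5 z6] at hz
      by_cases hzS : z ∈ S
      · exact z1 (ha' z hzS hz)
      · exact z6 (hb' z ((h.st z).2 hzS) hz)
  · intro z
    rcases hcases z with rfl | rfl | rfl | rfl | rfl | rfl | ⟨z1, z2, z3, z4, z5, z6⟩
    · rw [t1]; exact Or.inr hv3
    · rw [t2]; exact Or.inr hv3.symm
    · rw [t3]; exact Or.inr hu3
    · rw [t4]; exact Or.inr hu3.symm
    · rw [t5]; exact Or.inr hu4.symm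
    · rw [t6]; exact Or.inr hu4
    · rw [t7 z z1 z2 z3 z4 z5 z6]; exact hs.or z
  · intro z hz hz'
    rcases hcases z with rfl | rfl | rfl | rfl | rfl | rfl | ⟨z1, z2, z3, z4, z5, z6⟩
    · exact absurd m1 hz
    · exact hv5
    · exact hv6
    · exact hu5
    · exact hu6
    · exact absurd m2 hz
    · rw [t7 z z1 z2 z3 z4 z5 z6] at hz'; exact hs.nq z hz hz'
  · have s1 : (S.filter fun z => μ z ≠ z ∧ τ z ≠ μ z) ⊆
        (S.filter fun z => μ z ≠ z ∧ σ z ≠ μ z) ∪ {u, μ u} := by
      intro z hz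
      rw [mem_filter] at hz
      rw [mem_union, mem_filter, mem_insert, mem_singleton]
      rcases hcases z with rfl | rfl | rfl | rfl | rfl | rfl | ⟨z1, z2, z3, z4, z5, z6⟩
      · exact absurd m1 hz.2.1
      · exact absurd rfl (hST _ hz.1 _ hvT)
      · exact absurd rfl (hST _ hz.1 _ hwT)
      · tauto
      · tauto
      · exact absurd m2 hz.2.1
      · rw [t7 z z1 z2 z3 z4 z5 z6] at hz; tauto
    have s2 := (Finset.card_le_card s1).trans (Finset.card_union_le _ _)
    have s3 : ({u, μ u} : Finset V).card ≤ 2 := Finset.card_le_two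
    have s8 := hs.c2
    omega
  · have s1 : (T.filter fun z => μ z ≠ z ∧ τ z ≠ μ z) ⊆
        (T.filter fun z => μ z ≠ z ∧ σ z ≠ μ z) ∪ {v, μ v} := by
      intro z hz
      rw [mem_filter] at hz
      rw [mem_union, mem_filter, mem_insert, mem_singleton]
      rcases hcases z with rfl | rfl | rfl | rfl | rfl | rfl | ⟨z1, z2, z3, z4, z5, z6⟩
      · exact absurd m1 hz.2.1
      · tauto
      · tauto
      · exact absurd rfl (hTS _ hz.1 _ huS)
      · exact absurd rfl (hTS _ hz.1 _ hxS)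
      · exact absurd m2 hz.2.1
      · rw [t7 z z1 z2 z3 z4 z5 z6] at hz; tauto
    have s2 := (Finset.card_le_card s1).trans (Finset.card_union_le _ _)
    have s3 : ({v, μ v} : Finset V).card ≤ 2 := Finset.card_le_two
    have s8 := hs.c1
    omega

private lemma fx_split {S T : Finset V} (hst : ∀ v, v ∈ T ↔ v ∉ S) (σ : V → V) :
    fx univ σ = fx S σ + fx T σ := by
  unfold fx
  rw [← Finset.card_union_of_disjoint]
  · congr 1
    ext v
    simp only [mem_union, mem_filter, mem_univ, true_and, hst]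
    tauto
  · rw [Finset.disjoint_left]
    intro v hv hv'
    rw [mem_filter] at hv hv'
    exact (hst v).1 hv'.1 hv.1

private lemma finish {S T : Finset V} {H : SimpleGraph V} {μ : V → V} {Q : Finset V}
    {N q : ℕ} (h : Ctx S T H μ Q N q) (n : ℕ) : ∀ σ : V → V, Inv S T H μ Q σ →
      fx S σ + fx T σ ≤ n → ∃ τ, Goal S T H μ Q τ := by
  induction n using Nat.strong_induction_on with
  | _ n ih =>
    intro σ hs hn
    have hpar : (fx S σ + fx T σ) % 2 = 0 := by
      rw [← fx_split h.st, fx_parity univ σ hs.inv (fun v _ => mem_univ _)]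
      have h1 : (univ : Finset V) = S ∪ T := by
        ext v
        simp only [mem_univ, mem_union, true_iff, h.st]
        tauto
      have h2 : Disjoint S T := by
        rw [Finset.disjoint_left]
        intro v hv hv'
        exact (h.st v).1 hv' hv
      rw [h1, Finset.card_union_of_disjoint h2, h.cS, h.cT]
      omega
    by_cases hS : 1 < fx S σ
    · obtain ⟨τ, hτ, h1, h2⟩ := step h hs hS
      exact ih (n - 1) (by omega) τ hτ (by omega)
    by_cases hT : 1 < fx T σ
    · obtain ⟨τ, hτ, h1, h2⟩ := step h.symm hs.symm hT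
      exact ih (n - 1) (by omega) τ hτ.symm (by omega)
    by_cases hS1 : fx S σ = 1
    · exact odd h hs hS1 (by omega)
    · have hS0 : fx S σ = 0 := by omega
      have hT0 : fx T σ = 0 := by omega
      refine ⟨σ, hs.inv, ?_, hs.or, hs.nq, ?_, ?_⟩
      · intro v hv
        by_cases hvS : v ∈ S
        · unfold fx at hS0
          rw [Finset.card_eq_zero] at hS0
          have : v ∈ S.filter fun z => σ z = z := mem_filter.2 ⟨hvS, hv⟩
          rw [hS0] at this
          exact absurd this (Finset.notMem_empty v)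
        · unfold fx at hT0
          rw [Finset.card_eq_zero] at hT0
          have : v ∈ T.filter fun z => σ z = z := mem_filter.2 ⟨(h.st v).2 hvS, hv⟩
          rw [hT0] at this
          exact absurd this (Finset.notMem_empty v)
      · have := hs.c2
        omega
      · have := hs.c1
        omega

theorem completion (A : Finset V) (H : SimpleGraph V) (μ : V → V) (Q : Finset V) (N q : ℕ)
    (hA : A.card = N) (hB : Aᶜ.card = N) (hμ : ∀ v, μ (μ v) = v)
    (hμA : ∀ v, μ v ∈ A ↔ v ∈ A) (hH : ∀ v w, H.Adj v w → ¬ (v ∈ A ↔ w ∈ A))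
    (hQA : (Q ∩ A).card ≤ q) (hQB : (Q ∩ Aᶜ).card ≤ q)
    (hdeg : ∀ v, N + fx univ μ + 2 * q < 2 * nb H univ v) :
    ∃ σ : V → V, (∀ v, σ (σ v) = v) ∧ (∀ v, σ v ≠ v) ∧ (∀ v, σ v = μ v ∨ H.Adj v (σ v)) ∧
      (∀ v, μ v ≠ v → σ v ≠ μ v → v ∉ Q) ∧
      (A.filter fun v => μ v ≠ v ∧ σ v ≠ μ v).card ≤ fx Aᶜ μ + 1 ∧
      (Aᶜ.filter fun v => μ v ≠ v ∧ σ v ≠ μ v).card ≤ fx A μ + 1 := by
  have hst : ∀ v, v ∈ Aᶜ ↔ v ∉ A := fun v => mem_compl
  have ctx : Ctx A Aᶜ H μ Q N q :=
    { st := hst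
      cS := hA
      cT := hB
      mu := hμ
      muS := hμA
      HH := by
        intro v w hvw
        have := hH v w hvw
        rw [hst]
        tauto
      qS := hQA
      qT := hQB
      deg := by
        intro v
        rw [← fx_split hst]
        exact hdeg v }
  have inv0 : Inv A Aᶜ H μ Q μ :=
    { inv := hμ
      or := fun v => Or.inl rfl
      fix := fun v hv => hv
      nq := fun v _ hv => absurd rfl hv
      c1 := by
        have : (Aᶜ.filter fun v => μ v ≠ v ∧ μ v ≠ μ v) = ∅ := by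
          ext v; simp
        rw [this]; simp
      c2 := by
        have : (A.filter fun v => μ v ≠ v ∧ μ v ≠ μ v) = ∅ := by
          ext v; simp
        rw [this]; simp }
  exact finish ctx _ μ inv0 le_rfl

end Pool.Agent.OneFac
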