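import Mathlib

set_option autoImplicit false
set_option linter.unusedVariables false
set_option linter.unusedSectionVars false

/-! # One-factorizations: basic definitions (colour classes as involutions)

A matching is an involution `μ : V → V`; the fixed points are the uncovered vertices. -/

open Classical Finset

namespace Pool.Agent.OneFac

variable {V : Type*} [Fintype V]

/-- number of neighbours of `v` in `S` -/
noncomputable def nb (G : SimpleGraph V) (S : Finset V) (v : V) : ℕ :=
  (S.filter fun w => G.Adj v w).card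

/-- number of fixed points of `μ` in `S` -/
noncomputable def fx (S : Finset V) (μ : V → V) : ℕ := (S.filter fun v => μ v = v).card

/-- the edges of `G` inside `A` or inside the complement of `A` -/
def ins (G : SimpleGraph V) (A : Finset V) : SimpleGraph V where
  Adj v w := G.Adj v w ∧ (v ∈ A ↔ w ∈ A)
  symm := ⟨fun v w h => ⟨h.1.symm, h.2.symm⟩⟩
  loopless := ⟨fun v h => G.loopless.irrefl v h.1⟩

/-- the edges of `G` between `A` and the complement of `A` -/
def crs (G : SimpleGraph V) (A : Finset V) : SimpleGraph V where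
  Adj v w := G.Adj v w ∧ ¬ (v ∈ A ↔ w ∈ A)
  symm := ⟨fun v w h => ⟨h.1.symm, fun h' => h.2 h'.symm⟩⟩
  loopless := ⟨fun v h => G.loopless.irrefl v h.1⟩

/-- the edges of `G` not used by `σ 0, ..., σ (k-1)` -/
def rem (G : SimpleGraph V) (σ : ℕ → V → V) (k : ℕ) : SimpleGraph V where
  Adj v w := G.Adj v w ∧ ∀ j, j < k → σ j v ≠ w ∧ σ j w ≠ v
  symm := ⟨fun v w h => ⟨h.1.symm, fun j hj => ⟨(h.2 j hj).2, (h.2 j hj).1⟩⟩⟩
  loopless := ⟨fun v h => G.loopless.irrefl v h.1⟩

/-- `μ i` (`i ∈ I`) are edge-disjoint matchings which together contain every edge of `G`. -/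
structure IsDec (G : SimpleGraph V) (I : Finset ℕ) (μ : ℕ → V → V) : Prop where
  inv : ∀ i ∈ I, ∀ v, μ i (μ i v) = v
  adj : ∀ i ∈ I, ∀ v, μ i v ≠ v → G.Adj v (μ i v)
  cov : ∀ v w, G.Adj v w → ∃ i ∈ I, μ i v = w
  dis : ∀ i ∈ I, ∀ j ∈ I, i ≠ j → ∀ v, μ i v = μ j v → μ i v = v

/-- `σ 0, ..., σ (k-1)` are edge-disjoint perfect matchings of `G`. -/
structure PF (G : SimpleGraph V) (k : ℕ) (σ : ℕ → V → V) : Prop where
  inv : ∀ i, i < k → ∀ v, σ i (σ i v) = v
  adj : ∀ i, i < k → ∀ v, G.Adj v (σ i v)
  dis : ∀ i, i < k → ∀ j, j < k → i ≠ j → ∀ v, σ i v ≠ σ j v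

theorem ins_adj {G : SimpleGraph V} {A : Finset V} {v w : V} :
    (ins G A).Adj v w ↔ G.Adj v w ∧ (v ∈ A ↔ w ∈ A) := Iff.rfl

theorem crs_adj {G : SimpleGraph V} {A : Finset V} {v w : V} :
    (crs G A).Adj v w ↔ G.Adj v w ∧ ¬ (v ∈ A ↔ w ∈ A) := Iff.rfl

theorem rem_adj {G : SimpleGraph V} {σ : ℕ → V → V} {k : ℕ} {v w : V} :
    (rem G σ k).Adj v w ↔ G.Adj v w ∧ ∀ j, j < k → σ j v ≠ w ∧ σ j w ≠ v := Iff.rfl

/-- For involutions the definition of `rem` simplifies. -/
theorem PF.rem_adj_iff {G : SimpleGraph V} {k : ℕ} {σ : ℕ → V → V} (h : PF G k σ) {v w : V} :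
    (rem G σ k).Adj v w ↔ G.Adj v w ∧ ∀ j, j < k → σ j v ≠ w := by
  rw [rem_adj]
  refine and_congr_right fun _ => ?_
  constructor
  · intro h1 j hj; exact (h1 j hj).1
  · intro h1 j hj
    refine ⟨h1 j hj, fun h2 => h1 j hj ?_⟩
    rw [← h2, h.inv j hj]

/-- In a decomposition the number of classes covering `v` is the degree of `v`. -/
theorem IsDec.card_eq {G : SimpleGraph V} {I : Finset ℕ} {μ : ℕ → V → V} (h : IsDec G I μ) (v : V) :
    (I.filter fun i => μ i v ≠ v).card = nb G univ v := by
  unfold nb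
  refine Finset.card_bij (fun i _ => μ i v) ?_ ?_ ?_
  · intro i hi
    rw [mem_filter] at hi
    rw [mem_filter]
    exact ⟨mem_univ _, h.adj i hi.1 v hi.2⟩
  · intro i hi j hj hij
    rw [mem_filter] at hi hj
    by_contra hne
    exact hi.2 (h.dis i hi.1 j hj.1 hne v hij)
  · intro w hw
    rw [mem_filter] at hw
    obtain ⟨i, hi, hiw⟩ := h.cov v w hw.2
    refine ⟨i, ?_, hiw⟩
    rw [mem_filter]
    refine ⟨hi, ?_⟩
    rw [hiw]
    exact hw.2.ne'

theorem IsDec.card_fix {G : SimpleGraph V} {I : Finset ℕ} {μ : ℕ → V → V} (h : IsDec G I μ) (v : V) :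
    (I.filter fun i => μ i v = v).card + nb G univ v = I.card := by
  rw [← h.card_eq v]
  exact Finset.card_filter_add_card_filter_not (s := I) (fun i => μ i v = v)

/-- Double counting of the uncovered vertices of `S`. -/
theorem IsDec.sum_fx {G : SimpleGraph V} {I : Finset ℕ} {μ : ℕ → V → V} (h : IsDec G I μ)
    (S : Finset V) :
    ∑ i ∈ I, fx S (μ i) + ∑ v ∈ S, nb G univ v = S.card * I.card := by
  have h1 : ∑ i ∈ I, fx S (μ i) = ∑ v ∈ S, (I.filter fun i => μ i v = v).card := by
    unfold fx
    simp only [Finset.card_filter]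
    exact Finset.sum_comm
  rw [h1, ← Finset.sum_add_distrib, Finset.sum_congr rfl fun v _ => h.card_fix v]
  simp

theorem nb_ins_add_crs (G : SimpleGraph V) (A : Finset V) (v : V) :
    nb (ins G A) univ v + nb (crs G A) univ v = nb G univ v := by
  unfold nb
  rw [← Finset.card_union_of_disjoint]
  · congr 1
    ext w
    simp only [mem_union, mem_filter, mem_univ, true_and, ins_adj, crs_adj]
    tauto
  · rw [Finset.disjoint_left]
    intro w hw hw'
    simp only [mem_filter, mem_univ, true_and, ins_adj, crs_adj] at hw hw'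
    exact hw'.2 hw.2

theorem nb_ins_of_mem (G : SimpleGraph V) (A : Finset V) {v : V} (hv : v ∈ A) :
    nb (ins G A) univ v = nb G A v := by
  unfold nb
  congr 1
  ext w
  simp only [mem_filter, mem_univ, true_and, ins_adj]
  tauto

theorem nb_ins_of_notMem (G : SimpleGraph V) (A : Finset V) {v : V} (hv : v ∉ A) :
    nb (ins G A) univ v = nb G Aᶜ v := by
  unfold nb
  congr 1
  ext w
  simp only [mem_filter, mem_univ, true_and, ins_adj, mem_compl]
  tauto

theorem nb_add_compl (G : SimpleGraph V) (A : Finset V) (v : V) :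
    nb G A v + nb G Aᶜ v = nb G univ v := by
  unfold nb
  rw [← Finset.card_union_of_disjoint]
  · congr 1
    ext w
    simp only [mem_union, mem_filter, mem_univ, true_and, mem_compl]
    tauto
  · rw [Finset.disjoint_left]
    intro w hw hw'
    simp only [mem_filter, mem_compl] at hw hw'
    exact hw'.1 hw.1

/-- Removing `k` disjoint perfect matchings lowers every degree by exactly `k`. -/
theorem PF.nb_rem {G : SimpleGraph V} {k : ℕ} {σ : ℕ → V → V} (h : PF G k σ) (v : V) :
    nb (rem G σ k) univ v + k = nb G univ v := by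
  have h1 : (univ.filter fun w => G.Adj v w) =
      (univ.filter fun w => (rem G σ k).Adj v w) ∪ (range k).image (fun j => σ j v) := by
    ext w
    simp only [mem_union, mem_filter, mem_univ, true_and, mem_image, mem_range, h.rem_adj_iff]
    constructor
    · intro hw
      by_cases h2 : ∃ j, j < k ∧ σ j v = w
      · exact Or.inr h2
      · push Not at h2
        exact Or.inl ⟨hw, h2⟩
    · rintro (h2 | ⟨j, hj, rfl⟩)
      · exact h2.1
      · exact h.adj j hj v
  unfold nb
  rw [h1, Finset.card_union_of_disjoint]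
  · congr 1
    rw [Finset.card_image_of_injOn, card_range]
    intro i hi j hj hij
    simp only [coe_range, Set.mem_Iio] at hi hj
    by_contra hne
    exact h.dis i hi j hj hne v hij
  · rw [Finset.disjoint_left]
    intro w hw hw'
    simp only [mem_filter, mem_univ, true_and, mem_image, mem_range, h.rem_adj_iff] at hw hw'
    obtain ⟨j, hj, hjw⟩ := hw'
    exact hw.2 j hj hjw

/-- Concatenation of families of matchings. -/
def cat (k : ℕ) (σ τ : ℕ → V → V) : ℕ → V → V := fun j => if j < k then σ j else τ (j - k)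

theorem PF.cat {G : SimpleGraph V} {k l : ℕ} {σ τ : ℕ → V → V} (h : PF G k σ)
    (h' : PF (rem G σ k) l τ) : PF G (k + l) (cat k σ τ) := by
  have key : ∀ i, i < k → ∀ j, j < k + l → ¬ j < k → ∀ v, σ i v ≠ τ (j - k) v := by
    intro i hi j hj hjk v hv
    have := (h'.adj (j - k) (by omega) v).2 i hi
    exact this.1 hv
  constructor
  · intro i hi v
    unfold OneFac.cat
    split_ifs with h1
    · exact h.inv i h1 v
    · exact h'.inv (i - k) (by omega) v
  · intro i hi v
    unfold OneFac.cat
    split_ifs with h1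
    · exact h.adj i h1 v
    · exact (h'.adj (i - k) (by omega) v).1
  · intro i hi j hj hij v
    unfold OneFac.cat
    split_ifs with h1 h2 h2
    · exact h.dis i h1 j h2 hij v
    · exact key i h1 j hj h2 v
    · exact (key j h2 i hi h1 v).symm
    · exact h'.dis (i - k) (by omega) (j - k) (by omega) (by omega) v

/-- An involution preserving `S` has as many fixed points in `S` as `|S|`, modulo 2. -/
theorem fx_parity (S : Finset V) (μ : V → V) (hinv : ∀ v, μ (μ v) = v)
    (hS : ∀ v ∈ S, μ v ∈ S) : fx S μ % 2 = S.card % 2 := by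
  have h1 : (S.filter fun v => μ v = v).card + (S.filter fun v => ¬ μ v = v).card = S.card :=
    Finset.card_filter_add_card_filter_not (s := S) (fun v => μ v = v)
  have h2 : Even (S.filter fun v => ¬ μ v = v).card := by
    have h3 : ∑ _v ∈ (S.filter fun v => ¬ μ v = v), (1 : ZMod 2) = 0 := by
      refine Finset.sum_involution (fun v _ => μ v) ?_ ?_ ?_ ?_
      · intro v _; decide
      · intro v hv _
        exact (mem_filter.1 hv).2
      · intro v hv
        rw [mem_filter] at hv ⊢
        refine ⟨hS v hv.1, ?_⟩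
        rw [hinv]
        exact fun h => hv.2 h.symm
      · intro v _; exact hinv v
    rw [Finset.sum_const, nsmul_eq_mul, mul_one] at h3
    exact (ZMod.natCast_eq_zero_iff_even).1 h3
  unfold fx
  obtain ⟨m, hm⟩ := h2
  omega

end Pool.Agent.OneFac
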