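import Pool.Agent.Lib.OneFac.Defs

set_option autoImplicit false
set_option linter.unusedVariables false
set_option linter.unusedSectionVars false

/-! # Module HallHalf: perfect matching in a bipartite graph of minimum degree >= half

PROOF. Finset.all_card_le_biUnion_card_iff_exists_injective with ι = {v // v ∈ X}, t v = {w ∈ Y : H.Adj v w}:
for a nonempty set S of vertices of X: if 2 |S| <= |X| then |N(S)| >= |t v| >= |X|/2 >= |S| for any v ∈ S.
If 2 |S| > |X| then every w ∈ Y has a neighbour in S (nb H X w >= |X|/2, so |S| + nb > |X|), so N(S) = Y, |Y| = |X| >= |S|.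
So there is an injective f : X → Y with H.Adj v (f v), bijective because |X| = |Y|. τ v = f v for v ∈ X,
τ w = the preimage for w ∈ Y, τ v = v otherwise (X, Y disjoint). -/

open Classical Finset

namespace Pool.Agent.OneFac

variable {V : Type*} [Fintype V]

private theorem hall_inj (H : SimpleGraph V) (X Y : Finset V)
    (hc : X.card = Y.card) (hX : ∀ v ∈ X, X.card ≤ 2 * nb H Y v)
    (hY : ∀ w ∈ Y, X.card ≤ 2 * nb H X w) :
    ∃ f : {v // v ∈ X} → V, Function.Injective f ∧
      ∀ v, f v ∈ (Y.filter fun w => H.Adj v.1 w) := by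
  rw [← Finset.all_card_le_biUnion_card_iff_exists_injective]
  intro S
  by_cases hS : 2 * S.card ≤ X.card
  · rcases S.eq_empty_or_nonempty with rfl | ⟨v, hv⟩
    · simp
    · have h1 := hX v.1 v.2
      have h2 : (Y.filter fun w => H.Adj v.1 w).card ≤
          (S.biUnion fun v => Y.filter fun w => H.Adj v.1 w).card :=
        Finset.card_le_card (Finset.subset_biUnion_of_mem
          (fun v : {v // v ∈ X} => Y.filter fun w => H.Adj v.1 w) hv)
      have h3 : (Y.filter fun w => H.Adj v.1 w).card = nb H Y v.1 := rfl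
      omega
  · have hle : S.card ≤ X.card := by
      have := Finset.card_le_univ S
      rwa [Fintype.card_coe] at this
    have hsub : Y ⊆ S.biUnion fun v => Y.filter fun w => H.Adj v.1 w := by
      intro w hw
      have h1 := hY w hw
      by_contra hcon
      have h2 : Disjoint (S.map (Function.Embedding.subtype _))
          (X.filter fun v => H.Adj w v) := by
        rw [Finset.disjoint_left]
        intro v hv hv'
        rw [mem_map] at hv
        obtain ⟨u, hu, rfl⟩ := hv
        exact hcon (mem_biUnion.2 ⟨u, hu, mem_filter.2 ⟨hw, (mem_filter.1 hv').2.symm⟩⟩)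
      have h3 := Finset.card_union_of_disjoint h2
      have h4 : (S.map (Function.Embedding.subtype _) ∪
          X.filter fun v => H.Adj w v).card ≤ X.card := by
        refine Finset.card_le_card (Finset.union_subset ?_ (Finset.filter_subset _ _))
        intro v hv
        rw [mem_map] at hv
        obtain ⟨u, hu, rfl⟩ := hv
        exact u.2
      rw [h3, Finset.card_map] at h4
      unfold nb at h1
      omega
    exact hle.trans (hc.le.trans (Finset.card_le_card hsub))

theorem hall_half (H : SimpleGraph V) (X Y : Finset V) (hXY : Disjoint X Y)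
    (hc : X.card = Y.card) (hX : ∀ v ∈ X, X.card ≤ 2 * nb H Y v)
    (hY : ∀ w ∈ Y, X.card ≤ 2 * nb H X w) :
    ∃ τ : V → V, (∀ v, τ (τ v) = v) ∧ (∀ v ∈ X, τ v ∈ Y ∧ H.Adj v (τ v)) ∧
      (∀ w ∈ Y, τ w ∈ X ∧ H.Adj w (τ w)) ∧ (∀ v, v ∉ X → v ∉ Y → τ v = v) := by
  obtain ⟨f, hfinj, hf⟩ := hall_inj H X Y hc hX hY
  have hfY : ∀ v, f v ∈ Y := fun v => (mem_filter.1 (hf v)).1
  have hfA : ∀ v, H.Adj v.1 (f v) := fun v => (mem_filter.1 (hf v)).2
  have himg : (univ.image f) = Y := by
    refine Finset.eq_of_subset_of_card_le ?_ ?_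
    · intro w hw
      obtain ⟨v, -, rfl⟩ := mem_image.1 hw
      exact hfY v
    · rw [Finset.card_image_of_injective _ hfinj, Finset.card_univ, Fintype.card_coe, hc]
  have hsurj : ∀ w ∈ Y, ∃ v, f v = w := by
    intro w hw
    rw [← himg] at hw
    obtain ⟨v, -, hv⟩ := mem_image.1 hw
    exact ⟨v, hv⟩
  have hdis : ∀ v, v ∈ X → v ∉ Y := fun v h h' => Finset.disjoint_left.1 hXY h h'
  let τ : V → V := fun v =>
    if h : v ∈ X then f ⟨v, h⟩ else if h' : ∃ u, f u = v then (h'.choose).1 else v
  have hτX : ∀ v (h : v ∈ X), τ v = f ⟨v, h⟩ := fun v h => dif_pos h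
  have hτY : ∀ u, τ (f u) = u.1 := by
    intro u
    have h1 : f u ∉ X := fun h => hdis _ h (hfY u)
    have h2 : ∃ u', f u' = f u := ⟨u, rfl⟩
    have h3 : τ (f u) = (h2.choose).1 := by
      show (if h : f u ∈ X then f ⟨f u, h⟩ else
        if h' : ∃ u', f u' = f u then (h'.choose).1 else f u) = _
      rw [dif_neg h1, dif_pos h2]
    rw [h3, hfinj h2.choose_spec]
  have hτN : ∀ v, v ∉ X → v ∉ Y → τ v = v := by
    intro v h1 h2
    show (if h : v ∈ X then f ⟨v, h⟩ else
        if h' : ∃ u', f u' = v then (h'.choose).1 else v) = _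
    rw [dif_neg h1, dif_neg]
    rintro ⟨u, rfl⟩
    exact h2 (hfY u)
  refine ⟨τ, ?_, ?_, ?_, hτN⟩
  · intro v
    by_cases h1 : v ∈ X
    · rw [hτX v h1, hτY]
    · by_cases h2 : v ∈ Y
      · obtain ⟨u, rfl⟩ := hsurj v h2
        rw [hτY, hτX u.1 u.2]
      · rw [hτN v h1 h2, hτN v h1 h2]
  · intro v hv
    rw [hτX v hv]
    exact ⟨hfY _, hfA ⟨v, hv⟩⟩
  · intro w hw
    obtain ⟨u, rfl⟩ := hsurj w hw
    rw [hτY]
    exact ⟨u.2, (hfA u).symm⟩

end Pool.Agent.OneFac
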