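import Pool.Agent.Lib.OneFac.Defs

set_option autoImplicit false
set_option linter.unusedVariables false
set_option linter.unusedSectionVars false

/-! # Module Halving: a bisection in which every degree is halved up to t

PROOF (signs on N pairs). N = 0: V is empty, A = ∅. N >= 1: let e : V ≃ Fin N × Bool (Fintype.equivOfCardEq).
For ε : Fin N → Bool put A_ε = {v : (e v).2 = ε (e v).1}; |A_ε| = N (bijection p ↦ e.symm (p, ε p)) and
A_ε ᶜ = {v : (e v).2 = !ε (e v).1}. For v let c v p = [G.Adj v (e.symm (p, true))] - [G.Adj v (e.symm (p, false))]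
∈ {-1, 0, 1} (real), sgn true = 1, sgn false = -1; then
X_v(ε) := nb G A_ε v - nb G A_ε ᶜ v = Σ_p c v p * sgn (ε p) (split the count over p: the pair p contributes
[adj v (p, ε p)] - [adj v (p, !ε p)]). For real λ:
Σ_ε exp(λ X_v(ε)) = Π_p (exp(λ c v p) + exp(-λ c v p)) (Finset.prod_univ_sum / Fintype.piFinset, or
Finset.prod_sum; also Fintype.sum_pow-like: ∏ p, ∑ b : Bool, f p b = ∑ ε : Fin N → Bool, ∏ p, f p (ε p),
which is Finset.prod_univ_sum) = Π_p 2 cosh(λ c v p) <= (2 exp(λ^2/2))^N (Real.cosh_le_exp_half_sq, |c| <= 1).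
Suppose no ε works: for every ε there is v with |X_v(ε)| >= t + 1. Then
Σ_v (exp(λ X_v) + exp(-λ X_v)) >= exp(λ (t + 1)) > exp(λ t) for λ = t/N >= 0 if t > 0 (for t = 0 the hypothesis
ht says 2 N log(4 N) <= 0, false). Summing over the 2^N choices: 2^N exp(λ t) < 2 N * 2 * 2^N exp(λ^2 N/2), so
exp(t^2/(2N)) < 4 N, t^2 < 2 N log(4 N): contradiction to ht. -/

open Classical Finset

namespace Pool.Agent.OneFac

variable {V : Type*} [Fintype V]

theorem halving (G : SimpleGraph V) (N t : ℕ) (hV : Fintype.card V = 2 * N)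
    (ht : 2 * (N : ℝ) * Real.log (4 * N) ≤ (t : ℝ) ^ 2) :
    ∃ A : Finset V, A.card = N ∧ Aᶜ.card = N ∧
      ∀ v, nb G A v ≤ nb G Aᶜ v + t ∧ nb G Aᶜ v ≤ nb G A v + t := by
  rcases Nat.eq_zero_or_pos N with h0 | hN
  · subst h0
    have hem : IsEmpty V := Fintype.card_eq_zero_iff.1 (by simpa using hV)
    refine ⟨∅, rfl, ?_, fun v => hem.elim v⟩
    rw [card_compl, hV]
    rfl
  have e : V ≃ Fin N × Bool := Fintype.equivOfCardEq (by
    rw [hV, Fintype.card_prod, Fintype.card_fin, Fintype.card_bool, mul_comm])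
  let A : (Fin N → Bool) → Finset V := fun ε => univ.filter fun v => (e v).2 = ε (e v).1
  let emb : (Fin N → Bool) → (Fin N ↪ V) := fun ε => ⟨fun p => e.symm (p, ε p), fun p q h => by
    have h1 := e.symm.injective h
    exact (Prod.ext_iff.1 h1).1⟩
  have hA : ∀ ε, A ε = univ.map (emb ε) := by
    intro ε
    ext v
    simp only [A, mem_filter, mem_univ, true_and, mem_map]
    constructor
    · intro h
      refine ⟨(e v).1, ?_⟩
      show e.symm ((e v).1, ε (e v).1) = v
      rw [← h]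
      exact e.symm_apply_apply v
    · rintro ⟨p, hp⟩
      have h1 : v = e.symm (p, ε p) := hp.symm
      rw [h1, Equiv.apply_symm_apply]
  have hcard : ∀ ε, (A ε).card = N := fun ε => by
    rw [hA, card_map, card_univ, Fintype.card_fin]
  have hcompl : ∀ ε, (A ε)ᶜ = A (fun p => !ε p) := by
    intro ε
    ext v
    simp only [A, mem_compl, mem_filter, mem_univ, true_and]
    cases (e v).2 <;> cases ε (e v).1 <;> simp
  let a : V → Fin N → Bool → ℝ := fun v p b => if G.Adj v (e.symm (p, b)) then 1 else 0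
  have ha : ∀ v p b, a v p b = 0 ∨ a v p b = 1 := by
    intro v p b
    show (if G.Adj v (e.symm (p, b)) then (1 : ℝ) else 0) = 0 ∨
      (if G.Adj v (e.symm (p, b)) then (1 : ℝ) else 0) = 1
    by_cases h : G.Adj v (e.symm (p, b))
    · right
      rw [if_pos h]
    · left
      rw [if_neg h]
  have hnb : ∀ ε v, (nb G (A ε) v : ℝ) = ∑ p, a v p (ε p) := by
    intro ε v
    unfold nb
    rw [card_filter, hA, sum_map, Nat.cast_sum]
    refine Finset.sum_congr rfl fun p _ => ?_
    show ((if G.Adj v (e.symm (p, ε p)) then 1 else 0 : ℕ) : ℝ) =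
      if G.Adj v (e.symm (p, ε p)) then (1 : ℝ) else 0
    by_cases h : G.Adj v (e.symm (p, ε p))
    · rw [if_pos h, if_pos h, Nat.cast_one]
    · rw [if_neg h, if_neg h, Nat.cast_zero]
  have hX : ∀ ε v, (nb G (A ε) v : ℝ) - nb G (A ε)ᶜ v = ∑ p, (a v p (ε p) - a v p (!ε p)) := by
    intro ε v
    rw [hcompl, hnb, hnb (fun p => !ε p), ← Finset.sum_sub_distrib]
  have hexp : ∀ (lam : ℝ) (v : V), ∑ ε : Fin N → Bool,
      Real.exp (lam * ((nb G (A ε) v : ℝ) - nb G (A ε)ᶜ v)) ≤
      (2 * Real.exp (lam ^ 2 / 2)) ^ N := by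
    intro lam v
    have h1 : ∑ ε : Fin N → Bool, Real.exp (lam * ((nb G (A ε) v : ℝ) - nb G (A ε)ᶜ v)) =
        ∏ p : Fin N, ∑ b : Bool, Real.exp (lam * (a v p b - a v p (!b))) := by
      rw [Finset.prod_univ_sum, Fintype.piFinset_univ]
      refine Finset.sum_congr rfl fun ε _ => ?_
      rw [hX, Finset.mul_sum, Real.exp_sum]
    rw [h1]
    have h2 : ∀ p ∈ (univ : Finset (Fin N)),
        ∑ b : Bool, Real.exp (lam * (a v p b - a v p (!b))) ≤ 2 * Real.exp (lam ^ 2 / 2) := by
      intro p _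
      rw [Fintype.sum_bool]
      have h3 : Real.exp (lam * (a v p true - a v p (!true))) +
          Real.exp (lam * (a v p false - a v p (!false))) =
          2 * Real.cosh (lam * (a v p true - a v p false)) := by
        rw [Real.cosh_eq]
        have h4 : lam * (a v p false - a v p (!false)) =
            -(lam * (a v p true - a v p false)) := by
          show lam * (a v p false - a v p true) = _
          ring
        rw [h4]
        show Real.exp (lam * (a v p true - a v p false)) + _ = _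
        ring
      rw [h3]
      refine mul_le_mul_of_nonneg_left ((Real.cosh_le_exp_half_sq _).trans ?_) zero_le_two
      apply Real.exp_le_exp.2
      have h5 : (a v p true - a v p false) ^ 2 ≤ 1 := by
        rcases ha v p true with h6 | h6 <;> rcases ha v p false with h7 | h7 <;>
          rw [h6, h7] <;> norm_num
      rw [mul_pow]
      have h8 : lam ^ 2 * (a v p true - a v p false) ^ 2 ≤ lam ^ 2 * 1 :=
        mul_le_mul_of_nonneg_left h5 (sq_nonneg _)
      linarith
    calc ∏ p : Fin N, ∑ b : Bool, Real.exp (lam * (a v p b - a v p (!b)))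
        ≤ ∏ _p : Fin N, 2 * Real.exp (lam ^ 2 / 2) :=
          Finset.prod_le_prod (fun p _ => Finset.sum_nonneg fun b _ => (Real.exp_pos _).le) h2
      _ = (2 * Real.exp (lam ^ 2 / 2)) ^ N := by
          rw [Finset.prod_const, card_univ, Fintype.card_fin]
  by_contra hcon
  have hbad : ∀ ε : Fin N → Bool, ∃ v, (t : ℝ) ≤ |(nb G (A ε) v : ℝ) - nb G (A ε)ᶜ v| := by
    intro ε
    by_contra hno
    apply hcon
    refine ⟨A ε, hcard ε, ?_, fun v => ?_⟩
    · rw [hcompl]
      exact hcard (fun p => !ε p)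
    · have h1 : |(nb G (A ε) v : ℝ) - nb G (A ε)ᶜ v| < t := by
        by_contra h2
        exact hno ⟨v, not_lt.1 h2⟩
      rw [abs_lt] at h1
      have h2 : (nb G (A ε) v : ℝ) < nb G (A ε)ᶜ v + t := by linarith
      have h3 : (nb G (A ε)ᶜ v : ℝ) < nb G (A ε) v + t := by linarith
      exact ⟨by exact_mod_cast h2.le, by exact_mod_cast h3.le⟩
  have hNr : (0 : ℝ) < N := by exact_mod_cast hN
  set lam : ℝ := t / N with hlam
  have hlam0 : 0 ≤ lam := div_nonneg (Nat.cast_nonneg _) hNr.le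
  -- lower bound
  have hlow : ∀ ε : Fin N → Bool, Real.exp (lam * t) <
      ∑ v : V, (Real.exp (lam * ((nb G (A ε) v : ℝ) - nb G (A ε)ᶜ v)) +
        Real.exp (-lam * ((nb G (A ε) v : ℝ) - nb G (A ε)ᶜ v))) := by
    intro ε
    obtain ⟨v, hv⟩ := hbad ε
    have h1 : Real.exp (lam * t) < Real.exp (lam * ((nb G (A ε) v : ℝ) - nb G (A ε)ᶜ v)) +
        Real.exp (-lam * ((nb G (A ε) v : ℝ) - nb G (A ε)ᶜ v)) := by
      have p1 := Real.exp_pos (lam * ((nb G (A ε) v : ℝ) - nb G (A ε)ᶜ v))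
      have p2 := Real.exp_pos (-lam * ((nb G (A ε) v : ℝ) - nb G (A ε)ᶜ v))
      rcases le_abs.1 hv with h2 | h2
      · have h3 : Real.exp (lam * t) ≤
            Real.exp (lam * ((nb G (A ε) v : ℝ) - nb G (A ε)ᶜ v)) :=
          Real.exp_le_exp.2 (mul_le_mul_of_nonneg_left h2 hlam0)
        linarith
      · have h3 : Real.exp (lam * t) ≤
            Real.exp (-lam * ((nb G (A ε) v : ℝ) - nb G (A ε)ᶜ v)) := by
          refine Real.exp_le_exp.2 ?_
          have h4 := mul_le_mul_of_nonneg_left h2 hlam0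
          linarith
        linarith
    refine h1.trans_le (Finset.single_le_sum
      (f := fun v => Real.exp (lam * ((nb G (A ε) v : ℝ) - nb G (A ε)ᶜ v)) +
        Real.exp (-lam * ((nb G (A ε) v : ℝ) - nb G (A ε)ᶜ v)))
      (fun w _ => add_nonneg (Real.exp_pos _).le (Real.exp_pos _).le) (mem_univ v))
  have hsum : ∑ _ε : Fin N → Bool, Real.exp (lam * t) <
      ∑ ε : Fin N → Bool, ∑ v : V, (Real.exp (lam * ((nb G (A ε) v : ℝ) - nb G (A ε)ᶜ v)) +
        Real.exp (-lam * ((nb G (A ε) v : ℝ) - nb G (A ε)ᶜ v))) :=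
    Finset.sum_lt_sum_of_nonempty univ_nonempty fun ε _ => hlow ε
  rw [Finset.sum_const, card_univ, Fintype.card_fun, Fintype.card_bool, Fintype.card_fin,
    nsmul_eq_mul, Finset.sum_comm] at hsum
  have hup : ∑ v : V, ∑ ε : Fin N → Bool,
      (Real.exp (lam * ((nb G (A ε) v : ℝ) - nb G (A ε)ᶜ v)) +
        Real.exp (-lam * ((nb G (A ε) v : ℝ) - nb G (A ε)ᶜ v))) ≤
      (2 * N : ℝ) * (2 * (2 * Real.exp (lam ^ 2 / 2)) ^ N) := by
    have h1 : ∀ v ∈ (univ : Finset V), ∑ ε : Fin N → Bool,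
        (Real.exp (lam * ((nb G (A ε) v : ℝ) - nb G (A ε)ᶜ v)) +
          Real.exp (-lam * ((nb G (A ε) v : ℝ) - nb G (A ε)ᶜ v))) ≤
        2 * (2 * Real.exp (lam ^ 2 / 2)) ^ N := by
      intro v _
      rw [Finset.sum_add_distrib]
      have h2 := hexp lam v
      have h3 := hexp (-lam) v
      rw [neg_sq] at h3
      linarith
    refine (Finset.sum_le_card_nsmul univ _ _ h1).trans (le_of_eq ?_)
    rw [card_univ, hV, nsmul_eq_mul]
    push_cast
    ring
  have hfin := hsum.trans_le hup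
  rw [mul_pow] at hfin
  push_cast at hfin
  have hpow : (0 : ℝ) < 2 ^ N := by positivity
  have h1 : Real.exp (lam * t) < 4 * N * Real.exp (lam ^ 2 / 2) ^ N := by
    by_contra h2
    have h3 := mul_le_mul_of_nonneg_left (not_lt.1 h2) hpow.le
    have h4 : (2 : ℝ) ^ N * (4 * N * Real.exp (lam ^ 2 / 2) ^ N) =
        2 * N * (2 * (2 ^ N * Real.exp (lam ^ 2 / 2) ^ N)) := by ring
    rw [h4] at h3
    linarith
  rw [← Real.exp_nat_mul] at h1
  have h2 : lam * t = (t : ℝ) ^ 2 / N := by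
    rw [hlam]
    field_simp
  have h3 : (N : ℝ) * (lam ^ 2 / 2) = (t : ℝ) ^ 2 / (2 * N) := by
    rw [hlam]
    field_simp
  have h4 : (t : ℝ) ^ 2 / N = (t : ℝ) ^ 2 / (2 * N) + (t : ℝ) ^ 2 / (2 * N) := by
    field_simp
    ring
  rw [h2, h3, h4, Real.exp_add] at h1
  have h5 : Real.exp ((t : ℝ) ^ 2 / (2 * N)) < 4 * N :=
    lt_of_mul_lt_mul_right h1 (Real.exp_pos _).le
  have h6 : Real.log (4 * N) ≤ (t : ℝ) ^ 2 / (2 * N) := by
    rw [le_div_iff₀ (by positivity)]
    linarith
  have h7 : (4 * N : ℝ) ≤ Real.exp ((t : ℝ) ^ 2 / (2 * N)) := by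
    have h8 := Real.exp_le_exp.2 h6
    rwa [Real.exp_log (by positivity)] at h8
  linarith

end Pool.Agent.OneFac
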