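import Pool.Agent.Lib.OneFac.Defs

set_option autoImplicit false
set_option linter.unusedVariables false
set_option linter.unusedSectionVars false

/-! # Module KonReg: König: an r-regular bipartite graph (all edges between A and Aᶜ) has r disjoint perfect matchings

PROOF. Induction on r. r = 0: nothing. r + 1: Hall for the family v ↦ neighbours of v (all v : V): for S ⊆ V,
|S| (r + 1) = edges out of S <= |N(S)| (r + 1). So there is an injective f : V → V with H.Adj v (f v), bijective
since V is finite, and τ v = f v (v ∈ A), f⁻¹ v (v ∉ A) is a perfect matching. H' = rem H (fun _ => τ) 1 is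
r-regular (PF.nb_rem), bipartite; by induction PF H' r σ'; cat 1 (fun _ => τ) σ' works (PF.cat; 1 + r = r + 1). -/

open Classical Finset

namespace Pool.Agent.OneFac

variable {V : Type*} [Fintype V]

theorem reg_hall (H : SimpleGraph V) (r : ℕ) (hreg : ∀ v, nb H univ v = r + 1) :
    ∃ f : V → V, Function.Injective f ∧ ∀ v, H.Adj v (f v) := by
  have h1 : ∀ S : Finset V, S.card ≤ (S.biUnion fun v => univ.filter fun w => H.Adj v w).card := by
    intro S
    set T : Finset V := S.biUnion fun v => univ.filter fun w => H.Adj v w with hT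
    have hreg' : ∀ v, (univ.filter fun w => H.Adj v w).card = r + 1 := hreg
    have h2 : ∑ v ∈ S, (univ.filter fun w => H.Adj v w).card = S.card * (r + 1) := by
      rw [Finset.sum_congr rfl (fun v _ => hreg' v), Finset.sum_const, smul_eq_mul]
    have h3 : ∑ w ∈ T, (univ.filter fun v => H.Adj w v).card = T.card * (r + 1) := by
      rw [Finset.sum_congr rfl (fun v _ => hreg' v), Finset.sum_const, smul_eq_mul]
    have h4 : ∑ v ∈ S, (univ.filter fun w => H.Adj v w).card ≤
        ∑ w ∈ T, (univ.filter fun v => H.Adj w v).card := by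
      have h5 : ∀ v ∈ S, (univ.filter fun w => H.Adj v w).card =
          ∑ w ∈ T, if H.Adj v w then 1 else 0 := by
        intro v hv
        rw [← Finset.card_filter]
        congr 1
        ext w
        simp only [mem_filter, mem_univ, true_and]
        constructor
        · intro h
          exact ⟨mem_biUnion.2 ⟨v, hv, mem_filter.2 ⟨mem_univ _, h⟩⟩, h⟩
        · intro h
          exact h.2
      rw [Finset.sum_congr rfl h5, Finset.sum_comm]
      refine Finset.sum_le_sum ?_
      intro w hw
      rw [← Finset.card_filter]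
      refine Finset.card_le_card ?_
      intro v hv
      rw [mem_filter] at hv ⊢
      exact ⟨mem_univ _, hv.2.symm⟩
    rw [h2, h3] at h4
    exact Nat.le_of_mul_le_mul_right h4 (Nat.succ_pos r)
  obtain ⟨f, hf, hf'⟩ := (Finset.all_card_le_biUnion_card_iff_exists_injective
    (fun v : V => univ.filter fun w => H.Adj v w)).1 h1
  exact ⟨f, hf, fun v => (mem_filter.1 (hf' v)).2⟩

theorem reg_match (H : SimpleGraph V) (A : Finset V) (r : ℕ)
    (hH : ∀ v w, H.Adj v w → ¬ (v ∈ A ↔ w ∈ A)) (hreg : ∀ v, nb H univ v = r + 1) :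
    ∃ τ : V → V, PF H 1 (fun _ => τ) := by
  obtain ⟨f, hf, hadj⟩ := reg_hall H r hreg
  have hsurj : Function.Surjective f := Finite.surjective_of_injective hf
  choose g hg using hsurj
  have hgf : ∀ v, g (f v) = v := fun v => hf (hg (f v))
  have hA : ∀ v ∈ A, f v ∉ A := by
    intro v hv h
    exact hH v (f v) (hadj v) ⟨fun _ => h, fun _ => hv⟩
  have hB : ∀ v, v ∉ A → g v ∈ A := by
    intro v hv
    by_contra h
    have := hH (g v) (f (g v)) (hadj (g v))
    rw [hg v] at this
    exact this ⟨fun h' => absurd h' h, fun h' => absurd h' hv⟩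
  refine ⟨fun v => if v ∈ A then f v else g v, ?_, ?_, ?_⟩
  · intro i hi v
    by_cases hv : v ∈ A
    · simp only [if_pos hv, if_neg (hA v hv)]
      exact hgf v
    · simp only [if_neg hv, if_pos (hB v hv)]
      exact hg v
  · intro i hi v
    by_cases hv : v ∈ A
    · simp only [if_pos hv]
      exact hadj v
    · simp only [if_neg hv]
      have := hadj (g v)
      rw [hg v] at this
      exact this.symm
  · intro i hi j hj hij
    omega

theorem konig_reg (H : SimpleGraph V) (A : Finset V) (r : ℕ)
    (hH : ∀ v w, H.Adj v w → ¬ (v ∈ A ↔ w ∈ A)) (hreg : ∀ v, nb H univ v = r) :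
    ∃ σ : ℕ → V → V, PF H r σ := by
  induction r generalizing H with
  | zero =>
    exact ⟨fun _ v => v, fun i hi => absurd hi (Nat.not_lt_zero i),
      fun i hi => absurd hi (Nat.not_lt_zero i), fun i hi => absurd hi (Nat.not_lt_zero i)⟩
  | succ r ih =>
    obtain ⟨τ, hτ⟩ := reg_match H A r hH hreg
    obtain ⟨σ, hσ⟩ := ih (rem H (fun _ => τ) 1) (fun v w h => hH v w h.1) (fun v => by
      have := hτ.nb_rem v
      rw [hreg v] at this
      omega)
    have := hτ.cat hσ
    rw [Nat.add_comm 1 r] at this
    exact ⟨_, this⟩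

end Pool.Agent.OneFac
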