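import Pool.Agent.Lib.OneFac.Defs

set_option autoImplicit false
set_option linter.unusedVariables false
set_option linter.unusedSectionVars false

/-! # Module LineG: d disjoint perfect matchings of a d-regular graph give a proper d-edge-colouring

PROOF. For every v the map j ↦ σ j v from range d to the neighbours of v is injective (PF.dis) and both sets
have d elements, so it is onto: every edge v w has some j < d with σ j v = w, hence also σ j w = v; it is
unique (PF.dis). Colour of the edge e = s(v, w): this j (choose; well defined since it works from both ends: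
state: for e ∈ G.edgeSet there is j : Fin d such that ∀ v ∈ e, σ j v ∈ e ∧ σ j v ≠ v). If e ≠ e' share v and have the same
colour j then e = s(v, σ j v) = e'. Use SimpleGraph.Coloring.mk (adjacency in G.lineGraph: e ≠ e' and the two
edges intersect; see SimpleGraph.lineGraph_adj_iff_exists or the definition). -/

open Classical Finset

namespace Pool.Agent.OneFac

/-- every edge lies in one of the matchings -/
private theorem exists_class {V : Type*} [Fintype V] (G : SimpleGraph V) (d : ℕ)
    (hreg : ∀ v, nb G univ v = d) (σ : ℕ → V → V) (h : PF G d σ) {v w : V} (hvw : G.Adj v w) :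
    ∃ j, j < d ∧ σ j v = w := by
  have h1 : (range d).image (fun j => σ j v) = univ.filter fun w => G.Adj v w := by
    apply Finset.eq_of_subset_of_card_le
    · intro x hx
      rw [mem_image] at hx
      obtain ⟨j, hj, rfl⟩ := hx
      rw [mem_filter]
      exact ⟨mem_univ _, h.adj j (mem_range.1 hj) v⟩
    · rw [Finset.card_image_of_injOn, card_range]
      · exact le_of_eq (hreg v)
      · intro i hi j hj hij
        simp only [coe_range, Set.mem_Iio] at hi hj
        by_contra hne
        exact h.dis i hi j hj hne v hij
  have h2 : w ∈ (range d).image (fun j => σ j v) := by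
    rw [h1, mem_filter]
    exact ⟨mem_univ _, hvw⟩
  rw [mem_image] at h2
  obtain ⟨j, hj, hjw⟩ := h2
  exact ⟨j, mem_range.1 hj, hjw⟩

/-- the colour of an edge -/
private theorem exists_colour {V : Type*} [Fintype V] (G : SimpleGraph V) (d : ℕ)
    (hreg : ∀ v, nb G univ v = d) (σ : ℕ → V → V) (h : PF G d σ) (e : G.edgeSet) :
    ∃ j : Fin d, ∀ v ∈ (e : Sym2 V), (e : Sym2 V) = s(v, σ j v) := by
  obtain ⟨e, he⟩ := e
  induction e with
  | _ v w =>
    have hvw : G.Adj v w := he
    obtain ⟨j, hj, hjw⟩ := exists_class G d hreg σ h hvw
    refine ⟨⟨j, hj⟩, fun x hx => ?_⟩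
    change s(v, w) = s(x, σ j x)
    rcases Sym2.mem_iff.1 hx with rfl | rfl
    · rw [hjw]
    · have h1 : σ j x = v := by
        rw [← hjw]
        exact h.inv j hj v
      rw [h1]
      exact Sym2.eq_swap

theorem lineGraph_colorable {V : Type*} [Fintype V] (G : SimpleGraph V) (d : ℕ)
    (hreg : ∀ v, nb G univ v = d) (σ : ℕ → V → V) (h : PF G d σ) : G.lineGraph.Colorable d := by
  choose c hc using exists_colour G d hreg σ h
  refine ⟨SimpleGraph.Coloring.mk c ?_⟩
  intro e e' hee' hcc
  rw [SimpleGraph.lineGraph_adj_iff_exists] at hee'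
  obtain ⟨hne, v, hv, hv'⟩ := hee'
  apply hne
  apply Subtype.ext
  rw [hc e v hv, hc e' v hv', hcc]

end Pool.Agent.OneFac
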