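import Pool.Agent.Lib.OneFac.Compl

set_option autoImplicit false
set_option linter.unusedVariables false
set_option linter.unusedSectionVars false

/-! # Module Phase1: all classes of the inside graph are completed one after the other

PROOF. us i v := #{j < i : μ j v ≠ v ∧ σ j v ≠ μ j v} (usage). By induction on i <= k there is σ with: (P1) PF G i σ;
(P2) for j < i: σ j v = μ j v or (crs G A).Adj v (σ j v); (P3) us i v <= D; (P4) Σ_{v ∈ A} us i v <= Σ_{j < i} (fx Aᶜ (μ j) + 1)
and the same with A, Aᶜ exchanged. Step: H = crs (rem G σ i) A. DEGREE of H at v: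
nb (crs G A) univ v = d - nb (ins G A) univ v (nb_ins_add_crs), #{j < k : μ j v = v} = k - nb (ins G A) univ v
(IsDec.card_fix), and the crs G A-neighbours of v which are not H-neighbours are the σ j v (j < i) which lie across,
at most #{j < i : σ j v ≠ μ j v} <= #{j < i : μ j v = v} + us i v (if σ j v = μ j v then σ j v is not across: μ j v is
inside, adj of hμ, or μ j v = v which is impossible for σ j v). So nb H univ v + k + us i v >= d, i.e.
nb H univ v >= d - k - D. Q = {v : D <= us i v}: D |Q ∩ A| <= Σ_{v ∈ A} us i v <= S < (q + 1) D so |Q ∩ A| <= q, the same for Aᶜ.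
completion (μ := μ i; μ i preserves A since its edges are edges of ins G A) gives σ i (Function.update σ i or
fun j => if j = i then ... else σ j). New edges are unused: an edge of H is in rem G σ i; an inside edge v (μ i v) = v (σ i v):
if σ j v = μ i v for j < i, then it is not across, so σ j v = μ j v, so μ j v = μ i v and by hμ.dis μ j v = v, impossible.
(So (PF G (i+1)).) us (i+1) v = us i v + 1 only if v ∉ Q, i.e. us i v < D. (P4) by the last two claims of completion.
END (i = k): a neighbour w of v in ins (rem G σ k) A: G-adjacent, inside, so μ j v = w for some j < k (cov), and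
σ j v ≠ w = μ j v; w ↦ j injective; so nb (ins (rem G σ k) A) univ v <= us k v <= D and the sums over A, Aᶜ are
<= Σ_{j < k} (fx .. + 1) <= S. -/

open Classical Finset

namespace Pool.Agent.OneFac

variable {V : Type*} [Fintype V]

/-- number of classes dropped at `v` -/
private noncomputable def us (μ σ : ℕ → V → V) (i : ℕ) (v : V) : ℕ :=
  ((range i).filter fun j => μ j v ≠ v ∧ σ j v ≠ μ j v).card

private lemma us_succ (μ σ : ℕ → V → V) (τ : V → V) (i : ℕ) (v : V) :
    us μ (fun j => if j = i then τ else σ j) (i + 1) v =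
      us μ σ i v + (if μ i v ≠ v ∧ τ v ≠ μ i v then 1 else 0) := by
  unfold us
  rw [Finset.range_add_one, Finset.filter_insert]
  have h1 : ((range i).filter fun j => μ j v ≠ v ∧ (if j = i then τ else σ j) v ≠ μ j v) =
      ((range i).filter fun j => μ j v ≠ v ∧ σ j v ≠ μ j v) := by
    apply Finset.filter_congr
    intro j hj
    rw [mem_range] at hj
    rw [if_neg hj.ne]
  simp only [if_true]
  rw [h1]
  split_ifs with h2
  · rw [Finset.card_insert_of_notMem]
    rw [mem_filter, mem_range]
    exact fun h => absurd h.1 (lt_irrefl i)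
  · rfl

/-- the invariant of the iteration -/
private structure Ph (G : SimpleGraph V) (A : Finset V) (μ : ℕ → V → V) (D i : ℕ)
    (σ : ℕ → V → V) : Prop where
  pf : PF G i σ
  or : ∀ j, j < i → ∀ v, σ j v = μ j v ∨ (crs G A).Adj v (σ j v)
  le : ∀ v, us μ σ i v ≤ D
  sA : ∑ v ∈ A, us μ σ i v ≤ ∑ j ∈ range i, (fx Aᶜ (μ j) + 1)
  sB : ∑ v ∈ Aᶜ, us μ σ i v ≤ ∑ j ∈ range i, (fx A (μ j) + 1)

private lemma deg_bound {G : SimpleGraph V} {A : Finset V} {μ σ : ℕ → V → V} {D i k d : ℕ}
    (hik : i ≤ k) (hμ : IsDec (ins G A) (range k) μ) (h : Ph G A μ D i σ) (v : V)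
    (hreg : nb G univ v = d) : d ≤ nb (crs (rem G σ i) A) univ v + k + D := by
  have h1 := hμ.card_fix v
  rw [card_range] at h1
  have h2 := nb_ins_add_crs G A v
  have h3 : ((range i).filter fun j => μ j v = v).card ≤
      ((range k).filter fun j => μ j v = v).card :=
    Finset.card_le_card (Finset.filter_subset_filter _ (Finset.range_subset_range.2 hik))
  have h4 := h.le v
  have h5 : nb (crs G A) univ v ≤ nb (crs (rem G σ i) A) univ v +
      (((range i).filter fun j => μ j v = v).card + us μ σ i v) := by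
    have hsub : (univ.filter fun w => (crs G A).Adj v w) ⊆
        (univ.filter fun w => (crs (rem G σ i) A).Adj v w) ∪
          (((range i).filter fun j => μ j v = v) ∪
            ((range i).filter fun j => μ j v ≠ v ∧ σ j v ≠ μ j v)).image fun j => σ j v := by
      intro w hw
      rw [mem_filter] at hw
      have hw1 := hw.2
      rw [crs_adj] at hw1
      rw [mem_union, mem_filter, mem_image]
      by_cases hr : (rem G σ i).Adj v w
      · left
        exact ⟨mem_univ _, crs_adj.2 ⟨hr, hw1.2⟩⟩
      · right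
        rw [h.pf.rem_adj_iff] at hr
        push Not at hr
        obtain ⟨j, hj, hjw⟩ := hr hw1.1
        refine ⟨j, ?_, hjw⟩
        rw [mem_union, mem_filter, mem_filter, mem_range]
        by_cases hm : μ j v = v
        · exact Or.inl ⟨hj, hm⟩
        · refine Or.inr ⟨hj, hm, ?_⟩
          intro he
          have ha := hμ.adj j (mem_range.2 (lt_of_lt_of_le hj hik)) v hm
          rw [ins_adj, ← he, hjw] at ha
          exact hw1.2 ha.2
    unfold nb
    refine (Finset.card_le_card hsub).trans ((Finset.card_union_le _ _).trans ?_)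
    gcongr
    exact Finset.card_image_le.trans (Finset.card_union_le _ _)
  omega

private lemma card_Q {G : SimpleGraph V} (S' : Finset V) (f : V → ℕ) {D S q : ℕ}
    (h1 : ∑ v ∈ S', f v ≤ S) (hq : S < (q + 1) * D) :
    ((univ.filter fun v => D ≤ f v) ∩ S').card ≤ q := by
  have h2 : ((univ.filter fun v => D ≤ f v) ∩ S').card * D ≤ ∑ v ∈ S', f v := by
    calc ((univ.filter fun v => D ≤ f v) ∩ S').card * D
        = ∑ _v ∈ ((univ.filter fun v => D ≤ f v) ∩ S'), D := by
          rw [Finset.sum_const, smul_eq_mul]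
      _ ≤ ∑ v ∈ ((univ.filter fun v => D ≤ f v) ∩ S'), f v := by
          apply Finset.sum_le_sum
          intro v hv
          rw [mem_inter, mem_filter] at hv
          exact hv.1.2
      _ ≤ ∑ v ∈ S', f v :=
          Finset.sum_le_sum_of_subset inter_subset_right
  have h3 : ((univ.filter fun v => D ≤ f v) ∩ S').card * D < (q + 1) * D := by omega
  have h4 := lt_of_mul_lt_mul_right h3 (Nat.zero_le D)
  omega

private lemma ph_step {G : SimpleGraph V} {A : Finset V} {N d k D S q g : ℕ} (hA : A.card = N)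
    (hB : Aᶜ.card = N) (hreg : ∀ v, nb G univ v = d) {μ : ℕ → V → V}
    (hμ : IsDec (ins G A) (range k) μ) (hg : ∀ i < k, fx univ (μ i) ≤ g)
    (hSA : ∑ i ∈ range k, (fx A (μ i) + 1) ≤ S) (hSB : ∑ i ∈ range k, (fx Aᶜ (μ i) + 1) ≤ S)
    (hq : S < (q + 1) * D) (hcond : N + g + 2 * q + 2 * D + 2 * k < 2 * d)
    {i : ℕ} (hi : i < k) {σ : ℕ → V → V} (h : Ph G A μ D i σ) :
    ∃ σ', Ph G A μ D (i + 1) σ' := by
  have hmem : i ∈ range k := mem_range.2 hi
  have hmono : ∀ f : ℕ → ℕ, ∑ j ∈ range i, f j ≤ ∑ j ∈ range k, f j := fun f =>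
    Finset.sum_le_sum_of_subset (Finset.range_subset_range.2 hi.le)
  have hQA : ((univ.filter fun v => D ≤ us μ σ i v) ∩ A).card ≤ q :=
    card_Q (G := G) A _ (h.sA.trans ((hmono _).trans hSB)) hq
  have hQB : ((univ.filter fun v => D ≤ us μ σ i v) ∩ Aᶜ).card ≤ q :=
    card_Q (G := G) Aᶜ _ (h.sB.trans ((hmono _).trans hSA)) hq
  obtain ⟨τ, t1, t2, t3, t4, t5, t6⟩ := completion A (crs (rem G σ i) A) (μ i)
    (univ.filter fun v => D ≤ us μ σ i v) N q hA hB (hμ.inv i hmem)
    (by
      intro v
      by_cases hv : μ i v = v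
      · rw [hv]
      · exact (hμ.adj i hmem v hv).2.symm)
    (fun v w hvw => hvw.2) hQA hQB
    (by
      intro v
      have h1 := deg_bound hi.le hμ h v (hreg v)
      have h2 := hg i hi
      omega)
  have hdis : ∀ j, j < i → ∀ v, σ j v ≠ τ v := by
    intro j hj v hjv
    rcases t3 v with h1 | h1
    · have hm : μ i v ≠ v := by rw [← h1]; exact t2 v
      have ha := hμ.adj i hmem v hm
      rcases h.or j hj v with h2 | h2
      · have h3 : μ j v = μ i v := by rw [← h2, hjv, h1]
        have h4 := hμ.dis j (mem_range.2 (hj.trans hi)) i hmem hj.ne v h3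
        exact hm (h3 ▸ h4)
      · rw [hjv, h1] at h2
        exact h2.2 ha.2
    · exact (h.pf.rem_adj_iff.1 h1.1).2 j hj hjv
  refine ⟨fun j => if j = i then τ else σ j, ⟨?_, ?_, ?_⟩, ?_, ?_, ?_, ?_⟩
  · intro j hj v
    by_cases hji : j = i
    · simp only [if_pos hji]; exact t1 v
    · simp only [if_neg hji]; exact h.pf.inv j (by omega) v
  · intro j hj v
    by_cases hji : j = i
    · simp only [if_pos hji]
      rcases t3 v with h1 | h1
      · have hm : μ i v ≠ v := by rw [← h1]; exact t2 v
        rw [h1]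
        exact (hμ.adj i hmem v hm).1
      · exact h1.1.1
    · simp only [if_neg hji]; exact h.pf.adj j (by omega) v
  · intro j hj l hl hjl v
    by_cases hji : j = i
    · have hli : l ≠ i := fun h => hjl (hji.trans h.symm)
      simp only [if_pos hji, if_neg hli]
      exact (hdis l (by omega) v).symm
    · by_cases hli : l = i
      · simp only [if_neg hji, if_pos hli]
        exact hdis j (by omega) v
      · simp only [if_neg hji, if_neg hli]
        exact h.pf.dis j (by omega) l (by omega) hjl v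
  · intro j hj v
    by_cases hji : j = i
    · simp only [if_pos hji]
      rcases t3 v with h1 | h1
      · exact Or.inl (by rw [hji]; exact h1)
      · exact Or.inr ⟨h1.1.1, h1.2⟩
    · simp only [if_neg hji]; exact h.or j (by omega) v
  · intro v
    rw [us_succ]
    split_ifs with h1
    · have h2 := t4 v h1.1 h1.2
      rw [mem_filter] at h2
      have : ¬ D ≤ us μ σ i v := fun h => h2 ⟨mem_univ _, h⟩
      omega
    · exact h.le v
  · simp only [us_succ]
    rw [Finset.sum_add_distrib, Finset.sum_range_succ]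
    have h1 : ∑ v ∈ A, (if μ i v ≠ v ∧ τ v ≠ μ i v then 1 else 0) =
        (A.filter fun v => μ i v ≠ v ∧ τ v ≠ μ i v).card := by
      rw [Finset.card_filter]
    rw [h1]
    exact add_le_add h.sA t5
  · simp only [us_succ]
    rw [Finset.sum_add_distrib, Finset.sum_range_succ]
    have h1 : ∑ v ∈ Aᶜ, (if μ i v ≠ v ∧ τ v ≠ μ i v then 1 else 0) =
        (Aᶜ.filter fun v => μ i v ≠ v ∧ τ v ≠ μ i v).card := by
      rw [Finset.card_filter]
    rw [h1]
    exact add_le_add h.sB t6

private lemma last {G : SimpleGraph V} {A : Finset V} {μ σ : ℕ → V → V} {k : ℕ}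
    (hμ : IsDec (ins G A) (range k) μ) (hpf : PF G k σ) (v : V) :
    nb (ins (rem G σ k) A) univ v ≤ us μ σ k v := by
  have hsub : (univ.filter fun w => (ins (rem G σ k) A).Adj v w) ⊆
      ((range k).filter fun j => μ j v ≠ v ∧ σ j v ≠ μ j v).image fun j => μ j v := by
    intro w hw
    rw [mem_filter] at hw
    have hw1 := hw.2
    rw [ins_adj, hpf.rem_adj_iff] at hw1
    obtain ⟨j, hj, hjw⟩ := hμ.cov v w (ins_adj.2 ⟨hw1.1.1, hw1.2⟩)
    rw [mem_image]
    refine ⟨j, ?_, hjw⟩
    rw [mem_filter]
    refine ⟨hj, ?_, ?_⟩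
    · rw [hjw]
      exact hw1.1.1.ne'
    · rw [hjw]
      exact hw1.1.2 j (mem_range.1 hj)
  exact (Finset.card_le_card hsub).trans Finset.card_image_le

theorem phase1 (G : SimpleGraph V) (A : Finset V) (N d k D S q g : ℕ) (hA : A.card = N)
    (hB : Aᶜ.card = N) (hreg : ∀ v, nb G univ v = d) (μ : ℕ → V → V)
    (hμ : IsDec (ins G A) (range k) μ) (hg : ∀ i < k, fx univ (μ i) ≤ g)
    (hSA : ∑ i ∈ range k, (fx A (μ i) + 1) ≤ S) (hSB : ∑ i ∈ range k, (fx Aᶜ (μ i) + 1) ≤ S)
    (hD : 0 < D) (hq : S < (q + 1) * D) (hcond : N + g + 2 * q + 2 * D + 2 * k < 2 * d) :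
    ∃ σ : ℕ → V → V, PF G k σ ∧ (∀ v, nb (ins (rem G σ k) A) univ v ≤ D) ∧
      ∑ v ∈ A, nb (ins (rem G σ k) A) univ v ≤ S ∧
      ∑ v ∈ Aᶜ, nb (ins (rem G σ k) A) univ v ≤ S := by
  have key : ∀ i, i ≤ k → ∃ σ, Ph G A μ D i σ := by
    intro i
    induction i with
    | zero =>
      intro _
      refine ⟨fun _ v => v, ⟨?_, ?_, ?_⟩, ?_, ?_, ?_, ?_⟩
      · intro j hj; exact absurd hj (Nat.not_lt_zero j)
      · intro j hj; exact absurd hj (Nat.not_lt_zero j)
      · intro j hj; exact absurd hj (Nat.not_lt_zero j)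
      · intro j hj; exact absurd hj (Nat.not_lt_zero j)
      · intro v; simp [us]
      · simp [us]
      · simp [us]
    | succ i ih =>
      intro hi
      obtain ⟨σ, hσ⟩ := ih (by omega)
      exact ph_step hA hB hreg hμ hg hSA hSB hq hcond (by omega) hσ
  obtain ⟨σ, h⟩ := key k le_rfl
  refine ⟨σ, h.pf, fun v => (last hμ h.pf v).trans (h.le v), ?_, ?_⟩
  · exact (Finset.sum_le_sum fun v _ => last hμ h.pf v).trans (h.sA.trans hSB)
  · exact (Finset.sum_le_sum fun v _ => last hμ h.pf v).trans (h.sB.trans hSA)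

end Pool.Agent.OneFac
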