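import Pool.Agent.Lib.OneFac.HallHalf

set_option autoImplicit false
set_option linter.unusedVariables false
set_option linter.unusedSectionVars false

/-! # Module Phase2: the leftover inside edges are covered by K perfect matchings

PROOF. By induction on i <= K there is σ with: (P1) PF R i σ; (P2) for j < i: σ j v = ν j v if ν j v ≠ v, and
(crs R A).Adj v (σ j v) if ν j v = v. Step: H = crs (rem R σ i) A, X = {v ∈ A : ν i v = v}, Y = {v ∈ Aᶜ : ν i v = v},
|X| = |Y| = m (hbal), N <= m + c. For every v: nb (crs R A) univ v = r - nb (ins R A) univ v and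
nb (ins R A) univ v + #{j < K : ν j v = v} = K (IsDec.card_fix); the crs R A-neighbours of v that are not
H-neighbours are the σ j v with j < i, ν j v = v: at most #{j < K : ν j v = v} of them. So nb H univ v + K >= r.
For v ∈ X all H-neighbours are in Aᶜ, |Aᶜ \ Y| = N - m, so nb H Y v + K + N >= r + m and
2 nb H Y v >= 2 r + 2 m - 2 K - 2 N >= m because 2 r >= N + 2 K + c and m + c >= N. The same for Y. hall_half gives τ;
σ i v = if ν i v = v then τ v else ν i v (ν i preserves A and Aᶜ, and its non-fixed points). Perfect matching: X ∪ Y =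
fixed points of ν i. Unused edges: cross edges lie in rem R σ i; an inside edge v (ν i v): if σ j v = ν i v with
j < i then (inside, not across) ν j v ≠ v, σ j v = ν j v, so ν j v = ν i v, contradiction to hν.dis.
END: an edge v w of rem R σ K with v ∈ A ↔ w ∈ A is an edge of ins R A, so ν j v = w for some j < K (cov),
w ≠ v, so σ j v = ν j v = w: contradiction. -/

open Classical Finset

namespace Pool.Agent.OneFac

variable {V : Type*} [Fintype V]

/-- degree of the unused cross edges -/
private theorem deg_aux (R : SimpleGraph V) (A : Finset V) (r K i : ℕ) (hi : i < K)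
    (hreg : ∀ v, nb R univ v = r) (ν : ℕ → V → V) (hν : IsDec (ins R A) (range K) ν)
    (σ : ℕ → V → V) (h : PF R i σ)
    (hσ : ∀ j < i, ∀ v, (ν j v ≠ v → σ j v = ν j v) ∧ (ν j v = v → (crs R A).Adj v (σ j v)))
    (v : V) : r ≤ nb (crs (rem R σ i) A) univ v + K := by
  have h1 := nb_ins_add_crs R A v
  have h2 := hν.card_fix v
  rw [card_range] at h2
  rw [hreg] at h1
  have h3 : (univ.filter fun w => (crs R A).Adj v w) ⊆
      (univ.filter fun w => (crs (rem R σ i) A).Adj v w) ∪
        ((range K).filter fun j => ν j v = v).image (fun j => σ j v) := by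
    intro w hw
    rw [mem_filter, crs_adj] at hw
    rw [mem_union, mem_filter, crs_adj, h.rem_adj_iff]
    by_cases h4 : ∀ j, j < i → σ j v ≠ w
    · exact Or.inl ⟨mem_univ _, ⟨hw.2.1, h4⟩, hw.2.2⟩
    · push Not at h4
      obtain ⟨j, hj, hjw⟩ := h4
      right
      rw [mem_image]
      refine ⟨j, ?_, hjw⟩
      rw [mem_filter, mem_range]
      refine ⟨by omega, ?_⟩
      by_contra hne
      have h5 := (hσ j hj v).1 hne
      have h6 := hν.adj j (mem_range.2 (by omega)) v hne
      rw [ins_adj, ← h5, hjw] at h6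
      exact hw.2.2 h6.2
  have h4 := (card_le_card h3).trans (card_union_le _ _)
  have h5 : (((range K).filter fun j => ν j v = v).image (fun j => σ j v)).card ≤
      ((range K).filter fun j => ν j v = v).card := card_image_le
  have h6 : nb (crs R A) univ v = (univ.filter fun w => (crs R A).Adj v w).card := rfl
  have h7 : nb (crs (rem R σ i) A) univ v =
      (univ.filter fun w => (crs (rem R σ i) A).Adj v w).card := rfl
  omega

private theorem half_aux (H : SimpleGraph V) (S Y : Finset V) (v : V) (hY : Y ⊆ S)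
    (hS : ∀ w, H.Adj v w → w ∈ S) : nb H univ v + Y.card ≤ nb H Y v + S.card := by
  have h1 : (univ.filter fun w => H.Adj v w) ⊆ (Y.filter fun w => H.Adj v w) ∪ (S \ Y) := by
    intro w hw
    rw [mem_filter] at hw
    rw [mem_union, mem_filter, mem_sdiff]
    by_cases h2 : w ∈ Y
    · exact Or.inl ⟨h2, hw.2⟩
    · exact Or.inr ⟨hS w hw.2, h2⟩
  have h2 := (card_le_card h1).trans (card_union_le _ _)
  have h3 := card_sdiff_add_card_eq_card hY
  have h4 : nb H univ v = (univ.filter fun w => H.Adj v w).card := rfl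
  have h5 : nb H Y v = (Y.filter fun w => H.Adj v w).card := rfl
  omega

private theorem step (R : SimpleGraph V) (A : Finset V) (N r K c : ℕ) (hA : A.card = N)
    (hB : Aᶜ.card = N) (hreg : ∀ v, nb R univ v = r) (ν : ℕ → V → V)
    (hν : IsDec (ins R A) (range K) ν) (hbal : ∀ i < K, fx A (ν i) = fx Aᶜ (ν i))
    (hc : ∀ i < K, N ≤ fx A (ν i) + c) (hcond : N + 2 * K + c ≤ 2 * r) (i : ℕ) (hi : i < K)
    (σ : ℕ → V → V) (h : PF R i σ)
    (hσ : ∀ j < i, ∀ v, (ν j v ≠ v → σ j v = ν j v) ∧ (ν j v = v → (crs R A).Adj v (σ j v))) :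
    ∃ σ' : ℕ → V → V, PF R (i + 1) σ' ∧ ∀ j < i + 1, ∀ v,
      (ν j v ≠ v → σ' j v = ν j v) ∧ (ν j v = v → (crs R A).Adj v (σ' j v)) := by
  set H := crs (rem R σ i) A with hH
  have hHadj : ∀ v w, H.Adj v w → R.Adj v w ∧ (∀ j, j < i → σ j v ≠ w) ∧ ¬ (v ∈ A ↔ w ∈ A) := by
    intro v w hvw
    rw [hH, crs_adj, h.rem_adj_iff] at hvw
    exact ⟨hvw.1.1, hvw.1.2, hvw.2⟩
  set X := A.filter fun v => ν i v = v with hX
  set Y := Aᶜ.filter fun v => ν i v = v with hY
  have hXc : X.card = fx A (ν i) := rfl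
  have hYc : Y.card = fx Aᶜ (ν i) := rfl
  have hb := hbal i hi
  have hc' := hc i hi
  have hXA : X ⊆ A := filter_subset _ _
  have hYA : Y ⊆ Aᶜ := filter_subset _ _
  have hdeg := deg_aux R A r K i hi hreg ν hν σ h hσ
  rw [← hH] at hdeg
  obtain ⟨τ, hτ1, hτ2, hτ3, -⟩ := hall_half H X Y
    (disjoint_of_subset_left hXA (disjoint_of_subset_right hYA disjoint_compl_right))
    (by rw [hXc, hYc, hb])
    (by
      intro v hv
      have h1 := half_aux H Aᶜ Y v hYA (by
        intro w hw
        have h2 := (hHadj v w hw).2.2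
        rw [mem_compl]
        intro h3
        exact h2 (by simp [h3, hXA hv]))
      have h2 := hdeg v
      omega)
    (by
      intro v hv
      have h1 := half_aux H A X v hXA (by
        intro w hw
        have h2 := (hHadj v w hw).2.2
        by_contra h3
        have h4 := hYA hv
        rw [mem_compl] at h4
        exact h2 (by simp [h3, h4]))
      have h2 := hdeg v
      omega)
  have hXY : ∀ v, ν i v = v → v ∈ X ∨ v ∈ Y := by
    intro v hv
    by_cases h1 : v ∈ A
    · left
      rw [hX, mem_filter]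
      exact ⟨h1, hv⟩
    · right
      rw [hY, mem_filter, mem_compl]
      exact ⟨h1, hv⟩
  have hτadj : ∀ v, ν i v = v → H.Adj v (τ v) ∧ ν i (τ v) = τ v := by
    intro v hv
    rcases hXY v hv with h1 | h1
    · have h2 := hτ2 v h1
      refine ⟨h2.2, ?_⟩
      have h3 := h2.1
      rw [hY, mem_filter] at h3
      exact h3.2
    · have h2 := hτ3 v h1
      refine ⟨h2.2, ?_⟩
      have h3 := h2.1
      rw [hX, mem_filter] at h3
      exact h3.2
  have hiK : i ∈ range K := mem_range.2 hi
  set ρ : V → V := fun v => if ν i v = v then τ v else ν i v with hρ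
  have hρ1 : ∀ v, ν i v = v → ρ v = τ v := fun v hv => by simp [hρ, hv]
  have hρ2 : ∀ v, ν i v ≠ v → ρ v = ν i v := fun v hv => by simp [hρ, hv]
  have hρd : ∀ j, j < i → ∀ v, σ j v ≠ ρ v := by
    intro j hj v
    by_cases h1 : ν i v = v
    · rw [hρ1 v h1]
      exact (hHadj _ _ (hτadj v h1).1).2.1 j hj
    · rw [hρ2 v h1]
      intro h2
      have h3 := hν.adj i hiK v h1
      rw [ins_adj] at h3
      by_cases h4 : ν j v = v
      · have h5 := (hσ j hj v).2 h4
        rw [crs_adj, h2] at h5
        exact h5.2 h3.2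
      · have h5 := (hσ j hj v).1 h4
        exact h4 (hν.dis j (mem_range.2 (by omega)) i hiK (by omega) v (by rw [← h5, h2]))
  refine ⟨fun j => if j < i then σ j else ρ, ⟨?_, ?_, ?_⟩, ?_⟩
  · intro j hj v
    by_cases h1 : j < i
    · simp only [h1, if_true]
      exact h.inv j h1 v
    · simp only [h1, if_false]
      by_cases h2 : ν i v = v
      · rw [hρ1 v h2, hρ1 _ (hτadj v h2).2, hτ1]
      · rw [hρ2 v h2, hρ2, hν.inv i hiK]
        rw [hν.inv i hiK]
        exact fun h3 => h2 h3.symm
  · intro j hj v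
    by_cases h1 : j < i
    · simp only [h1, if_true]
      exact h.adj j h1 v
    · simp only [h1, if_false]
      by_cases h2 : ν i v = v
      · rw [hρ1 v h2]
        exact (hHadj _ _ (hτadj v h2).1).1
      · rw [hρ2 v h2]
        exact (hν.adj i hiK v h2).1
  · intro j hj l hl hjl v
    by_cases h1 : j < i
    · by_cases h2 : l < i
      · simp only [h1, h2, if_true]
        exact h.dis j h1 l h2 hjl v
      · simp only [h1, h2, if_true, if_false]
        exact hρd j h1 v
    · by_cases h2 : l < i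
      · simp only [h1, h2, if_true, if_false]
        exact (hρd l h2 v).symm
      · omega
  · intro j hj v
    by_cases h1 : j < i
    · simp only [h1, if_true]
      exact hσ j h1 v
    · have h2 : j = i := by omega
      subst h2
      simp only [h1, if_false]
      refine ⟨hρ2 v, fun h2 => ?_⟩
      rw [hρ1 v h2, crs_adj]
      have h3 := hHadj _ _ (hτadj v h2).1
      exact ⟨h3.1, h3.2.2⟩

theorem phase2 (R : SimpleGraph V) (A : Finset V) (N r K c : ℕ) (hA : A.card = N)
    (hB : Aᶜ.card = N) (hreg : ∀ v, nb R univ v = r) (ν : ℕ → V → V)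
    (hν : IsDec (ins R A) (range K) ν) (hbal : ∀ i < K, fx A (ν i) = fx Aᶜ (ν i))
    (hc : ∀ i < K, N ≤ fx A (ν i) + c) (hcond : N + 2 * K + c ≤ 2 * r) :
    ∃ σ : ℕ → V → V, PF R K σ ∧ ∀ v w, (rem R σ K).Adj v w → ¬ (v ∈ A ↔ w ∈ A) := by
  have key : ∀ i, i ≤ K → ∃ σ : ℕ → V → V, PF R i σ ∧ ∀ j < i, ∀ v,
      (ν j v ≠ v → σ j v = ν j v) ∧ (ν j v = v → (crs R A).Adj v (σ j v)) := by
    intro i
    induction i with
    | zero =>
      intro _
      exact ⟨fun _ v => v, ⟨fun i hi => by omega, fun i hi => by omega, fun i hi => by omega⟩,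
        fun j hj => by omega⟩
    | succ i ih =>
      intro hi
      obtain ⟨σ, h1, h2⟩ := ih (by omega)
      exact step R A N r K c hA hB hreg ν hν hbal hc hcond i (by omega) σ h1 h2
  obtain ⟨σ, h1, h2⟩ := key K le_rfl
  refine ⟨σ, h1, fun v w hvw hiff => ?_⟩
  rw [h1.rem_adj_iff] at hvw
  obtain ⟨j, hj, hjw⟩ := hν.cov v w ⟨hvw.1, hiff⟩
  rw [mem_range] at hj
  have h3 : ν j v ≠ v := by
    rw [hjw]
    exact hvw.1.ne'
  exact hvw.2 j hj (by rw [(h2 j hj v).1 h3, hjw])

end Pool.Agent.OneFac
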