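import Pool.Agent.Lib.OneFac.Bal
import Pool.Agent.Lib.OneFac.Halving
import Pool.Agent.Lib.OneFac.Phase1
import Pool.Agent.Lib.OneFac.Phase2
import Pool.Agent.Lib.OneFac.KonReg

set_option autoImplicit false
set_option linter.unusedVariables false
set_option linter.unusedSectionVars false

/-! # Module Main: the parametric theorem -/

open Classical Finset

namespace Pool.Agent.OneFac

variable {V : Type*} [Fintype V]

theorem main_param (G : SimpleGraph V) (N d t D : ℕ) (hV : Fintype.card V = 2 * N)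
    (hreg : ∀ v, nb G univ v = d) (hdN : d < 2 * N)
    (ht : 2 * (N : ℝ) * Real.log (4 * N) ≤ (t : ℝ) ^ 2) (hD : 0 < D)
    (hcond : N + 5 * t + 8 + 2 * D + 2 * (N * (t + 3) / D) < d) :
    ∃ σ : ℕ → V → V, PF G d σ := by
  obtain ⟨A, hA, hB, hbis⟩ := halving G N t hV ht
  -- inside degrees
  have hin1 : ∀ v, 2 * nb (ins G A) univ v ≤ d + t := by
    intro v
    have h1 := nb_add_compl G A v
    have h2 := hbis v
    rw [hreg v] at h1
    by_cases hv : v ∈ A
    · rw [nb_ins_of_mem G A hv]; omega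
    · rw [nb_ins_of_notMem G A hv]; omega
  have hin2 : ∀ v, d ≤ 2 * nb (ins G A) univ v + t := by
    intro v
    have h1 := nb_add_compl G A v
    have h2 := hbis v
    rw [hreg v] at h1
    by_cases hv : v ∈ A
    · rw [nb_ins_of_mem G A hv]; omega
    · rw [nb_ins_of_notMem G A hv]; omega
  obtain ⟨k, hk⟩ : ∃ k, k = (d + t) / 2 + 1 := ⟨_, rfl⟩
  have hk1 : 2 * k ≤ d + t + 2 := by omega
  have hk2 : d + t + 1 ≤ 2 * k := by omega
  obtain ⟨μ0, hμ0⟩ := vizing (ins G A) (range k) (by
    intro v; rw [card_range]; have := hin1 v; omega)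
  obtain ⟨μ, hμ, heq⟩ := equalize hμ0
  -- sums of uncovered vertices
  have hsumU : ∀ S : Finset V, S.card * (t + 1) + ∑ v ∈ S, nb (ins G A) univ v ≥ S.card * k := by
    intro S
    have : ∑ v ∈ S, k ≤ ∑ v ∈ S, ((t + 1) + nb (ins G A) univ v) := by
      refine Finset.sum_le_sum fun v _ => ?_
      have := hin2 v; omega
    rw [Finset.sum_add_distrib, Finset.sum_const, Finset.sum_const, smul_eq_mul, smul_eq_mul] at this
    exact this
  have hfxS : ∀ S : Finset V, ∑ i ∈ range k, fx S (μ i) ≤ S.card * (t + 1) := by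
    intro S
    have h1 := hμ.sum_fx S
    rw [card_range] at h1
    have h2 := hsumU S
    omega
  have hkN : N ≤ 2 * k := by omega
  have hk0 : 0 < k := by omega
  have hg : ∀ i < k, fx univ (μ i) ≤ 4 * t + 6 := by
    intro i hi
    have h1 : ∑ j ∈ range k, fx univ (μ i) ≤ ∑ j ∈ range k, (fx univ (μ j) + 2) :=
      Finset.sum_le_sum fun j hj => heq i (mem_range.2 hi) j hj
    rw [Finset.sum_const, Finset.sum_add_distrib, Finset.sum_const, card_range, smul_eq_mul,
      smul_eq_mul] at h1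
    have h2 := hfxS univ
    rw [card_univ, hV] at h2
    have h3 : 2 * N * (t + 1) ≤ 4 * k * (t + 1) := Nat.mul_le_mul_right _ (by omega)
    have h4 : k * fx univ (μ i) ≤ k * (4 * t + 6) := by nlinarith
    exact Nat.le_of_mul_le_mul_left h4 hk0
  have hkle : k ≤ 2 * N := by omega
  have hSA : ∑ i ∈ range k, (fx A (μ i) + 1) ≤ N * (t + 3) := by
    rw [Finset.sum_add_distrib, Finset.sum_const, card_range, smul_eq_mul, mul_one]
    have h1 := hfxS A
    rw [hA] at h1
    nlinarith
  have hSB : ∑ i ∈ range k, (fx Aᶜ (μ i) + 1) ≤ N * (t + 3) := by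
    rw [Finset.sum_add_distrib, Finset.sum_const, card_range, smul_eq_mul, mul_one]
    have h1 := hfxS Aᶜ
    rw [hB] at h1
    nlinarith
  obtain ⟨S, hS⟩ : ∃ S, S = N * (t + 3) := ⟨_, rfl⟩
  rw [← hS] at hSA hSB hcond
  obtain ⟨σ, hσ, hL, hLA, hLB⟩ := phase1 G A N d k D S (S / D) (4 * t + 6) hA hB hreg μ hμ hg
    hSA hSB hD (by
      have := Nat.div_add_mod S D
      have h2 := Nat.mod_lt S hD
      nlinarith) (by omega)
  obtain ⟨R, hR⟩ : ∃ R, R = rem G σ k := ⟨_, rfl⟩
  rw [← hR] at hL hLA hLB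
  have hRreg : ∀ v, nb R univ v = d - k := by
    intro v
    have := hσ.nb_rem v
    rw [hreg v, ← hR] at this
    omega
  -- equal numbers of inside edges
  have hcross : ∑ v ∈ A, nb (crs R A) univ v = ∑ v ∈ Aᶜ, nb (crs R A) univ v := by
    have e1 : ∀ v ∈ A, nb (crs R A) univ v = ∑ w ∈ Aᶜ, if R.Adj v w then 1 else 0 := by
      intro v hv
      unfold nb
      rw [← Finset.card_filter]
      congr 1
      ext w
      simp only [mem_filter, mem_univ, true_and, crs_adj, mem_compl]
      tauto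
    have e2 : ∀ w ∈ Aᶜ, nb (crs R A) univ w = ∑ v ∈ A, if R.Adj v w then 1 else 0 := by
      intro w hw
      rw [mem_compl] at hw
      unfold nb
      rw [← Finset.card_filter]
      congr 1
      ext v
      simp only [mem_filter, mem_univ, true_and, crs_adj]
      constructor
      · rintro ⟨h1, h2⟩
        exact ⟨by tauto, h1.symm⟩
      · rintro ⟨h1, h2⟩
        exact ⟨h2.symm, by tauto⟩
    rw [Finset.sum_congr rfl e1, Finset.sum_congr rfl e2]
    exact Finset.sum_comm
  have hsum : ∑ v ∈ A, nb (ins R A) univ v = ∑ v ∈ Aᶜ, nb (ins R A) univ v := by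
    have s1 : ∑ v ∈ A, nb (ins R A) univ v + ∑ v ∈ A, nb (crs R A) univ v = N * (d - k) := by
      rw [← Finset.sum_add_distrib, Finset.sum_congr rfl fun v _ =>
        (nb_ins_add_crs R A v).trans (hRreg v), Finset.sum_const, smul_eq_mul, hA]
    have s2 : ∑ v ∈ Aᶜ, nb (ins R A) univ v + ∑ v ∈ Aᶜ, nb (crs R A) univ v = N * (d - k) := by
      rw [← Finset.sum_add_distrib, Finset.sum_congr rfl fun v _ =>
        (nb_ins_add_crs R A v).trans (hRreg v), Finset.sum_const, smul_eq_mul, hB]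
    omega
  obtain ⟨ν, hν, hν1, hν2⟩ := balanced (ins R A) A N (D + 1) S hA hB
    (fun v w h => h.2) (fun v => Nat.lt_succ_of_le (hL v)) hsum hLA
  have hc : ∀ i < D + 1, N ≤ fx A (ν i) + (S / (D + 1) + 2) := by
    intro i hi
    have h1 := hν2 i hi
    have h2 : (D + 1) * N ≤ (D + 1) * (fx A (ν i) + (S / (D + 1) + 2)) + D := by
      have h3 := Nat.div_add_mod S (D + 1)
      have h4 := Nat.mod_lt S (Nat.succ_pos D)
      nlinarith
    by_contra hlt
    push Not at hlt
    have h5 : (D + 1) * (fx A (ν i) + (S / (D + 1) + 2) + 1) ≤ (D + 1) * N :=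
      Nat.mul_le_mul_left _ hlt
    nlinarith
  have hdiv : S / (D + 1) ≤ S / D := Nat.div_le_div_left (Nat.le_succ D) hD
  obtain ⟨σ', hσ', hbip⟩ := phase2 R A N (d - k) (D + 1) (S / (D + 1) + 2) hA hB hRreg ν hν hν1 hc
    (by omega)
  have hR'reg : ∀ v, nb (rem R σ' (D + 1)) univ v = d - k - (D + 1) := by
    intro v
    have := hσ'.nb_rem v
    rw [hRreg v] at this
    omega
  obtain ⟨σ'', hσ''⟩ := konig_reg (rem R σ' (D + 1)) A (d - k - (D + 1)) hbip hR'reg
  have hfin := hσ.cat (hR ▸ (hσ'.cat hσ''))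
  have hcount : k + (D + 1 + (d - k - (D + 1))) = d := by omega
  rw [hcount] at hfin
  exact ⟨_, hfin⟩

end Pool.Agent.OneFac
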