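import Mathlib

set_option autoImplicit false
set_option linter.unusedVariables false
set_option linter.unusedSectionVars false

/-! # Module Numer: the numerical condition

n = 2 N. PROOF. Put n = 2 N (real), L = log(2 n) = log(4 N) > 0, y = (L / n)^(1/4) > 0, so
n^(3/4) L^(1/4) = n y (Real.div_rpow, n^(3/4) = n / n^(1/4)), and sqrt(n L) = n y^2, y^4 = L / n.
From h and d < n: n/2 + 4 n y < n, so y < 1/8, so L < n/4096, hence n > 4096 L >= 4096 log 4 > 4096, then n >= 4096 and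
L >= log(8192) >= 9 (or just L >= 8), so n >= 32768 (n > 4096 * 8).
t = ⌈sqrt(2 N L)⌉ = ⌈n y^2⌉: t^2 >= 2 N L; t <= n y^2 + 1. D = ⌈sqrt(N (t + 3))⌉ >= 1; N (t + 3)/D <= sqrt(N (t+3)), so
2 D + 2 (N (t + 3)/D) <= 4 sqrt(N (t + 3)) + 2 and N (t + 3) <= (n/2)(n y^2 + 4) <= (n y)^2/2 + 2 n. To show:
5 t + 8 + 2 D + 2 ((N (t + 3))/D) < 4 n y. With z = n y: z^4 = n^3 L >= 8 n^3, so z^2 >= 2.8 n^(3/2) >= 500 n (n >= 32768), i.e.
2 n <= z^2/250, N (t+3) <= z^2 (1/2 + 1/250) <= (0.71 z)^2 [0.71^2 = 0.5041 > 0.504], 4 sqrt <= 2.84 z + 0. And 5 t <= 5 z y + 5 <= 0.625 z + 5.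
Total <= 0.625 z + 5 + 8 + 2.84 z + 2 = 3.465 z + 15 < 4 z since z >= 30 (z^2 >= 500 n). -/

open Classical Finset

namespace Pool.Agent.OneFac

theorem numer (N d : ℕ) (hd : d < 2 * N)
    (h : ((2 * N : ℕ) : ℝ) / 2 + 4 * ((2 * N : ℕ) : ℝ) ^ (3 / 4 : ℝ) *
      Real.log (2 * ((2 * N : ℕ) : ℝ)) ^ (1 / 4 : ℝ) ≤ (d : ℝ)) :
    ∃ t D : ℕ, 0 < D ∧ 2 * (N : ℝ) * Real.log (4 * N) ≤ (t : ℝ) ^ 2 ∧
      N + 5 * t + 8 + 2 * D + 2 * (N * (t + 3) / D) < d := by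
  have hN : 0 < N := by omega
  have hN1 : (1 : ℝ) ≤ (N : ℝ) := by exact_mod_cast hN
  have hcast : ((2 * N : ℕ) : ℝ) = 2 * (N : ℝ) := by push_cast; ring
  obtain ⟨n, hn⟩ : ∃ n : ℝ, n = 2 * (N : ℝ) := ⟨_, rfl⟩
  rw [hcast, ← hn] at h
  have hn2 : (2 : ℝ) ≤ n := by rw [hn]; linarith
  have hn0 : (0 : ℝ) < n := by linarith
  obtain ⟨L, hL⟩ : ∃ L : ℝ, L = Real.log (2 * n) := ⟨_, rfl⟩
  rw [← hL] at h
  have hlog2 : (0.69 : ℝ) < Real.log 2 := by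
    have := Real.log_two_gt_d9
    linarith
  have hL4 : (1 : ℝ) ≤ L := by
    have h1 : Real.log ((2 : ℝ) ^ 2) ≤ L := by
      rw [hL]
      apply Real.log_le_log (by norm_num)
      linarith
    rw [Real.log_pow] at h1
    push_cast at h1
    linarith
  have hL0 : (0 : ℝ) < L := by linarith
  obtain ⟨y, hy⟩ : ∃ y : ℝ, y = (L / n) ^ (1 / 4 : ℝ) := ⟨_, rfl⟩
  have hLn : (0 : ℝ) < L / n := div_pos hL0 hn0
  have hy0 : (0 : ℝ) < y := by rw [hy]; exact Real.rpow_pos_of_pos hLn _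
  have hy4 : y ^ 4 = L / n := by
    rw [hy, ← Real.rpow_natCast, ← Real.rpow_mul hLn.le]
    norm_num
  have hny : n ^ (3 / 4 : ℝ) * L ^ (1 / 4 : ℝ) = n * y := by
    rw [hy, Real.div_rpow hL0.le hn0.le]
    have h1 : n ^ (3 / 4 : ℝ) * n ^ (1 / 4 : ℝ) = n := by
      rw [← Real.rpow_add hn0]
      norm_num
    have h2 : (0 : ℝ) < n ^ (1 / 4 : ℝ) := Real.rpow_pos_of_pos hn0 _
    calc n ^ (3 / 4 : ℝ) * L ^ (1 / 4 : ℝ)
        = (n ^ (3 / 4 : ℝ) * n ^ (1 / 4 : ℝ)) * (L ^ (1 / 4 : ℝ) / n ^ (1 / 4 : ℝ)) := by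
          field_simp
      _ = n * (L ^ (1 / 4 : ℝ) / n ^ (1 / 4 : ℝ)) := by rw [h1]
  have hmul : 4 * n ^ (3 / 4 : ℝ) * L ^ (1 / 4 : ℝ) = 4 * (n * y) := by
    rw [mul_assoc, hny]
  rw [hmul] at h
  have hdn : (d : ℝ) < n := by
    rw [hn]
    exact_mod_cast hd
  -- y < 1/8
  have hy8 : y < 1 / 8 := by
    by_contra hcon
    push Not at hcon
    have : n * (1 / 8) ≤ n * y := mul_le_mul_of_nonneg_left hcon hn0.le
    linarith
  have hy4lt : y ^ 4 < (1 / 8 : ℝ) ^ 4 := by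
    exact pow_lt_pow_left₀ hy8 hy0.le (by norm_num)
  have hnL : 4096 * L < n := by
    rw [hy4] at hy4lt
    rw [div_lt_iff₀ hn0] at hy4lt
    norm_num at hy4lt
    linarith
  have hn4096 : (4096 : ℝ) ≤ n := by linarith
  have hL8 : (8 : ℝ) ≤ L := by
    have h1 : Real.log ((2 : ℝ) ^ 13) ≤ L := by
      rw [hL]
      apply Real.log_le_log (by norm_num)
      norm_num
      linarith
    rw [Real.log_pow] at h1
    push_cast at h1
    linarith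
  have hn32 : (32768 : ℝ) ≤ n := by linarith
  -- z
  obtain ⟨z, hz⟩ : ∃ z : ℝ, z = n * y := ⟨_, rfl⟩
  have hz0 : 0 < z := by rw [hz]; positivity
  have hz4 : z ^ 4 = n ^ 3 * L := by
    rw [hz, mul_pow, hy4]
    field_simp
  have hz2 : 500 * n ≤ z ^ 2 := by
    by_contra hcon
    push Not at hcon
    have h1 : z ^ 4 < (500 * n) ^ 2 := by
      have : z ^ 4 = (z ^ 2) ^ 2 := by ring
      rw [this]
      exact pow_lt_pow_left₀ hcon (by positivity) (by norm_num)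
    rw [hz4] at h1
    have h2 : n ^ 3 * 8 ≤ n ^ 3 * L := mul_le_mul_of_nonneg_left hL8 (by positivity)
    have h3 : n ^ 2 * 32768 ≤ n ^ 2 * n := mul_le_mul_of_nonneg_left hn32 (by positivity)
    nlinarith [h1, h2, h3, sq_nonneg n]
  have hz30 : 30 < z := by
    by_contra hcon
    push Not at hcon
    nlinarith
  -- t
  obtain ⟨t, ht⟩ : ∃ t : ℕ, t = ⌈n * y ^ 2⌉₊ := ⟨_, rfl⟩
  have ht1 : n * y ^ 2 ≤ (t : ℝ) := by rw [ht]; exact Nat.le_ceil _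
  have ht2 : (t : ℝ) < n * y ^ 2 + 1 := by
    rw [ht]; exact Nat.ceil_lt_add_one (by positivity)
  -- s
  obtain ⟨s, hs⟩ : ∃ s : ℝ, s = Real.sqrt ((N : ℝ) * ((t : ℝ) + 3)) := ⟨_, rfl⟩
  have hNt : (0 : ℝ) < (N : ℝ) * ((t : ℝ) + 3) := by positivity
  have hs2 : s ^ 2 = (N : ℝ) * ((t : ℝ) + 3) := by
    rw [hs]; exact Real.sq_sqrt hNt.le
  have hs0 : 0 < s := by rw [hs]; exact Real.sqrt_pos.mpr hNt
  obtain ⟨D, hD⟩ : ∃ D : ℕ, D = ⌈s⌉₊ := ⟨_, rfl⟩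
  have hD1 : s ≤ (D : ℝ) := by rw [hD]; exact Nat.le_ceil _
  have hD2 : (D : ℝ) < s + 1 := by rw [hD]; exact Nat.ceil_lt_add_one hs0.le
  have hD0 : 0 < D := by
    have : (0 : ℝ) < (D : ℝ) := by linarith
    exact_mod_cast this
  have hD0' : (0 : ℝ) < (D : ℝ) := by exact_mod_cast hD0
  have hq : (((N * (t + 3) / D : ℕ)) : ℝ) ≤ s := by
    have h1 : (((N * (t + 3) / D : ℕ)) : ℝ) ≤ ((N * (t + 3) : ℕ) : ℝ) / (D : ℝ) := Nat.cast_div_le
    have h2 : ((N * (t + 3) : ℕ) : ℝ) = s ^ 2 := by rw [hs2]; push_cast; ring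
    rw [h2] at h1
    have h3 : s ^ 2 / (D : ℝ) ≤ s := by
      rw [div_le_iff₀ hD0']
      nlinarith
    linarith
  have hz2' : z ^ 2 = n * (n * y ^ 2) := by rw [hz]; ring
  have hNn : (N : ℝ) = n / 2 := by rw [hn]; ring
  have hs3 : s ^ 2 ≤ z ^ 2 / 2 + 2 * n := by
    rw [hs2, hNn, hz2']
    have : (t : ℝ) + 3 ≤ n * y ^ 2 + 4 := by linarith
    nlinarith [mul_le_mul_of_nonneg_left this hn0.le]
  have hs4 : s ≤ 0.71 * z := by
    by_contra hcon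
    push Not at hcon
    have h1 : (0.71 * z) ^ 2 < s ^ 2 := pow_lt_pow_left₀ hcon (by positivity) (by norm_num)
    nlinarith
  have ht3 : 5 * (t : ℝ) < 0.625 * z + 5 := by
    have h1 : n * y ^ 2 ≤ z / 8 := by
      rw [hz]
      have : n * y * y ≤ n * y * (1 / 8) := mul_le_mul_of_nonneg_left hy8.le (by positivity)
      nlinarith
    linarith
  refine ⟨t, D, hD0, ?_, ?_⟩
  · have h1 : 2 * (N : ℝ) * Real.log (4 * N) = n * L := by
      rw [hL, hn]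
      congr 2
      ring
    rw [h1]
    have h2 : (n * y ^ 2) ^ 2 ≤ (t : ℝ) ^ 2 := pow_le_pow_left₀ (by positivity) ht1 2
    have h3 : (n * y ^ 2) ^ 2 = n * L := by
      have : (n * y ^ 2) ^ 2 = n ^ 2 * y ^ 4 := by ring
      rw [this, hy4]
      field_simp
    linarith
  · have hreal : (N : ℝ) + 5 * (t : ℝ) + 8 + 2 * (D : ℝ) + 2 * (((N * (t + 3) / D : ℕ)) : ℝ) < (d : ℝ) := by
      rw [← hz] at h
      have h5 : (N : ℝ) = n / 2 := hNn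
      clear hz2' hs3 hs2 hz2 hz4 hy4 hy4lt hLn hny hmul ht1 ht2 hnL hlog2
      linarith
    exact_mod_cast hreal

end Pool.Agent.OneFac
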