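import Pool.Agent.Lib.OneFac.Defs

set_option autoImplicit false
set_option linter.unusedVariables false
set_option linter.unusedSectionVars false

/-! # Module Orbit: the Kempe chain through a fixed point

PROOF. Put π v = α (β v). π is injective (composition of involutions). Let m be the least m >= 1 with
π^[m] u = u (Function.minimalPeriod π u, positive because V is finite: e.g.
Function.isPeriodicPt... / minimalPeriod_pos_of_mem_periodicPts with
Function.Injective.mem_periodicPts of a finite type, or use that π is a permutation of finite order).
Let C = image of t ↦ π^[t] u over range m; t ↦ π^[t] u is injective on range m and π^[t] u depends only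
on t mod m. For t <= m: α (π^[t] u) = π^[m - t] u and, for t < m, β (π^[t] u) = π^[m - 1 - t] u.
[Both by induction on t: α u = u = π^[m] u; β u = α (α (β u)) = α (π u). In general: α π α = π⁻¹, i.e.
π (α (π v)) = α (β (α (α (β v)))) = α v, so if α (π^[t] u) = π^[m-t] u then
π (α (π^[t+1] u)) = α (π^[t] u) = π^[m-t] u = π (π^[m-t-1] u), so α (π^[t+1] u) = π^[m-(t+1)] u by
injectivity; and β v = α (π v), so β (π^[t] u) = α (π^[t+1] u) = π^[m-(t+1)] u.]
So C is closed. α fixes π^[t] u (t < m) iff m - t ≡ t mod m iff t = 0 or 2 t = m (t = 0: π^[m] u = u).
β fixes π^[t] u iff m - 1 - t = t iff 2 t + 1 = m. So if m is odd: fx C α = 1, fx C β = 1; if m is even: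
fx C α = 2 (t = 0 and t = m/2), fx C β = 0. [Count through the injective map t ↦ π^[t] u.]
Minimality: W closed under α and β is closed under π, so contains all π^[t] u. -/

open Classical Finset

namespace Pool.Agent.OneFac

variable {V : Type*} [Fintype V]

theorem orbit (α β : V → V) (hα : ∀ v, α (α v) = v) (hβ : ∀ v, β (β v) = v) (u : V)
    (hu : α u = u) :
    ∃ C : Finset V, u ∈ C ∧ (∀ v ∈ C, α v ∈ C) ∧ (∀ v ∈ C, β v ∈ C) ∧
      ((fx C α = 1 ∧ fx C β = 1) ∨ (fx C α = 2 ∧ fx C β = 0)) ∧
      ∀ W : Finset V, u ∈ W → (∀ v ∈ W, α v ∈ W) → (∀ v ∈ W, β v ∈ W) → C ⊆ W := by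
  set π : V → V := fun v => α (β v) with hπ
  have hinj : Function.Injective π := by
    intro v w h
    have h1 : α (β v) = α (β w) := h
    have h2 : β v = β w := by rw [← hα (β v), h1, hα]
    rw [← hβ v, h2, hβ]
  have hmem : u ∈ Function.periodicPts π := hinj.mem_periodicPts u
  set m := Function.minimalPeriod π u with hm
  have hmpos : 0 < m := Function.minimalPeriod_pos_of_mem_periodicPts hmem
  have hper : π^[m] u = u := Function.iterate_minimalPeriod
  have hInj : ∀ s t, s < m → t < m → π^[s] u = π^[t] u → s = t := by
    intro s t hs ht h
    exact Function.iterate_injOn_Iio_minimalPeriod (Set.mem_Iio.2 hs) (Set.mem_Iio.2 ht) h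
  have hαr : ∀ t, t ≤ m → α (π^[t] u) = π^[m - t] u := by
    intro t
    induction t with
    | zero => intro _; simp only [Function.iterate_zero, id_eq, Nat.sub_zero, hper, hu]
    | succ t ih =>
      intro ht
      have h1 := ih (by omega)
      apply hinj
      have h2 : π (α (π^[t+1] u)) = α (π^[t] u) := by
        rw [Function.iterate_succ_apply']
        show α (β (α (α (β (π^[t] u))))) = α (π^[t] u)
        rw [hα, hβ]
      have h3 : m - t = (m - (t + 1)) + 1 := by omega
      rw [h2, h1, h3]
      exact Function.iterate_succ_apply' π (m - (t + 1)) u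
  have hβr : ∀ t, t < m → β (π^[t] u) = π^[m - 1 - t] u := by
    intro t ht
    have h1 : β (π^[t] u) = α (π^[t+1] u) := by
      rw [Function.iterate_succ_apply']
      show β (π^[t] u) = α (α (β (π^[t] u)))
      rw [hα]
    have h3 : m - (t + 1) = m - 1 - t := by omega
    rw [h1, hαr (t + 1) (by omega), h3]
  have hC : ∀ t, π^[t] u ∈ (range m).image (fun t => π^[t] u) := by
    intro t
    rw [mem_image]
    refine ⟨t % m, mem_range.2 (Nat.mod_lt _ hmpos), ?_⟩
    exact Function.iterate_mod_minimalPeriod_eq
  have hfx : ∀ μ : V → V, fx ((range m).image (fun t => π^[t] u)) μ =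
      ((range m).filter fun t => μ (π^[t] u) = π^[t] u).card := by
    intro μ
    unfold fx
    rw [Finset.filter_image, Finset.card_image_of_injOn]
    intro s hs t ht h
    simp only [coe_filter, mem_range, Set.mem_ofPred_eq] at hs ht
    exact hInj s t hs.1 ht.1 h
  refine ⟨(range m).image (fun t => π^[t] u), ?_, ?_, ?_, ?_, ?_⟩
  · exact hC 0
  · intro v hv
    rw [mem_image] at hv
    obtain ⟨t, ht, rfl⟩ := hv
    rw [hαr t (le_of_lt (mem_range.1 ht))]
    exact hC _
  · intro v hv
    rw [mem_image] at hv
    obtain ⟨t, ht, rfl⟩ := hv
    rw [hβr t (mem_range.1 ht)]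
    exact hC _
  · have hA : ∀ t, t < m → (α (π^[t] u) = π^[t] u ↔ (t = 0 ∨ 2 * t = m)) := by
      intro t ht
      rw [hαr t ht.le]
      constructor
      · intro h
        by_cases h0 : t = 0
        · exact Or.inl h0
        · right
          have := hInj (m - t) t (by omega) ht h
          omega
      · rintro (h | h)
        · subst h
          simp only [Nat.sub_zero, hper, Function.iterate_zero, id_eq]
        · have h3 : m - t = t := by omega
          rw [h3]
    have hB : ∀ t, t < m → (β (π^[t] u) = π^[t] u ↔ 2 * t + 1 = m) := by
      intro t ht
      rw [hβr t ht]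
      constructor
      · intro h
        have := hInj (m - 1 - t) t (by omega) ht h
        omega
      · intro h
        have h3 : m - 1 - t = t := by omega
        rw [h3]
    rcases Nat.even_or_odd' m with ⟨c, hc | hc⟩
    · right
      constructor
      · rw [hfx]
        have : ((range m).filter fun t => α (π^[t] u) = π^[t] u) = {0, c} := by
          ext t
          simp only [mem_filter, mem_range, mem_insert, mem_singleton]
          constructor
          · rintro ⟨h1, h2⟩
            rcases (hA t h1).1 h2 with h | h
            · exact Or.inl h
            · right; omega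
          · rintro (h | h)
            · exact ⟨by omega, (hA t (by omega)).2 (Or.inl h)⟩
            · exact ⟨by omega, (hA t (by omega)).2 (Or.inr (by omega))⟩
        rw [this]
        exact Finset.card_pair (by omega)
      · rw [hfx, Finset.card_eq_zero, Finset.filter_eq_empty_iff]
        intro t ht h
        have := (hB t (mem_range.1 ht)).1 h
        omega
    · left
      constructor
      · rw [hfx]
        have : ((range m).filter fun t => α (π^[t] u) = π^[t] u) = {0} := by
          ext t
          simp only [mem_filter, mem_range, mem_singleton]
          constructor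
          · rintro ⟨h1, h2⟩
            rcases (hA t h1).1 h2 with h | h
            · exact h
            · omega
          · intro h
            exact ⟨by omega, (hA t (by omega)).2 (Or.inl h)⟩
        rw [this, Finset.card_singleton]
      · rw [hfx]
        have : ((range m).filter fun t => β (π^[t] u) = π^[t] u) = {c} := by
          ext t
          simp only [mem_filter, mem_range, mem_singleton]
          constructor
          · rintro ⟨h1, h2⟩
            have := (hB t h1).1 h2
            omega
          · intro h
            exact ⟨by omega, (hB t (by omega)).2 (by omega)⟩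
        rw [this, Finset.card_singleton]
  · intro W hW hWα hWβ v hv
    rw [mem_image] at hv
    obtain ⟨t, _, rfl⟩ := hv
    have : ∀ t, π^[t] u ∈ W := by
      intro t
      induction t with
      | zero => exact hW
      | succ t ih =>
        rw [Function.iterate_succ_apply']
        exact hWα _ (hWβ _ ih)
    exact this t

end Pool.Agent.OneFac
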