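import Pool.Agent.Lib.OneFac.Orbit
import Pool.Agent.Lib.OneFac.Kswap

set_option autoImplicit false
set_option linter.unusedVariables false
set_option linter.unusedSectionVars false

/-! # Module VizAdd: adding one vertex (Vizing's theorem, Schrijver's proof)

del G v0: the edges of G not at v0. THEOREM. If G minus v0 is decomposed into |I| matchings, deg v0 <= |I|,
all neighbours of v0 have degree <= |I| - 1, except possibly one neighbour u0 of degree <= |I|, then G is
decomposed into |I| matchings.

PROOF by induction on |I| (for all G, u0, μ). Let T = neighbours of v0. If T is empty, G = del G v0 and μ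
works. Otherwise we may assume u0 ∈ T (if not, replace u0 by any element of T: its degree is <= |I| - 1).
Note |I| >= 1. For w ∈ T: nb (del G v0) univ w = nb G univ w - 1, so by IsDec.card_fix the number of
i ∈ I with μ i w = w (colours missing at w) is |I| - nb G univ w + 1: >= 2 for w ≠ u0, >= 1 for w = u0.

STEP 1. There are a decomposition μ of del G v0 (colours I), sets S w ⊆ {i ∈ I : μ i w = w} (w ∈ T) with
|S w| = 2 for w ≠ u0, |S u0| = 1, and i ∈ I such that X_i = {w ∈ T : i ∈ S w} has exactly one element.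
Start with any such S for the given μ; strong induction on Φ = Σ_{i ∈ I} |X_i|^2.
Σ_{i ∈ I} |X_i| = Σ_{w ∈ T} |S w| = 2 |T| - 1 < 2 |I|. If no |X_i| = 1, then some |X_i| <= 1, so
|X_i| = 0, and some |X_j| is odd (the sum is odd), so |X_j| >= 3. Choose u ∈ X_j, so μ j u = u, and
let C be from orbit (α = μ j, β = μ i, u): closed under μ i, μ j, fx C (μ j) <= 2. Replace μ by
kswap μ i j C and S w by its image under the transposition (i j) for w ∈ C ∩ T (unchanged for w ∉ C).
S w is still a set of colours missing at w (of the same size). X_l is unchanged for l ≠ i, j, the new X_i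
is X_j ∩ C and the new X_j is X_j \ C (since X_i is empty). c = |X_j ∩ C| satisfies 1 <= c <= 2 < 3 <= |X_j| =: x
(X_j ∩ C consists of fixed points of μ j in C), so c^2 + (x - c)^2 < x^2 and Φ decreases.

STEP 2. Take μ, S, i with X_i = {u}. Let G' be G without the edge v0 u and without the edges of colour i:
G'.Adj v w := G.Adj v w ∧ μ i v ≠ w ∧ μ i w ≠ v ∧ ¬ (v = v0 ∧ w = u) ∧ ¬ (v = u ∧ w = v0). Then μ decomposes del G' v0 with
colours I.erase i. Degrees in G' (|I.erase i| = |I| - 1): v0 has lost the edge v0 u (μ i v0 = v0, no edge of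
del G v0 at v0). The neighbours of v0 in G' are w ∈ T \ {u}, and i ∉ S w. If μ i w ≠ w then w has lost an
edge: nb G' univ w <= nb G univ w - 1 <= |I| - 2 (|I| - 1 if w = u0). If μ i w = w then i ∉ S w is a
further missing colour at w: at least 3 missing colours (2 if w = u0), so nb G univ w <= |I| - 2
(|I| - 1 if w = u0). So the induction hypothesis applies to G', v0, u0, I.erase i and gives ν. Define the class
i as μ i with v0 and u exchanged (both are fixed points of μ i): ν' i = Function.update-like
fun v => if v = v0 then u else if v = u then v0 else μ i v, ν' l = ν l for l ≠ i. This is a decomposition of G. -/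

open Classical Finset

namespace Pool.Agent.OneFac

variable {V : Type*} [Fintype V]

/-- the edges of `G` which do not contain `v0` -/
def del (G : SimpleGraph V) (v0 : V) : SimpleGraph V where
  Adj v w := G.Adj v w ∧ v ≠ v0 ∧ w ≠ v0
  symm := ⟨fun v w h => ⟨h.1.symm, h.2.2, h.2.1⟩⟩
  loopless := ⟨fun v h => G.loopless.irrefl v h.1⟩

/-- the neighbours of `v0` to which the colour `i` is offered -/
private noncomputable def xs (G : SimpleGraph V) (v0 : V) (S : V → Finset ℕ) (i : ℕ) : Finset V :=
  univ.filter fun w => G.Adj v0 w ∧ i ∈ S w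

private theorem mem_xs {G : SimpleGraph V} {v0 : V} {S : V → Finset ℕ} {i : ℕ} {w : V} :
    w ∈ xs G v0 S i ↔ G.Adj v0 w ∧ i ∈ S w := by
  unfold xs; simp

private theorem sum_xs (G : SimpleGraph V) (v0 u0 : V) (I : Finset ℕ) (S : V → Finset ℕ)
    (hu0 : G.Adj v0 u0) (hS : ∀ w, G.Adj v0 w → S w ⊆ I)
    (hc : ∀ w, G.Adj v0 w → (S w).card = if w = u0 then 1 else 2) :
    ∑ i ∈ I, (xs G v0 S i).card + 1 = 2 * nb G univ v0 := by
  have e1 : ∀ i, (xs G v0 S i).card =
      ∑ w ∈ (univ.filter fun w => G.Adj v0 w), if i ∈ S w then 1 else 0 := by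
    intro i
    rw [← Finset.card_filter]
    congr 1
    ext w
    rw [mem_xs]
    simp
  have e2 : ∑ i ∈ I, (xs G v0 S i).card =
      ∑ w ∈ (univ.filter fun w => G.Adj v0 w), (S w).card := by
    rw [Finset.sum_congr rfl fun i _ => e1 i, Finset.sum_comm]
    refine Finset.sum_congr rfl fun w hw => ?_
    rw [← Finset.card_filter]
    congr 1
    ext i
    rw [mem_filter] at hw
    rw [mem_filter]
    exact ⟨fun h => h.2, fun h => ⟨hS w hw.2 h, h⟩⟩
  have hmem : u0 ∈ (univ.filter fun w => G.Adj v0 w) := by simpa using hu0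
  rw [e2, ← Finset.add_sum_erase _ _ hmem, hc u0 hu0, if_pos rfl]
  have e3 : ∑ w ∈ (univ.filter fun w => G.Adj v0 w).erase u0, (S w).card =
      ∑ w ∈ (univ.filter fun w => G.Adj v0 w).erase u0, 2 := by
    refine Finset.sum_congr rfl fun w hw => ?_
    rw [mem_erase, mem_filter] at hw
    rw [hc w hw.2.2, if_neg hw.1]
  rw [e3, Finset.sum_const, smul_eq_mul, Finset.card_erase_of_mem hmem]
  have hpos : 0 < (univ.filter fun w => G.Adj v0 w).card := Finset.card_pos.2 ⟨u0, hmem⟩
  unfold nb
  omega

private theorem step1 (G : SimpleGraph V) (v0 u0 : V) (I : Finset ℕ) (hu0 : G.Adj v0 u0)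
    (h0 : nb G univ v0 ≤ I.card) : ∀ (n : ℕ) (μ : ℕ → V → V) (S : V → Finset ℕ),
    IsDec (del G v0) I μ →
    (∀ w, G.Adj v0 w → ∀ i ∈ S w, i ∈ I ∧ μ i w = w) →
    (∀ w, G.Adj v0 w → (S w).card = if w = u0 then 1 else 2) →
    ∑ i ∈ I, (xs G v0 S i).card ^ 2 ≤ n →
    ∃ (μ' : ℕ → V → V) (S' : V → Finset ℕ), IsDec (del G v0) I μ' ∧
      (∀ w, G.Adj v0 w → ∀ i ∈ S' w, i ∈ I ∧ μ' i w = w) ∧
      (∀ w, G.Adj v0 w → (S' w).card = if w = u0 then 1 else 2) ∧
      ∃ i ∈ I, (xs G v0 S' i).card = 1 := by
  intro n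
  induction n with
  | zero =>
    intro μ S hμ hS hc hn
    exfalso
    have hcard := hc u0 hu0
    rw [if_pos rfl] at hcard
    obtain ⟨i, hi⟩ := Finset.card_pos.1 (by omega : 0 < (S u0).card)
    have hiI := (hS u0 hu0 i hi).1
    have h3 : (xs G v0 S i).card ^ 2 ≤ 0 :=
      le_trans (Finset.single_le_sum (f := fun i => (xs G v0 S i).card ^ 2)
        (fun _ _ => Nat.zero_le _) hiI) hn
    have h4 : 0 < (xs G v0 S i).card := Finset.card_pos.2 ⟨u0, mem_xs.2 ⟨hu0, hi⟩⟩
    have h5 : 0 < (xs G v0 S i).card ^ 2 := pow_pos h4 2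
    omega
  | succ n ih =>
    intro μ S hμ hS hc hn
    by_cases hex : ∃ i ∈ I, (xs G v0 S i).card = 1
    · exact ⟨μ, S, hμ, hS, hc, hex⟩
    push Not at hex
    have hsum := sum_xs G v0 u0 I S hu0 (fun w hw i hi => (hS w hw i hi).1) hc
    -- an empty class
    obtain ⟨i, hi, hi0⟩ : ∃ i ∈ I, (xs G v0 S i).card = 0 := by
      by_contra hcon
      push Not at hcon
      have h3 : ∑ _i ∈ I, 2 ≤ ∑ i ∈ I, (xs G v0 S i).card := by
        refine Finset.sum_le_sum fun i hi => ?_
        have := hcon i hi
        have := hex i hi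
        omega
      rw [Finset.sum_const, smul_eq_mul] at h3
      omega
    -- an odd class
    obtain ⟨j, hj, hj3⟩ : ∃ j ∈ I, 3 ≤ (xs G v0 S j).card := by
      by_contra hcon
      push Not at hcon
      have h3 : 2 ∣ ∑ i ∈ I, (xs G v0 S i).card := by
        refine Finset.dvd_sum fun i hi => ?_
        have h4 := hcon i hi
        have h5 := hex i hi
        have h6 : (xs G v0 S i).card = 0 ∨ (xs G v0 S i).card = 2 := by omega
        rcases h6 with h6 | h6
        · rw [h6]; exact dvd_zero 2
        · rw [h6]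
      omega
    have hij : i ≠ j := by
      rintro rfl
      omega
    have hXi : xs G v0 S i = ∅ := Finset.card_eq_zero.1 hi0
    obtain ⟨u, hu⟩ := Finset.card_pos.1 (by omega : 0 < (xs G v0 S j).card)
    rw [mem_xs] at hu
    obtain ⟨C, huC, hCj, hCi, hfx, -⟩ := orbit (μ j) (μ i) (hμ.inv j hj) (hμ.inv i hi) u
      (hS u hu.1 j hu.2).2
    have hfx2 : fx C (μ j) ≤ 2 := by
      rcases hfx with h | h
      · omega
      · omega
    set S' : V → Finset ℕ := fun w => if w ∈ C then (S w).image (Equiv.swap i j) else S w with hS'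
    have hmemS' : ∀ w l, l ∈ S' w ↔ if w ∈ C then Equiv.swap i j l ∈ S w else l ∈ S w := by
      intro w l
      simp only [hS']
      split_ifs with hw
      · rw [mem_image]
        constructor
        · rintro ⟨m, hm, rfl⟩
          rwa [Equiv.swap_apply_self]
        · intro h
          exact ⟨_, h, Equiv.swap_apply_self _ _ _⟩
      · exact Iff.rfl
    have hX'o : ∀ l, l ≠ i → l ≠ j → xs G v0 S' l = xs G v0 S l := by
      intro l hli hlj
      ext w
      rw [mem_xs, mem_xs, hmemS', Equiv.swap_apply_of_ne_of_ne hli hlj]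
      split_ifs <;> rfl
    have hX'i : xs G v0 S' i = xs G v0 S j ∩ C := by
      ext w
      rw [mem_xs, mem_inter, mem_xs, hmemS', Equiv.swap_apply_left]
      have hno : ¬ (G.Adj v0 w ∧ i ∈ S w) := by
        intro h
        have := mem_xs.2 h
        rw [hXi] at this
        exact absurd this (Finset.notMem_empty _)
      split_ifs with hw
      · tauto
      · tauto
    have hX'j : xs G v0 S' j = xs G v0 S j \ C := by
      ext w
      rw [mem_xs, mem_sdiff, mem_xs, hmemS', Equiv.swap_apply_right]
      have hno : ¬ (G.Adj v0 w ∧ i ∈ S w) := by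
        intro h
        have := mem_xs.2 h
        rw [hXi] at this
        exact absurd this (Finset.notMem_empty _)
      split_ifs with hw
      · tauto
      · tauto
    have hcap : (xs G v0 S j ∩ C).card ≤ 2 := by
      refine le_trans (Finset.card_le_card ?_) hfx2
      intro w hw
      rw [mem_inter, mem_xs] at hw
      rw [mem_filter]
      exact ⟨hw.2, (hS w hw.1.1 j hw.1.2).2⟩
    have hcap1 : 0 < (xs G v0 S j ∩ C).card :=
      Finset.card_pos.2 ⟨u, mem_inter.2 ⟨mem_xs.2 hu, huC⟩⟩
    have hadd : (xs G v0 S j \ C).card + (xs G v0 S j ∩ C).card = (xs G v0 S j).card :=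
      Finset.card_sdiff_add_card_inter _ _
    refine ih (kswap μ i j C) S' (kswap_dec hμ hi hj hCi hCj) ?_ ?_ ?_
    · intro w hw l hl
      rw [hmemS'] at hl
      by_cases hwC : w ∈ C
      · rw [if_pos hwC] at hl
        have h3 := hS w hw _ hl
        refine ⟨?_, ?_⟩
        · by_cases h4 : l = i
          · rw [h4]; exact hi
          · by_cases h5 : l = j
            · rw [h5]; exact hj
            · rw [Equiv.swap_apply_of_ne_of_ne h4 h5] at h3
              exact h3.1
        · unfold kswap
          rw [if_pos hwC]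
          exact h3.2
      · rw [if_neg hwC] at hl
        have h3 := hS w hw _ hl
        refine ⟨h3.1, ?_⟩
        unfold kswap
        rw [if_neg hwC]
        exact h3.2
    · intro w hw
      rw [← hc w hw]
      simp only [hS']
      split_ifs with hwC
      · exact Finset.card_image_of_injective _ (Equiv.injective _)
      · rfl
    · have hji : j ∈ I.erase i := mem_erase.2 ⟨hij.symm, hj⟩
      rw [← Finset.add_sum_erase _ _ hi, ← Finset.add_sum_erase _ _ hji] at hn ⊢
      have h3 : ∑ l ∈ (I.erase i).erase j, (xs G v0 S' l).card ^ 2 =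
          ∑ l ∈ (I.erase i).erase j, (xs G v0 S l).card ^ 2 := by
        refine Finset.sum_congr rfl fun l hl => ?_
        rw [mem_erase, mem_erase] at hl
        rw [hX'o l hl.2.1 hl.1]
      rw [h3, hX'i, hX'j]
      rw [hi0, ← hadd] at hn
      generalize (xs G v0 S j \ C).card = a at *
      generalize (xs G v0 S j ∩ C).card = c at *
      have h4 : c ^ 2 + a ^ 2 + 1 ≤ (a + c) ^ 2 := by
        have h5 : 1 ≤ a := by omega
        have h6 : 1 ≤ a * c := Nat.mul_pos (by omega) hcap1
        nlinarith
      have h7 : (0 : ℕ) ^ 2 = 0 := rfl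
      omega

private theorem nb_del (G : SimpleGraph V) (v0 w : V) (h : G.Adj v0 w) :
    nb (del G v0) univ w + 1 = nb G univ w := by
  have hmem : v0 ∈ (univ.filter fun x => G.Adj w x) := by simpa using h.symm
  have e : (univ.filter fun x => (del G v0).Adj w x) = (univ.filter fun x => G.Adj w x).erase v0 := by
    ext x
    simp only [mem_filter, mem_univ, true_and, mem_erase, del]
    constructor
    · intro h3; exact ⟨h3.2.2, h3.1⟩
    · intro h3; exact ⟨h3.2, h.ne', h3.1⟩
  unfold nb
  rw [e]
  exact Finset.card_erase_add_one hmem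

/-- remove the edges of the colour class `f` and the edge `v0 u` -/
private def cut (G : SimpleGraph V) (v0 u : V) (f : V → V) : SimpleGraph V where
  Adj v w := G.Adj v w ∧ f v ≠ w ∧ f w ≠ v ∧ ¬ (v = v0 ∧ w = u) ∧ ¬ (v = u ∧ w = v0)
  symm := ⟨fun v w h => ⟨h.1.symm, h.2.2.1, h.2.1, fun h' => h.2.2.2.2 ⟨h'.2, h'.1⟩,
    fun h' => h.2.2.2.1 ⟨h'.2, h'.1⟩⟩⟩
  loopless := ⟨fun v h => G.loopless.irrefl v h.1⟩

private theorem cut_adj {G : SimpleGraph V} {v0 u : V} {f : V → V} {v w : V} :
    (cut G v0 u f).Adj v w ↔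
      G.Adj v w ∧ f v ≠ w ∧ f w ≠ v ∧ ¬ (v = v0 ∧ w = u) ∧ ¬ (v = u ∧ w = v0) := Iff.rfl

private theorem cut_dec (G : SimpleGraph V) (v0 u : V) (I : Finset ℕ) (i : ℕ) (μ : ℕ → V → V)
    (hi : i ∈ I) (h : IsDec (del G v0) I μ) : IsDec (del (cut G v0 u (μ i)) v0) (I.erase i) μ := by
  constructor
  · intro l hl v
    exact h.inv l (mem_erase.1 hl).2 v
  · intro l hl v hv
    rw [mem_erase] at hl
    have h3 := h.adj l hl.2 v hv
    have h4 : μ i v ≠ μ l v := fun h5 => hv (h.dis l hl.2 i hi hl.1 v h5.symm)
    refine ⟨⟨h3.1, h4, ?_, fun h5 => h3.2.1 h5.1, fun h5 => h3.2.2 h5.2⟩, h3.2.1, h3.2.2⟩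
    intro h5
    apply h4
    have h6 := congrArg (μ i) h5
    rw [h.inv i hi] at h6
    exact h6.symm
  · intro v w hvw
    obtain ⟨l, hl, hlw⟩ := h.cov v w ⟨hvw.1.1, hvw.2.1, hvw.2.2⟩
    refine ⟨l, mem_erase.2 ⟨?_, hl⟩, hlw⟩
    rintro rfl
    exact hvw.1.2.1 hlw
  · intro l hl l' hl' hne v hv
    exact h.dis l (mem_erase.1 hl).2 l' (mem_erase.1 hl').2 hne v hv

private theorem glue (G : SimpleGraph V) (v0 u : V) (I : Finset ℕ) (i : ℕ) (f : V → V)
    (ν : ℕ → V → V) (hi : i ∈ I) (hvu : G.Adj v0 u) (hf : ∀ v, f (f v) = v)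
    (hfa : ∀ v, f v ≠ v → G.Adj v (f v)) (hf0 : f v0 = v0) (hfu : f u = u)
    (hν : IsDec (cut G v0 u f) (I.erase i) ν) : ∃ ν' : ℕ → V → V, IsDec G I ν' := by
  have hne : u ≠ v0 := hvu.ne'
  set g : V → V := fun v => if v = v0 then u else if v = u then v0 else f v with hg
  have g0 : g v0 = u := by simp [hg]
  have gu : g u = v0 := by simp [hg, hne]
  have go : ∀ v, v ≠ v0 → v ≠ u → g v = f v := by
    intro v h3 h4
    simp [hg, h3, h4]
  have gcut : ∀ v w, (cut G v0 u f).Adj v w → g v ≠ w := by
    intro v w hvw hgw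
    rw [cut_adj] at hvw
    by_cases h3 : v = v0
    · rw [h3, g0] at hgw
      exact hvw.2.2.2.1 ⟨h3, hgw.symm⟩
    · by_cases h4 : v = u
      · rw [h4, gu] at hgw
        exact hvw.2.2.2.2 ⟨h4, hgw.symm⟩
      · rw [go v h3 h4] at hgw
        exact hvw.2.1 hgw
  refine ⟨fun l => if l = i then g else ν l, ?_, ?_, ?_, ?_⟩
  · intro l hl v
    by_cases hli : l = i
    · simp only [if_pos hli]
      by_cases h3 : v = v0
      · rw [h3, g0, gu]
      · by_cases h4 : v = u
        · rw [h4, gu, g0]
        · rw [go v h3 h4, go (f v) ?_ ?_, hf]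
          · intro h5
            apply h3
            rw [← hf v, h5, hf0]
          · intro h5
            apply h4
            rw [← hf v, h5, hfu]
    · simp only [if_neg hli]
      exact hν.inv l (mem_erase.2 ⟨hli, hl⟩) v
  · intro l hl v
    by_cases hli : l = i
    · simp only [if_pos hli]
      by_cases h3 : v = v0
      · intro _
        rw [h3, g0]
        exact hvu
      · by_cases h4 : v = u
        · intro _
          rw [h4, gu]
          exact hvu.symm
        · rw [go v h3 h4]
          exact hfa v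
    · simp only [if_neg hli]
      intro h3
      exact (hν.adj l (mem_erase.2 ⟨hli, hl⟩) v h3).1
  · intro v w hvw
    by_cases hc : (cut G v0 u f).Adj v w
    · obtain ⟨l, hl, hlw⟩ := hν.cov v w hc
      rw [mem_erase] at hl
      refine ⟨l, hl.2, ?_⟩
      simp only [if_neg hl.1]
      exact hlw
    · refine ⟨i, hi, ?_⟩
      simp only [if_true]
      have hfv : f v = w → g v = w := by
        intro h3
        have hv0 : v ≠ v0 := by
          intro h4
          rw [h4, hf0] at h3
          rw [h4, h3] at hvw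
          exact hvw.ne rfl
        have hvu' : v ≠ u := by
          intro h4
          rw [h4, hfu] at h3
          rw [h4, h3] at hvw
          exact hvw.ne rfl
        rw [go v hv0 hvu', h3]
      rw [cut_adj] at hc
      by_contra hgw
      apply hc
      refine ⟨hvw, fun h3 => hgw (hfv h3), fun h3 => hgw (hfv ?_), ?_, ?_⟩
      · rw [← h3, hf]
      · rintro ⟨h3, h4⟩
        apply hgw
        rw [h3, g0, h4]
      · rintro ⟨h3, h4⟩
        apply hgw
        rw [h3, gu, h4]
  · have key : ∀ l ∈ I, l ≠ i → ∀ v, g v = ν l v → g v = v := by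
      intro l hl hli v hv
      by_contra hgv
      rw [hv] at hgv
      exact gcut v (ν l v) (hν.adj l (mem_erase.2 ⟨hli, hl⟩) v hgv) hv
    intro l hl l' hl' hll v hv
    by_cases hli : l = i
    · have hli' : l' ≠ i := fun h => hll (hli.trans h.symm)
      simp only [if_pos hli, if_neg hli'] at hv ⊢
      exact key l' hl' hli' v hv
    · simp only [if_neg hli] at hv ⊢
      by_cases hli' : l' = i
      · simp only [if_pos hli'] at hv
        rw [hv]
        exact key l hl hli v hv.symm
      · simp only [if_neg hli'] at hv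
        exact hν.dis l (mem_erase.2 ⟨hli, hl⟩) l' (mem_erase.2 ⟨hli', hl'⟩) hll v hv

private theorem viz_aux : ∀ (n : ℕ) (G : SimpleGraph V) (v0 u0 : V) (I : Finset ℕ)
    (μ : ℕ → V → V), I.card = n → IsDec (del G v0) I μ → nb G univ v0 ≤ I.card →
    (∀ w, G.Adj v0 w → w ≠ u0 → nb G univ w + 1 ≤ I.card) →
    (G.Adj v0 u0 → nb G univ u0 ≤ I.card) → ∃ ν : ℕ → V → V, IsDec G I ν := by
  intro n
  induction n with
  | zero =>
    intro G v0 u0 I μ hn hμ h0 h1 h2
    refine ⟨μ, hμ.inv, fun l hl v hv => (hμ.adj l hl v hv).1, ?_, hμ.dis⟩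
    have h3 : ∀ w, ¬ G.Adj v0 w := by
      intro w hw
      have h4 : 0 < nb G univ v0 := by
        unfold nb
        exact Finset.card_pos.2 ⟨w, by simpa using hw⟩
      omega
    intro v w hvw
    refine hμ.cov v w ⟨hvw, ?_, ?_⟩
    · rintro rfl; exact h3 w hvw
    · rintro rfl; exact h3 v hvw.symm
  | succ n ih =>
    intro G v0 u0 I μ hn hμ h0 h1 h2
    by_cases hT : ∃ w, G.Adj v0 w
    swap
    · push Not at hT
      refine ⟨μ, hμ.inv, fun l hl v hv => (hμ.adj l hl v hv).1, ?_, hμ.dis⟩
      intro v w hvw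
      refine hμ.cov v w ⟨hvw, ?_, ?_⟩
      · rintro rfl; exact hT w hvw
      · rintro rfl; exact hT v hvw.symm
    -- we may assume that `u0` is a neighbour
    obtain ⟨u1, hu1, h1', h2'⟩ : ∃ u1, G.Adj v0 u1 ∧
        (∀ w, G.Adj v0 w → w ≠ u1 → nb G univ w + 1 ≤ I.card) ∧ nb G univ u1 ≤ I.card := by
      by_cases h3 : G.Adj v0 u0
      · exact ⟨u0, h3, h1, h2 h3⟩
      · obtain ⟨w, hw⟩ := hT
        have h4 : ∀ x, G.Adj v0 x → x ≠ u0 := by
          rintro x hx rfl
          exact h3 hx
        refine ⟨w, hw, fun x hx _ => h1 x hx (h4 x hx), ?_⟩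
        have := h1 w hw (h4 w hw)
        omega
    have hS : ∀ w, ∃ s : Finset ℕ, G.Adj v0 w →
        (s ⊆ I.filter fun i => μ i w = w) ∧ s.card = if w = u1 then 1 else 2 := by
      intro w
      by_cases hw : G.Adj v0 w
      · have h3 : (if w = u1 then 1 else 2) ≤ (I.filter fun i => μ i w = w).card := by
          have h4 := hμ.card_fix w
          have h5 := nb_del G v0 w hw
          split_ifs with h6
          · rw [h6] at h4 h5 ⊢
            omega
          · have := h1' w hw h6
            omega
        obtain ⟨s, hs, hs'⟩ := Finset.exists_subset_card_eq h3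
        exact ⟨s, fun _ => ⟨hs, hs'⟩⟩
      · exact ⟨∅, fun h => absurd h hw⟩
    choose S hS using hS
    obtain ⟨μ', S', hμ', hS', hc', i, hi, hi1⟩ := step1 G v0 u1 I hu1 h0 _ μ S hμ
      (fun w hw i hi => mem_filter.1 ((hS w hw).1 hi)) (fun w hw => (hS w hw).2) le_rfl
    obtain ⟨u, hu⟩ := Finset.card_eq_one.1 hi1
    have huX : u ∈ xs G v0 S' i := by rw [hu]; exact mem_singleton_self u
    rw [mem_xs] at huX
    have hcardI : (I.erase i).card = n := by
      rw [Finset.card_erase_of_mem hi, hn]; rfl
    have hdeg : ∀ w, (cut G v0 u (μ' i)).Adj v0 w →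
        nb (cut G v0 u (μ' i)) univ w + (S' w).card ≤ n + 1 := by
      intro w hw
      rw [cut_adj] at hw
      have hwu : w ≠ u := fun h => hw.2.2.2.1 ⟨rfl, h⟩
      have hiS : i ∉ S' w := by
        intro h3
        have h4 : w ∈ xs G v0 S' i := mem_xs.2 ⟨hw.1, h3⟩
        rw [hu, mem_singleton] at h4
        exact hwu h4
      have h4 := hμ'.card_fix w
      have h5 := nb_del G v0 w hw.1
      have hsub : (univ.filter fun x => (cut G v0 u (μ' i)).Adj w x) ⊆
          (univ.filter fun x => G.Adj w x) := by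
        intro x hx
        simp only [mem_filter, mem_univ, true_and] at hx ⊢
        exact hx.1
      by_cases h6 : μ' i w = w
      · have h7 : nb (cut G v0 u (μ' i)) univ w ≤ nb G univ w := by
          unfold nb; exact Finset.card_le_card hsub
        have h8 : (insert i (S' w)).card ≤ (I.filter fun l => μ' l w = w).card := by
          refine Finset.card_le_card ?_
          intro l hl
          rw [mem_insert] at hl
          rw [mem_filter]
          rcases hl with rfl | hl
          · exact ⟨hi, h6⟩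
          · exact hS' w hw.1 l hl
        rw [Finset.card_insert_of_notMem hiS] at h8
        omega
      · have h7 : nb (cut G v0 u (μ' i)) univ w < nb G univ w := by
          unfold nb
          refine Finset.card_lt_card ⟨hsub, fun h8 => ?_⟩
          have h9 : μ' i w ∈ (univ.filter fun x => G.Adj w x) := by
            simp only [mem_filter, mem_univ, true_and]
            exact (hμ'.adj i hi w h6).1
          have h10 := h8 h9
          simp only [mem_filter, mem_univ, true_and] at h10
          exact h10.2.1 rfl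
        have h8 : (S' w).card ≤ (I.filter fun l => μ' l w = w).card := by
          refine Finset.card_le_card ?_
          intro l hl
          rw [mem_filter]
          exact hS' w hw.1 l hl
        omega
    obtain ⟨ν, hν⟩ := ih (cut G v0 u (μ' i)) v0 u1 (I.erase i) μ' hcardI
      (cut_dec G v0 u I i μ' hi hμ') (by
        rw [hcardI]
        have h3 : (univ.filter fun x => (cut G v0 u (μ' i)).Adj v0 x) ⊆
            (univ.filter fun x => G.Adj v0 x).erase u := by
          intro x hx
          simp only [mem_filter, mem_univ, true_and, mem_erase] at hx ⊢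
          exact ⟨fun h => hx.2.2.2.1 ⟨rfl, h⟩, hx.1⟩
        have h4 := Finset.card_le_card h3
        rw [Finset.card_erase_of_mem (by simpa using huX.1)] at h4
        unfold nb at h0 ⊢
        omega)
      (by
        intro w hw hwu
        have h3 := hdeg w hw
        rw [hc' w hw.1, if_neg hwu] at h3
        rw [hcardI]
        omega)
      (by
        intro hw
        have h3 := hdeg u1 hw
        rw [hc' u1 hw.1, if_pos rfl] at h3
        rw [hcardI]
        omega)
    have hf0 : μ' i v0 = v0 := by
      by_contra h3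
      exact (hμ'.adj i hi v0 h3).2.1 rfl
    exact glue G v0 u I i (μ' i) ν hi huX.1 (hμ'.inv i hi)
      (fun v hv => (hμ'.adj i hi v hv).1) hf0 (hS' u huX.1 i huX.2).2 hν

theorem viz_add (G : SimpleGraph V) (v0 u0 : V) (I : Finset ℕ) (μ : ℕ → V → V)
    (hμ : IsDec (del G v0) I μ) (h0 : nb G univ v0 ≤ I.card)
    (h1 : ∀ w, G.Adj v0 w → w ≠ u0 → nb G univ w + 1 ≤ I.card)
    (h2 : G.Adj v0 u0 → nb G univ u0 ≤ I.card) : ∃ ν : ℕ → V → V, IsDec G I ν :=
  viz_aux I.card G v0 u0 I μ rfl hμ h0 h1 h2

end Pool.Agent.OneFac
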