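import Pool.Agent.Lib.OneFac.VizAdd

set_option autoImplicit false
set_option linter.unusedVariables false
set_option linter.unusedSectionVars false

/-! # Module Vizing: Vizing's theorem (max degree < |I| gives a decomposition into |I| matchings)

PROOF. For a finite set W of vertices let G_W be the graph of the edges of G with both ends in W. By
Finset.induction_on W: G_∅ has no edges, μ i = id works (IsDec with no edges). Step: W' = insert v0 W,
v0 ∉ W: del (G_W') v0 = G_W (ext), which has a decomposition; all degrees of G_W' are <= degrees of G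
< |I|, so viz_add applies (u0 := v0; G.Adj v0 v0 is false). W = univ gives G. -/

open Classical Finset

namespace Pool.Agent.OneFac

variable {V : Type*} [Fintype V]

private def indG (G : SimpleGraph V) (W : Finset V) : SimpleGraph V where
  Adj v w := G.Adj v w ∧ v ∈ W ∧ w ∈ W
  symm := ⟨fun v w h => ⟨h.1.symm, h.2.2, h.2.1⟩⟩
  loopless := ⟨fun v h => G.loopless.irrefl v h.1⟩

private theorem nb_indG_le (G : SimpleGraph V) (W : Finset V) (v : V) :
    nb (indG G W) univ v ≤ nb G univ v := by
  unfold nb
  refine Finset.card_le_card ?_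
  intro w hw
  rw [mem_filter] at hw ⊢
  exact ⟨hw.1, hw.2.1⟩

private theorem del_indG (G : SimpleGraph V) (W : Finset V) (a : V) (ha : a ∉ W) :
    del (indG G (insert a W)) a = indG G W := by
  ext v w
  constructor
  · rintro ⟨⟨h1, h2, h3⟩, h4, h5⟩
    exact ⟨h1, (mem_insert.1 h2).resolve_left h4, (mem_insert.1 h3).resolve_left h5⟩
  · rintro ⟨h1, h2, h3⟩
    refine ⟨⟨h1, mem_insert_of_mem h2, mem_insert_of_mem h3⟩, ?_, ?_⟩
    · rintro rfl
      exact ha h2
    · rintro rfl
      exact ha h3

theorem vizing (G : SimpleGraph V) (I : Finset ℕ) (h : ∀ v, nb G univ v < I.card) :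
    ∃ μ : ℕ → V → V, IsDec G I μ := by
  have key : ∀ W : Finset V, ∃ μ : ℕ → V → V, IsDec (indG G W) I μ := by
    intro W
    induction W using Finset.induction_on with
    | empty =>
      refine ⟨fun _ v => v, fun _ _ _ => rfl, fun _ _ v hv => absurd rfl hv, ?_,
        fun _ _ _ _ _ _ _ => rfl⟩
      rintro v w ⟨-, h1, -⟩
      exact absurd h1 (notMem_empty v)
    | insert a W ha ih =>
      obtain ⟨μ, hμ⟩ := ih
      refine viz_add (indG G (insert a W)) a a I μ ?_ ?_ ?_ ?_
      · rw [del_indG G W a ha]
        exact hμ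
      · exact (nb_indG_le G _ a).trans (h a).le
      · intro w _ _
        exact Nat.succ_le_of_lt ((nb_indG_le G _ w).trans_lt (h w))
      · intro h1
        exact absurd h1 ((indG G (insert a W)).loopless.irrefl a)
  obtain ⟨μ, hμ⟩ := key univ
  have hG : indG G univ = G := by
    ext v w
    exact ⟨fun h => h.1, fun h => ⟨h, mem_univ _, mem_univ _⟩⟩
  rw [hG] at hμ
  exact ⟨μ, hμ⟩

end Pool.Agent.OneFac
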